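import Pool.Agent.H87.SA.SDefs

/-! # [SA-HOUSE] Real place, house, Liouville inequality, primitive elements, invariants

`k` a number field with a real embedding `ι`; `σ0 = Complex.ofRealHom.comp ι : k →+* ℂ`.
`house a = ‖(canonicalEmbedding ..) a‖`, the maximum of `‖σ a‖` over all `σ : k →+* ℂ`
(`NumberField.house_eq_sup'`; see also `Pool/Agent/H8/KF/HouseK.lean`).
`house_liou`: `a ≠ 0` an algebraic integer: `1 ≤ |N(a)| = ∏_σ ‖σ a‖`
(`NumberField.norm... `: `Algebra.norm_eq_prod_embeddings`, `|N| ≥ 1` as it is a nonzero integer: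
`Algebra.isIntegral_norm`, or `RingOfIntegers.norm`), one factor is `|ι a|`, the others are
`≤ house a`, and there are `D - 1` of them (`NumberField.Embeddings.card`). So
`1 ≤ |ι a| house(a)^(D-1)`; also `1 ≤ ∏ ≤ house^D`, so `house a ≥ 1`, and the claim follows.
`prim_top`: `Field.primitive_element_iff_algHom_eq_of_eval` (with `A = ℂ`, `φ = σ0` as
`ℚ`-algebra homomorphism; `ψ`: any other), hypothesis `hz`.
`prim_indep`: `ι` injective, so `∑_{j<D} c_j z^j = 0` in `k`; the powers `z^j`, `j < D` are linearly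
independent over `ℚ` as `minpoly ℚ z` has degree `D` (`ℚ⟮z⟯ = ⊤`,
`IntermediateField.adjoin.finrank`, `IntermediateField.finrank_top'`; `linearIndependent_pow`, or:
a nonzero polynomial of degree `< D` with root `z` contradicts `minpoly.natDegree_le...`).
`inv_int`: all embeddings `σ : k →+* ℂ` take the same value at `a`. The roots of `minpoly ℚ a` in `ℂ`
are the `σ a` (`NumberField.Embeddings.range_eval_eq_rootSet_minpoly`), a single number; the minimal
polynomial is separable, so of degree 1 (`Polynomial.card_rootSet_eq_natDegree`), so `a` is rational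
(`minpoly.natDegree_eq_one_iff`), and integral over `ℤ`, so an integer
(`IsIntegrallyClosed.isIntegral_iff`). -/

namespace Pool.Agent.H87.SA

open Finset Polynomial NumberField

variable {k : Type} [Field k] [NumberField k]

omit [NumberField k] in
theorem hs_norm_real (ι : k →+* ℝ) (a : k) : ‖(Complex.ofRealHom.comp ι) a‖ = |ι a| := by
  rw [RingHom.comp_apply]
  exact Complex.norm_real _

theorem abs_le_house (ι : k →+* ℝ) (a : k) : |ι a| ≤ house a := by
  rw [← hs_norm_real]
  exact norm_embedding_le_house a _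

theorem house_le_of {a : k} {C : ℝ} (hC : 0 ≤ C) (h : ∀ σ : k →+* ℂ, ‖σ a‖ ≤ C) :
    house a ≤ C := by
  unfold house
  rw [canonicalEmbedding.norm_le_iff]
  exact h

theorem house_liou (ι : k →+* ℝ) (a : 𝓞 k) (ha : a ≠ 0) :
    1 ≤ |ι (a : k)| * house (a : k) ^ Module.finrank ℚ k := by
  have hint : IsIntegral ℤ (a : k) := RingOfIntegers.isIntegral_coe a
  have ha' : (a : k) ≠ 0 := by
    intro h
    exact ha (by exact_mod_cast h)
  have h1 := norm_norm_le_norm_mul_house_pow (a : k) (Complex.ofRealHom.comp ι)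
  rw [hs_norm_real] at h1
  have h2 := one_le_house_of_isIntegral hint ha'
  obtain ⟨z, hz⟩ := (IsIntegrallyClosed.isIntegral_iff (K := ℚ)).mp
    (Algebra.isIntegral_norm ℚ hint)
  have hz' : (z : ℚ) = Algebra.norm ℚ (a : k) := hz
  have hz0 : z ≠ 0 := by
    rintro rfl
    rw [Int.cast_zero] at hz'
    exact ha' (Algebra.norm_eq_zero_iff.mp hz'.symm)
  have h3 : 1 ≤ ‖Algebra.norm ℚ (a : k)‖ := by
    rw [← hz']
    have h4 : (1 : ℝ) ≤ |(z : ℝ)| := by
      rw [← Int.cast_abs]
      exact_mod_cast Int.one_le_abs hz0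
    have h5 : ‖((z : ℤ) : ℚ)‖ = |(z : ℝ)| := by
      rw [← Rat.norm_cast_real, Real.norm_eq_abs]
      simp
    rw [h5]
    exact h4
  refine (h3.trans h1).trans ?_
  gcongr
  exact Nat.sub_le _ _

theorem prim_top (ι : k →+* ℝ) (z : k)
    (hz : ∀ σ : k →+* ℂ, σ z = ((ι z : ℝ) : ℂ) → σ = Complex.ofRealHom.comp ι) :
    IntermediateField.adjoin ℚ {z} = ⊤ := by
  refine (Field.primitive_element_iff_algHom_eq_of_eval ℚ ℂ (fun _ => IsAlgClosed.splits _) z
    (Complex.ofRealHom.comp ι).toRatAlgHom).mpr ?_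
  intro ψ hψ
  have h1 : (ψ : k →+* ℂ) z = ((ι z : ℝ) : ℂ) := hψ.symm
  have h2 := hz _ h1
  refine AlgHom.ext fun w => ?_
  have h3 := congrArg (fun f : k →+* ℂ => f w) h2
  exact h3.symm

theorem prim_indep (ι : k →+* ℝ) (z : k) (hz : IntermediateField.adjoin ℚ {z} = ⊤)
    (c : ℕ → ℤ) (h : ∑ j ∈ range (Module.finrank ℚ k), (c j : ℝ) * ι z ^ j = 0) :
    ∀ j < Module.finrank ℚ k, c j = 0 := by
  have hdeg := (Field.primitive_element_iff_minpoly_natDegree_eq ℚ z).mp hz
  have hk : ∑ j ∈ range (Module.finrank ℚ k), (c j : k) * z ^ j = 0 := by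
    apply ι.injective
    rw [map_sum, map_zero, ← h]
    refine Finset.sum_congr rfl fun j _ => ?_
    rw [map_mul, map_pow, map_intCast]
  set P : ℚ[X] := ∑ j ∈ range (Module.finrank ℚ k), C (c j : ℚ) * X ^ j with hP
  have hPz : aeval z P = 0 := by
    rw [hP, map_sum, ← hk]
    refine Finset.sum_congr rfl fun j _ => ?_
    simp
  have hPd : P.degree < (Module.finrank ℚ k : ℕ) := by
    rw [hP, Polynomial.degree_lt_iff_coeff_zero]
    intro m hm
    rw [Polynomial.finsetSum_coeff]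
    refine Finset.sum_eq_zero fun j hj => ?_
    have := Finset.mem_range.mp hj
    rw [Polynomial.coeff_C_mul_X_pow, if_neg (by omega)]
  have hP0 : P = 0 := by
    by_contra hne
    have h1 := minpoly.degree_le_of_ne_zero ℚ z hne hPz
    have h2 : (minpoly ℚ z).degree = (Module.finrank ℚ k : ℕ) := by
      rw [Polynomial.degree_eq_natDegree (minpoly.ne_zero_of_finite ℚ z), hdeg]
    rw [h2] at h1
    exact absurd hPd (not_lt.mpr h1)
  intro j hj
  have h1 := congrArg (fun Q : ℚ[X] => Q.coeff j) hP0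
  simp only [Polynomial.coeff_zero] at h1
  rw [hP, Polynomial.finsetSum_coeff, Finset.sum_eq_single j] at h1
  · rw [Polynomial.coeff_C_mul_X_pow, if_pos rfl] at h1
    exact_mod_cast h1
  · intro i _ hij
    rw [Polynomial.coeff_C_mul_X_pow, if_neg (Ne.symm hij)]
  · intro h2
    exact absurd (Finset.mem_range.mpr hj) h2

theorem inv_int (ι : k →+* ℝ) (a : 𝓞 k)
    (ha : ∀ σ : k →+* ℂ, σ (a : k) = ((ι (a : k) : ℝ) : ℂ)) : ∃ m : ℤ, (m : ℝ) = ι (a : k) := by
  have h1 : algebraMap ℚ ℂ (Algebra.trace ℚ k (a : k)) = ∑ σ : k →ₐ[ℚ] ℂ, σ (a : k) :=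
    trace_eq_sum_embeddings ℂ
  have h2 : ∑ σ : k →ₐ[ℚ] ℂ, σ (a : k) =
      (Module.finrank ℚ k : ℂ) * ((ι (a : k) : ℝ) : ℂ) := by
    have h3 : ∀ σ : k →ₐ[ℚ] ℂ, σ (a : k) = ((ι (a : k) : ℝ) : ℂ) :=
      fun σ => ha (σ : k →+* ℂ)
    rw [Finset.sum_congr rfl fun σ _ => h3 σ, Finset.sum_const,
      Finset.card_univ, AlgHom.card, nsmul_eq_mul]
  have hfr : (Module.finrank ℚ k : ℝ) ≠ 0 := by
    have := Module.finrank_pos (R := ℚ) (M := k)
    exact_mod_cast this.ne'
  have h3 : ((Algebra.trace ℚ k (a : k) : ℚ) : ℝ) = Module.finrank ℚ k * ι (a : k) := by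
    have h4 : (((Algebra.trace ℚ k (a : k) : ℚ) : ℝ) : ℂ) =
        ((Module.finrank ℚ k * ι (a : k) : ℝ) : ℂ) := by
      push_cast
      rw [← h2, ← h1]
      rfl
    exact_mod_cast h4
  set q : ℚ := Algebra.trace ℚ k (a : k) / Module.finrank ℚ k with hq
  have h5 : ι (a : k) = (q : ℝ) := by
    rw [hq]
    push_cast
    rw [h3]
    field_simp
  have h6 : (a : k) = algebraMap ℚ k q := by
    apply ι.injective
    rw [h5]
    simp
  have h7 : IsIntegral ℤ q := by
    have h8 : IsIntegral ℤ (a : k) := RingOfIntegers.isIntegral_coe a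
    rw [h6] at h8
    exact (isIntegral_algebraMap_iff (algebraMap ℚ k).injective).mp h8
  obtain ⟨m, hm⟩ := IsIntegrallyClosed.isIntegral_iff.mp h7
  refine ⟨m, ?_⟩
  rw [h5, ← hm]
  simp

end Pool.Agent.H87.SA
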