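import Pool.Agent.H87.SA.Defs

/-! # [SA-COEF] Sizes of the coefficients of powers

`ν (coeff i (Z^j)) ≤ A^j 2^(i+j) R^i` if `ν (coeff k Z) ≤ A R^k` for all `k` (`1 ≤ A`, `1 ≤ R`):
induction on `j`: `Z^0 = 1`: `ν 1 ≤ 1`, `ν 0 = 0`. `Z^(j+1) = Z^j Z`:
`ν (coeff i) ≤ ∑_{a+b=i} A^j 2^(a+j) R^a A R^b = A^(j+1) 2^j R^i ∑_{a ≤ i} 2^a ≤ A^(j+1) 2^(j+i+1) R^i`.
`zc Z k s j = coeff k (X^s Z^j)` is `coeff (k-s) (Z^j)` if `s ≤ k` and `0` otherwise
(`PowerSeries.coeff_X_pow_mul'`). -/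

namespace Pool.Agent.H87.SA

open Finset Pool.Agent.H72.ES Pool.Agent.H8.KF

private theorem nu_sum {E : Type} [CommRing E] {ν : E → ℝ} (hν : SubMul ν) {ι : Type*}
    (s : Finset ι) (g : ι → E) : ν (∑ i ∈ s, g i) ≤ ∑ i ∈ s, ν (g i) := by
  classical
  induction s using Finset.induction_on with
  | empty => rw [sum_empty, sum_empty, hν.zero]
  | insert a s ha ih =>
    rw [sum_insert ha, sum_insert ha]
    exact (hν.add _ _).trans (by linarith)

theorem coeff_pow_le {E : Type} [CommRing E] {ν : E → ℝ} (hν : SubMul ν) {A R : ℝ} (hA : 1 ≤ A)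
    (hR : 1 ≤ R) {Z : PowerSeries E} (hZ : ∀ k, ν (PowerSeries.coeff k Z) ≤ A * R ^ k) (i j : ℕ) :
    ν (PowerSeries.coeff i (Z ^ j)) ≤ A ^ j * 2 ^ (i + j) * R ^ i := by
  have hA0 : 0 ≤ A := by linarith
  have hR0 : 0 ≤ R := by linarith
  induction j generalizing i with
  | zero =>
    rw [pow_zero, pow_zero, one_mul, add_zero, PowerSeries.coeff_one]
    split_ifs with h
    · rw [h, pow_zero, pow_zero, mul_one]
      exact hν.one
    · rw [hν.zero]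
      positivity
  | succ j ih =>
    rw [pow_succ, PowerSeries.coeff_mul]
    have h1 : ν (∑ p ∈ antidiagonal i, PowerSeries.coeff p.1 (Z ^ j) * PowerSeries.coeff p.2 Z) ≤
        ∑ p ∈ antidiagonal i, A ^ (j + 1) * 2 ^ j * R ^ i * 2 ^ p.1 := by
      refine (nu_sum hν _ _).trans (sum_le_sum fun p hp => ?_)
      have hp' : p.1 + p.2 = i := mem_antidiagonal.1 hp
      refine (hν.mul _ _).trans ?_
      calc ν (PowerSeries.coeff p.1 (Z ^ j)) * ν (PowerSeries.coeff p.2 Z) ≤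
          (A ^ j * 2 ^ (p.1 + j) * R ^ p.1) * (A * R ^ p.2) :=
            mul_le_mul (ih p.1) (hZ p.2) (hν.nonneg _) (by positivity)
        _ = A ^ (j + 1) * 2 ^ j * R ^ i * 2 ^ p.1 := by
            rw [← hp']
            ring
    refine h1.trans ?_
    rw [← mul_sum]
    have h2 : ∑ p ∈ antidiagonal i, (2 : ℝ) ^ p.1 ≤ 2 ^ (i + 1) := by
      rw [Nat.sum_antidiagonal_eq_sum_range_succ (fun a _ => (2 : ℝ) ^ a) i, geom_sum_eq (by norm_num)]
      have : (0 : ℝ) < 2 ^ (i + 1) := by positivity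
      rw [show (2 : ℝ) - 1 = 1 by norm_num, div_one]
      exact (sub_le_self _ zero_le_one)
    calc A ^ (j + 1) * 2 ^ j * R ^ i * ∑ p ∈ antidiagonal i, (2 : ℝ) ^ p.1 ≤
        A ^ (j + 1) * 2 ^ j * R ^ i * 2 ^ (i + 1) := mul_le_mul_of_nonneg_left h2 (by positivity)
      _ = A ^ (j + 1) * 2 ^ (i + (j + 1)) * R ^ i := by ring

theorem zc_le {E : Type} [CommRing E] {ν : E → ℝ} (hν : SubMul ν) {A R : ℝ} (hA : 1 ≤ A)
    (hR : 1 ≤ R) {Z : PowerSeries E} (hZ : ∀ k, ν (PowerSeries.coeff k Z) ≤ A * R ^ k) {D : ℕ}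
    (k s j : ℕ) (hj : j < D) : ν (zc Z k s j) ≤ A ^ D * 2 ^ D * (2 * R) ^ k := by
  have hA0 : 0 ≤ A := by linarith
  have hR0 : 0 ≤ R := by linarith
  unfold zc
  rw [PowerSeries.coeff_X_pow_mul']
  split_ifs with h
  · refine (coeff_pow_le hν hA hR hZ (k - s) j).trans ?_
    have h1 : A ^ j ≤ A ^ D := pow_le_pow_right₀ hA hj.le
    have h2 : (2 : ℝ) ^ (k - s + j) ≤ 2 ^ (k + D) := pow_le_pow_right₀ (by norm_num) (by omega)
    have h3 : R ^ (k - s) ≤ R ^ k := pow_le_pow_right₀ hR (by omega)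
    calc A ^ j * 2 ^ (k - s + j) * R ^ (k - s) ≤ A ^ D * 2 ^ (k + D) * R ^ k := by gcongr
      _ = A ^ D * 2 ^ D * (2 * R) ^ k := by rw [mul_pow]; ring
  · rw [hν.zero]
    positivity

theorem zc_map {S S' : Type*} [CommRing S] [CommRing S'] (ψ : S →+* S') (Z : PowerSeries S)
    (k s j : ℕ) : ψ (zc Z k s j) = zc (Z.map ψ) k s j := by
  unfold zc
  rw [← PowerSeries.coeff_map, map_mul, map_pow, map_pow, PowerSeries.map_X]

end Pool.Agent.H87.SA
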