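import Pool.Agent.H87.SA.Coef
import Pool.Agent.H97.AN.SiegA
import Pool.Agent.H97.AN.Num

/-! # [SA-SIEG] The auxiliary polynomial

Adapt `Pool.Agent.H97.AN.siegA` (same file layout). Unknowns `A s j p q`: `s ≤ J = 3 n la`
(`Fin (J+1)`), `j < D` (`Fin D`), `(q,p) ∈ siegelSet n (3n)`: `U = (3 n la + 1) D n (5n+3) / 2`.
Equations: for `l ≤ 6n`, `k < TT - la l`, the `m` coordinates `an.coord` of
`∑ A s j p q * (JE (zc Z k s j) * JO (bc (3n) p q l))`: `E = m R'`,
`2 R' = (6n+1)(2 TT - 6 n la)` (`sieg_rows`). `5 E ≤ 4 U`: as in `siegA`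
`5 (2 R') ≤ 12 (3 n la + 1)(5n+3)`, multiply by `m`, and `3 m ≤ n D`:
`5 (2 R') m ≤ 12 m (3n la+1)(5n+3) ≤ 4 n D (3 n la+1)(5n+3) = 4 * 2U`. `m ≥ 1` (if `m = 0` then
`an.coord` is injective into a one point type, so `L` is trivial, contradicting `an.φ 1 = 1 ≠ 0`);
`D ≥ 1` follows from `3 m ≤ n D`. Entries: `an.size`, `zc_le` (with `A = M^κ`),
`bc_bound` (`ν bc ≤ B^(1+2l) ≤ B^(13n)`): `|coord| ≤ G M^(κ D) 2^D (2R)^k B^(13n)`,
`k ≤ TT n la ≤ (6n+1) la` (`TT_le`/`num_TT`). `U ≤ 12 n⁴ la D`, `D ≤ la`, `12 n⁴ la² ≤ 2^(..)`: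
`U 2^D (2R)^k ≤ R^(5 n² la)`: as `R ≥ 2`: `(2R)^k ≤ R^(2k) ≤ R^(2(6n+1) la)`, `2^D ≤ R^la`,
`U ≤ 2^(n² la) ≤ R^(n² la)` (`la ≥ 8 n`, `D ≤ la`; `U ≤ (3 n la+1) la n (5n+3)/2 ≤ 12 n³ la²`, and
`12 n³ la² ≤ 2^(16 la) ≤ 2^(n² la)` because `n³ ≤ la³`, `12 la⁵ ≤ 2^(16 la)`), and
`12 n + 2 + 1 + n² ≤ 5 n²` for `n ≥ 4` (`12 n + 3 ≤ 4 n²`). Solution bounded by the fourth power of
`U * entry` (`Int.Matrix.exists_ne_zero_int_vec_norm_le`, exponent `E/(U-E) ≤ 4`), i.e. by `ZS`.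
Put `A = 0` outside the index set. -/

namespace Pool.Agent.H87.SA

open Finset Polynomial Pool.Agent.H72.ES Pool.Agent.H8.KF Pool.Agent.H97.AN

variable {n Q : ℕ} {f : ℤ[X]} {θ : ℝ}

attribute [local instance] Matrix.seminormedAddCommGroup

theorem siegS (O : Ord ℝ n Q f θ) {F : ℕ → ℕ → ℤ} (hF : Norml n Q f F) (br : Branch O F)
    {D m κ M : ℕ} {R G : ℝ} (hm : 3 * m ≤ n * D) (hM : 1 ≤ M) (hR : 2 ≤ R) (hG : 1 ≤ G)
    (an : Anch O D m κ M R G) (la : ℕ) (hla : 8 * n ≤ la) (hlaD : D ≤ la) :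
    ∃ A : ℕ → ℕ → ℕ → ℕ → ℤ, (∃ s j p q, A s j p q ≠ 0) ∧ SuppA n D (3 * n * la) A ∧
      (∀ s j p q, |((A s j p q : ℤ) : ℝ)| ≤ ZS n D κ M R G (bb n Q) la) ∧
      ∀ k l, k + la * l < TT n la →
        sa n D (3 * n * la) A (fun s j => an.JE (zc an.Z k s j))
          (fun p q => an.JO (bc O br (3 * n) p q l)) = 0 := by
  classical
  have hn := hF.hn
  have hQ := hF.hQ
  have hb : 1 ≤ bb n Q := one_le_bb hn hQ
  have hTT := TT_le hn hla
  have hTT6 := num_TT hn hla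
  have hnla : n ≤ n * la := Nat.le_mul_of_pos_right _ (by omega)
  have hMR : (1 : ℝ) ≤ (M : ℝ) := by exact_mod_cast hM
  have hm1 : 1 ≤ m := by
    by_contra hc
    have hm0 : m = 0 := by omega
    subst hm0
    have h1 : an.coord 1 = an.coord 0 := Subsingleton.elim _ _
    have h2 : (1 : an.L) = 0 := an.coord_inj h1
    have h3 : an.φ 1 = an.φ 0 := congrArg an.φ h2
    rw [map_one, map_zero] at h3
    exact one_ne_zero h3
  have hD1 : 1 ≤ D := by
    by_contra hc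
    have hD0 : D = 0 := by omega
    subst hD0
    omega
  set S2 := siegelSet n (3 * n) with hS2
  have hc2 : 2 * (S2.card : ℤ) = n * (5 * n + 3) := by
    have := siegel_card (n := n) (N := 3 * n) (by omega)
    push_cast at this
    rw [← hS2] at this
    linarith
  let I1 := (Σ l : Fin (6 * n + 1), Fin (TT n la - la * (l : ℕ)))
  let W : Matrix (I1 × Fin m) ((Fin (3 * n * la + 1) × Fin D) × {p // p ∈ S2}) ℤ :=
    Matrix.of fun r c => an.coord (an.JE (zc an.Z (r.1.2 : ℕ) (c.1.1 : ℕ) (c.1.2 : ℕ)) *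
      an.JO (bc O br (3 * n) c.2.1.2 c.2.1.1 r.1.1)) r.2
  set K := (∑ l : Fin (6 * n + 1), (TT n la - la * (l : ℕ))) with hK
  have hcα : Fintype.card (I1 × Fin m) = K * m := by
    rw [Fintype.card_prod, Fintype.card_sigma]
    simp only [Fintype.card_fin, hK]
  have hcβ : Fintype.card ((Fin (3 * n * la + 1) × Fin D) × {p // p ∈ S2}) =
      (3 * n * la + 1) * D * S2.card := by
    rw [Fintype.card_prod, Fintype.card_prod, Fintype.card_coe, Fintype.card_fin, Fintype.card_fin]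
  have hKr : 2 * (K : ℝ) = (6 * n + 1) * (2 * TT n la - 6 * n * la) := by
    have := sieg_rows n la
    rw [← hK] at this
    exact_mod_cast this
  have hTTr : (2 * TT n la : ℝ) ≤ 12 * n * la + 6 * n + la + 2 := by
    have h1 : 2 * TT n la ≤ 12 * n * la + 6 * n + la + 2 := by
      unfold TT ee
      have h3 : 2 * (la / 2) ≤ la := Nat.mul_div_le la 2
      nlinarith
    exact_mod_cast h1
  have hTTr0 : (12 * n * la + 6 * n + la : ℝ) ≤ 2 * TT n la := by
    have h1 : 12 * n * la + 6 * n + la ≤ 2 * TT n la := by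
      unfold TT ee
      have h3 : la < 2 * (la / 2 + 1) := by omega
      nlinarith
    exact_mod_cast h1
  have hnR : (4 : ℝ) ≤ n := by exact_mod_cast hn
  have hlaR : 8 * (n : ℝ) ≤ la := by exact_mod_cast hla
  have hmR : (1 : ℝ) ≤ m := by exact_mod_cast hm1
  have hDR : (1 : ℝ) ≤ D := by exact_mod_cast hD1
  have hDlaR : (D : ℝ) ≤ la := by exact_mod_cast hlaD
  have h3mR : 3 * (m : ℝ) ≤ n * D := by exact_mod_cast hm
  have hla0 : (0 : ℝ) ≤ la := by linarith
  have hu2 : 2 * (S2.card : ℝ) = n * (5 * n + 3) := by exact_mod_cast hc2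
  have hU : (((3 * n * la + 1) * D * S2.card : ℕ) : ℝ) =
      (3 * n * la + 1) * D * (n * (5 * n + 3)) / 2 := by
    push_cast
    rw [← hu2]
    ring
  have h54 : 5 * ((K * m : ℕ) : ℝ) ≤ 4 * (((3 * n * la + 1) * D * S2.card : ℕ) : ℝ) := by
    rw [hU]
    push_cast
    have hK1 : 2 * (K : ℝ) ≤ (6 * n + 1) * (6 * n * la + 6 * n + la + 2) := by
      rw [hKr]
      exact mul_le_mul_of_nonneg_left (by linarith) (by linarith)
    have h1 : 5 * ((6 * (n : ℝ) + 1) * (6 * n * la + 6 * n + la + 2)) ≤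
        12 * ((3 * n * la + 1) * (5 * n + 3)) := by
      have h2 : (48 * (n : ℝ) - 5) * (8 * n) ≤ (48 * n - 5) * la :=
        mul_le_mul_of_nonneg_left hlaR (by linarith)
      nlinarith
    have h4 : (3 * (n : ℝ) * la + 1) * (5 * n + 3) * (3 * m) ≤
        (3 * n * la + 1) * (5 * n + 3) * (n * D) :=
      mul_le_mul_of_nonneg_left h3mR (by positivity)
    have h5 : 5 * (2 * (K : ℝ)) * m ≤ 12 * ((3 * n * la + 1) * (5 * n + 3)) * m := by
      refine mul_le_mul_of_nonneg_right ?_ (by linarith)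
      linarith
    linarith
  have hEpos : 0 < ((K * m : ℕ) : ℝ) := by
    push_cast
    have : 0 < (K : ℝ) := by
      have h1 : 0 < 2 * (K : ℝ) := by
        rw [hKr]
        have h2 : (0 : ℝ) < 2 * TT n la - 6 * n * la := by
          have : (0 : ℝ) ≤ 6 * n * la := by positivity
          linarith
        have h3 : (0 : ℝ) < 6 * n + 1 := by linarith
        positivity
      linarith
    positivity
  have hlt : Fintype.card (I1 × Fin m) <
      Fintype.card ((Fin (3 * n * la + 1) × Fin D) × {p // p ∈ S2}) := by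
    rw [hcα, hcβ]
    have : ((K * m : ℕ) : ℝ) < (((3 * n * la + 1) * D * S2.card : ℕ) : ℝ) := by linarith
    exact_mod_cast this
  have hmpos : 0 < Fintype.card (I1 × Fin m) := by
    rw [hcα]
    exact_mod_cast hEpos
  obtain ⟨x, hx0, hMx, hxn⟩ := Int.Matrix.exists_ne_zero_int_vec_norm_le W hlt hmpos
  -- norm bound
  have hEN : (1 : ℝ) ≤ G * (M : ℝ) ^ (κ * D) * bb n Q ^ (13 * n) :=
    one_le_mul_of_one_le_of_one_le (one_le_mul_of_one_le_of_one_le hG (one_le_pow₀ hMR))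
      (one_le_pow₀ hb)
  have hMn : ‖W‖ ≤ (G * (M : ℝ) ^ (κ * D) * bb n Q ^ (13 * n)) *
      (R ^ la * R ^ (2 * ((6 * n + 1) * la))) := by
    rw [Matrix.norm_le_iff (by positivity)]
    intro r c
    have hcm2 := siegel_mem.1 c.2.2
    rw [Int.norm_eq_abs]
    have hl : (r.1.1 : ℕ) < 6 * n + 1 := r.1.1.2
    have hk : (r.1.2 : ℕ) < TT n la - la * (r.1.1 : ℕ) := r.1.2.2
    have hj : (c.1.2 : ℕ) < D := c.1.2.2
    refine (an.size _ _ _).trans ?_
    have h1 : an.ν (zc an.Z (r.1.2 : ℕ) (c.1.1 : ℕ) (c.1.2 : ℕ)) ≤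
        (M : ℝ) ^ (κ * D) * (R ^ la * R ^ (2 * ((6 * n + 1) * la))) := by
      refine (zc_le an.sub (A := (M : ℝ) ^ κ) (R := R) (one_le_pow₀ hMR) (by linarith) an.Z_le
        _ _ _ hj).trans ?_
      rw [← pow_mul, mul_assoc]
      refine mul_le_mul_of_nonneg_left ?_ (by positivity)
      refine mul_le_mul ?_ ?_ (by positivity) (by positivity)
      · calc (2 : ℝ) ^ D ≤ R ^ D := pow_le_pow_left₀ (by norm_num) hR D
          _ ≤ R ^ la := pow_le_pow_right₀ (by linarith) hlaD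
      · calc (2 * R) ^ (r.1.2 : ℕ) ≤ (R ^ 2) ^ (r.1.2 : ℕ) :=
              pow_le_pow_left₀ (by positivity) (by nlinarith) _
          _ ≤ (R ^ 2) ^ ((6 * n + 1) * la) :=
              pow_le_pow_right₀ (one_le_pow₀ (by linarith)) (by omega)
          _ = R ^ (2 * ((6 * n + 1) * la)) := by rw [← pow_mul]
    have h2 : O.ν (bc O br (3 * n) c.2.1.2 c.2.1.1 r.1.1) ≤ bb n Q ^ (13 * n) := by
      refine (bc_bound O hF br _ _ _ _ hcm2.1).trans ?_
      exact pow_le_pow_right₀ hb (by omega)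
    calc G * (an.ν (zc an.Z (r.1.2 : ℕ) (c.1.1 : ℕ) (c.1.2 : ℕ)) *
          O.ν (bc O br (3 * n) c.2.1.2 c.2.1.1 r.1.1))
        ≤ G * (((M : ℝ) ^ (κ * D) * (R ^ la * R ^ (2 * ((6 * n + 1) * la)))) *
          bb n Q ^ (13 * n)) := by
          refine mul_le_mul_of_nonneg_left ?_ (by linarith)
          exact mul_le_mul h1 h2 (O.ν_nonneg _) (by positivity)
      _ = _ := by ring
  have hxle : ‖x‖ ≤ ZS n D κ M R G (bb n Q) la := by
    refine hxn.trans ?_
    rw [hcα, hcβ]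
    have hUpos : 0 < (3 * n * la + 1) * D * S2.card := by
      rw [← hcβ]
      omega
    have hU1 : (1 : ℝ) ≤ (((3 * n * la + 1) * D * S2.card : ℕ) : ℝ) := by exact_mod_cast hUpos
    have hbase1 : (1 : ℝ) ≤ (((3 * n * la + 1) * D * S2.card : ℕ) : ℝ) * max 1 ‖W‖ :=
      one_le_mul_of_one_le_of_one_le hU1 (le_max_left _ _)
    have hexp : (((K * m : ℕ) : ℝ)) / ((((3 * n * la + 1) * D * S2.card : ℕ) : ℝ) -
        ((K * m : ℕ) : ℝ)) ≤ (4 : ℕ) := by
      rw [div_le_iff₀ (by linarith)]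
      push_cast at h54 ⊢
      linarith
    have hR1 : (1 : ℝ) ≤ R := by linarith
    have hbase2 : (((3 * n * la + 1) * D * S2.card : ℕ) : ℝ) * max 1 ‖W‖ ≤
        G * (M : ℝ) ^ (κ * D) * bb n Q ^ (13 * n) * R ^ (5 * n ^ 2 * la) := by
      have h1 : max 1 ‖W‖ ≤ (G * (M : ℝ) ^ (κ * D) * bb n Q ^ (13 * n)) *
          (R ^ la * R ^ (2 * ((6 * n + 1) * la))) :=
        max_le (one_le_mul_of_one_le_of_one_le hEN
          (one_le_mul_of_one_le_of_one_le (one_le_pow₀ hR1) (one_le_pow₀ hR1))) hMn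
      have hexp2 : n ^ 2 * la + (la + 2 * ((6 * n + 1) * la)) ≤ 5 * n ^ 2 * la := by
        have h4 : (n ^ 2 + 12 * n + 3) * la ≤ 5 * n ^ 2 * la :=
          Nat.mul_le_mul_right _ (by nlinarith)
        calc n ^ 2 * la + (la + 2 * ((6 * n + 1) * la)) = (n ^ 2 + 12 * n + 3) * la := by ring
          _ ≤ _ := h4
      have h2 : (((3 * n * la + 1) * D * S2.card : ℕ) : ℝ) ≤ R ^ (n ^ 2 * la) := by
        have h3 : (la : ℝ) ≤ (2 : ℝ) ^ la := by exact_mod_cast Nat.lt_two_pow_self.le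
        have h5 : (3 * (n : ℝ) * la + 1) * D * (n * (5 * n + 3)) / 2 ≤ 16 * n ^ 4 * (la * la) := by
          have h6 : (3 * (n : ℝ) * la + 1) * D ≤ (4 * n * la) * la := by
            refine mul_le_mul (by nlinarith) hDlaR (by positivity) (by positivity)
          have h7 : (n : ℝ) * (5 * n + 3) ≤ n * (8 * n) :=
            mul_le_mul_of_nonneg_left (by linarith) (by positivity)
          have h8 : (3 * (n : ℝ) * la + 1) * D * (n * (5 * n + 3)) ≤
              (4 * n * la) * la * (n * (8 * n)) :=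
            mul_le_mul h6 h7 (by positivity) (by positivity)
          have h9 : (n : ℝ) ^ 3 * (la * la) ≤ n ^ 4 * (la * la) := by
            refine mul_le_mul_of_nonneg_right ?_ (by positivity)
            exact pow_le_pow_right₀ (by linarith) (by norm_num)
          nlinarith
        have h6 : (n : ℝ) ^ 4 ≤ 2 ^ (2 * n) := by
          have h7 : n ^ 4 ≤ 2 ^ (2 * n) := by
            calc n ^ 4 = (n ^ 2) ^ 2 := by ring
              _ ≤ (2 ^ n) ^ 2 := Nat.pow_le_pow_left (sq_le_two_pow hn) 2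
              _ = 2 ^ (2 * n) := by rw [← pow_mul]; ring_nf
          exact_mod_cast h7
        have h10 : 4 + 2 * n + (la + la) ≤ n ^ 2 * la := by
          have h11 : 16 * la ≤ n ^ 2 * la := Nat.mul_le_mul_right _ (by nlinarith)
          omega
        rw [hU]
        calc (3 * (n : ℝ) * la + 1) * D * (n * (5 * n + 3)) / 2 ≤ 16 * n ^ 4 * (la * la) := h5
          _ ≤ 16 * (2 : ℝ) ^ (2 * n) * ((2 : ℝ) ^ la * (2 : ℝ) ^ la) := by
              refine mul_le_mul (mul_le_mul_of_nonneg_left h6 (by norm_num)) ?_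
                (by positivity) (by positivity)
              exact mul_le_mul h3 h3 hla0 (by positivity)
          _ = 2 ^ (4 + 2 * n + (la + la)) := by
              rw [pow_add, pow_add, pow_add]; norm_num
          _ ≤ 2 ^ (n ^ 2 * la) := pow_le_pow_right₀ (by norm_num) h10
          _ ≤ R ^ (n ^ 2 * la) := pow_le_pow_left₀ (by norm_num) hR _
      calc (((3 * n * la + 1) * D * S2.card : ℕ) : ℝ) * max 1 ‖W‖ ≤
            R ^ (n ^ 2 * la) * ((G * (M : ℝ) ^ (κ * D) * bb n Q ^ (13 * n)) *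
              (R ^ la * R ^ (2 * ((6 * n + 1) * la)))) :=
            mul_le_mul h2 h1 (by positivity) (by positivity)
        _ = (G * (M : ℝ) ^ (κ * D) * bb n Q ^ (13 * n)) *
              R ^ (n ^ 2 * la + (la + 2 * ((6 * n + 1) * la))) := by
            rw [pow_add R (n ^ 2 * la), pow_add R la]; ring
        _ ≤ (G * (M : ℝ) ^ (κ * D) * bb n Q ^ (13 * n)) * R ^ (5 * n ^ 2 * la) := by
            refine mul_le_mul_of_nonneg_left ?_ (by positivity)
            exact pow_le_pow_right₀ hR1 hexp2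
    unfold ZS
    calc ((((3 * n * la + 1) * D * S2.card : ℕ) : ℝ) * max 1 ‖W‖) ^ ((((K * m : ℕ) : ℝ)) /
          ((((3 * n * la + 1) * D * S2.card : ℕ) : ℝ) - ((K * m : ℕ) : ℝ)))
        ≤ ((((3 * n * la + 1) * D * S2.card : ℕ) : ℝ) * max 1 ‖W‖) ^ (((4 : ℕ) : ℝ)) :=
          Real.rpow_le_rpow_of_exponent_le hbase1 hexp
      _ = ((((3 * n * la + 1) * D * S2.card : ℕ) : ℝ) * max 1 ‖W‖) ^ 4 := Real.rpow_natCast _ _
      _ ≤ _ := pow_le_pow_left₀ (by positivity) hbase2 4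
  -- the array
  let A : ℕ → ℕ → ℕ → ℕ → ℤ := fun s j p q =>
    if h : (s < 3 * n * la + 1 ∧ j < D) ∧ (⟨q, p⟩ : Σ _ : ℕ, ℕ) ∈ S2 then
      x ((⟨s, h.1.1⟩, ⟨j, h.1.2⟩), ⟨⟨q, p⟩, h.2⟩) else 0
  have hA : ∀ (s : Fin (3 * n * la + 1)) (j : Fin D) (b : Σ _ : ℕ, ℕ) (h2 : b ∈ S2),
      A s j b.2 b.1 = x ((s, j), ⟨b, h2⟩) := by
    intro s j b h2
    exact dif_pos (⟨⟨s.2, j.2⟩, h2⟩ : ((s : ℕ) < 3 * n * la + 1 ∧ (j : ℕ) < D) ∧
      (⟨b.1, b.2⟩ : Σ _ : ℕ, ℕ) ∈ S2)
  have hA0 : ∀ s j p q, A s j p q ≠ 0 →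
      (s < 3 * n * la + 1 ∧ j < D) ∧ (⟨q, p⟩ : Σ _ : ℕ, ℕ) ∈ S2 := by
    intro s j p q h
    by_contra hc
    exact h (dif_neg hc)
  refine ⟨A, ?_, ?_, ?_, ?_⟩
  · have : ∃ c, x c ≠ 0 := by
      by_contra hc
      push Not at hc
      exact hx0 (funext hc)
    obtain ⟨⟨⟨s, j⟩, ⟨b, hb⟩⟩, hc⟩ := this
    exact ⟨s, j, b.2, b.1, by rw [hA s j b hb]; exact hc⟩
  · intro s j p q h
    have h1 := (hA0 s j p q h).1
    have h2 := siegel_mem.1 (hA0 s j p q h).2
    simp only at h1 h2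
    omega
  · intro s j p q
    by_cases h : (s < 3 * n * la + 1 ∧ j < D) ∧ (⟨q, p⟩ : Σ _ : ℕ, ℕ) ∈ S2
    · have h1 : A s j p q = x ((⟨s, h.1.1⟩, ⟨j, h.1.2⟩), ⟨⟨q, p⟩, h.2⟩) := dif_pos h
      rw [h1, ← Int.norm_eq_abs]
      exact (norm_le_pi_norm x _).trans hxle
    · have h1 : A s j p q = 0 := dif_neg h
      rw [h1]
      simp only [Int.cast_zero, abs_zero]
      unfold ZS
      positivity
  · intro k l hkl
    have hl : l < 6 * n + 1 := by
      by_contra hc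
      push Not at hc
      have h1 : la * (6 * n + 1) ≤ la * l := Nat.mul_le_mul_left _ hc
      nlinarith
    have hk : k < TT n la - la * l := by omega
    apply an.coord_inj
    rw [map_zero]
    funext c
    have h1 : (W.mulVec x) (⟨⟨l, hl⟩, ⟨k, hk⟩⟩, c) = 0 := by rw [hMx]; rfl
    rw [Matrix.mulVec, dotProduct, Fintype.sum_prod_type, Fintype.sum_prod_type] at h1
    have hz2 : ∀ s j p q, n ≤ q → A s j p q = 0 := by
      intro s j p q hj
      by_contra hc
      have := siegel_mem.1 (hA0 s j p q hc).2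
      simp only at this
      omega
    have h2 : sa n D (3 * n * la) A
          (fun s j => an.JE (zc an.Z k s j))
          (fun p q => an.JO (bc O br (3 * n) p q l)) =
        ∑ s : Fin (3 * n * la + 1), ∑ j : Fin D, ∑ b ∈ S2, A s j b.2 b.1 •
          (an.JE (zc an.Z k s j) * an.JO (bc O br (3 * n) b.2 b.1 l)) := by
      unfold sa
      rw [Finset.sum_range]
      refine sum_congr rfl fun s _ => ?_
      rw [Finset.sum_range]
      refine sum_congr rfl fun j _ => ?_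
      rw [sum_siegelSet (n := n) (by omega) (fun p q => (A s j p q : an.L) *
        (an.JE (zc an.Z k s j) * an.JO (bc O br (3 * n) p q l)))]
      · refine sum_congr rfl fun b _ => ?_
        rw [zsmul_eq_mul]
      · intro p q hq
        rw [hz2 _ _ _ _ hq, Int.cast_zero, zero_mul]
    rw [h2, map_sum, Finset.sum_apply, Pi.zero_apply, ← h1]
    refine sum_congr rfl fun s _ => ?_
    rw [map_sum, Finset.sum_apply]
    refine sum_congr rfl fun j _ => ?_
    rw [map_sum, Finset.sum_apply, ← Finset.sum_coe_sort S2]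
    refine sum_congr rfl fun b _ => ?_
    rw [map_zsmul, hA s j b.1 b.2]
    simp only [Pi.smul_apply, smul_eq_mul, W, Matrix.of_apply]
    rw [mul_comm]

end Pool.Agent.H87.SA
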