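import Pool.Agent.H87.SA.DnA
import Pool.Agent.H72.ES.Wronsk

/-! # [SA-ZEB] Nonvanishing and denominators of the Wronskian of series with bounded denominators

`wronsk_ne`: by `Dn` there are `v l ∈ ℤ⟦X⟧` with `(coeff k (v l) : ℝ) = c Δ^k coeff k (w l)`
(`choose`). Put `a i l = (derivative ℤ)^[i] (v l)`, then
`(coeff k (a i l) : ℝ) = c Δ^(k+i) coeff k (D^[i] (w l))` (induction on `i`). The `v l` are linearly
independent over `ℤ` (`∑ C (e l) v l = 0` gives `c Δ^k ∑ e l coeff k (w l) = 0` for all `k`, so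
`∑ e l w l = 0`, `e = 0` by `hind`). `Pool.Agent.H72.ES.wronsk` with `m = 1`, `g = 1` gives
`det (a i l) ≠ 0` in `ℤ⟦X⟧`. The map `ρ = ` (map to `ℝ⟦X⟧` followed by rescaling by `1/Δ`,
`PowerSeries.rescale`) is an injective ring homomorphism with
`ρ (a i l) = C (c Δ^i) * D^[i] (w l)`; so `ρ (det a) = (∏ over rows C (c Δ^i)) det (D^[i] (w l))`
(`Matrix.det_mul_column`/`Matrix.det_mul_row`), in particular `det (D^[i] (w l)) ≠ 0`.
(Alternatively assume `det = 0`, then `ρ (det a) = det (ρ a) = 0`.)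
`wronsk_dn`: `Dn (c Δ^i) Δ (D^[i] (w l))` by `Dn.deriv` and induction; `Matrix.det_apply`: each product
over `i : Fin r` is `Dn (∏ (c Δ^i)) Δ` (`Dn.mul`, induction over the product), and
`∏_{i<r} c Δ^i ∣ c^r0 Δ^(r0^2)` (`r ≤ r0`); sum over the permutations by `Dn.sum`, sign by
`Dn.int_mul`. -/

namespace Pool.Agent.H87.SA

open Finset Pool.Agent.H72.ES

theorem wronsk_ne {c Δ : ℤ} (hc : 1 ≤ c) (hΔ : 1 ≤ Δ) {r : ℕ} (w : Fin r → PowerSeries ℝ)
    (hw : ∀ l, Dn c Δ (w l))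
    (hind : ∀ e : Fin r → ℤ, ∑ l, e l • w l = 0 → e = 0) :
    (Matrix.of fun (i l : Fin r) => (⇑(PowerSeries.derivative ℝ))^[(i : ℕ)] (w l)).det ≠ 0 := by
  choose z hz using hw
  have hc0 : (c : ℝ) ≠ 0 := by
    have : c ≠ 0 := by omega
    exact_mod_cast this
  have hΔ0 : (Δ : ℝ) ≠ 0 := by
    have : Δ ≠ 0 := by omega
    exact_mod_cast this
  set a : ℕ → Fin r → PowerSeries ℤ := fun i l =>
    (⇑(PowerSeries.derivative ℤ))^[i] (PowerSeries.mk (z l)) with ha
  have hcoef : ∀ (i : ℕ) (l : Fin r) (k : ℕ), ((PowerSeries.coeff k (a i l) : ℤ) : ℝ) =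
      c * (Δ : ℝ) ^ (k + i) * PowerSeries.coeff k ((⇑(PowerSeries.derivative ℝ))^[i] (w l)) := by
    intro i
    induction i with
    | zero =>
      intro l k
      simp only [ha, Function.iterate_zero, id, PowerSeries.coeff_mk, add_zero]
      exact hz l k
    | succ i ih =>
      intro l k
      have h1 : a (i + 1) l = PowerSeries.derivative ℤ (a i l) := by
        simp only [ha]
        rw [Function.iterate_succ_apply']
      rw [h1, Function.iterate_succ_apply', PowerSeries.coeff_derivative,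
        PowerSeries.coeff_derivative]
      push_cast
      rw [ih l (k + 1), show k + 1 + i = k + (i + 1) by ring]
      ring
  set ρ : PowerSeries ℤ →+* PowerSeries ℝ :=
    (PowerSeries.rescale (1 / (Δ : ℝ))).comp (PowerSeries.map (Int.castRingHom ℝ)) with hρ
  have hρc : ∀ (f : PowerSeries ℤ) (k : ℕ), PowerSeries.coeff k (ρ f) =
      (1 / (Δ : ℝ)) ^ k * ((PowerSeries.coeff k f : ℤ) : ℝ) := by
    intro f k
    rw [hρ, RingHom.comp_apply, PowerSeries.coeff_rescale, PowerSeries.coeff_map]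
    rfl
  have hρa : ∀ (i : ℕ) (l : Fin r), ρ (a i l) = PowerSeries.C (c * (Δ : ℝ) ^ i) *
      (⇑(PowerSeries.derivative ℝ))^[i] (w l) := by
    intro i l
    ext k
    have h1 : (1 / (Δ : ℝ)) ^ k * (Δ : ℝ) ^ k = 1 := by
      rw [← mul_pow, one_div, inv_mul_cancel₀ hΔ0, one_pow]
    rw [hρc, hcoef, PowerSeries.coeff_C_mul, pow_add]
    linear_combination (c * (Δ : ℝ) ^ i *
      PowerSeries.coeff k ((⇑(PowerSeries.derivative ℝ))^[i] (w l))) * h1
  have hρi : ∀ f : PowerSeries ℤ, ρ f = 0 → f = 0 := by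
    intro f hf
    ext k
    have h1 := hρc f k
    rw [hf, map_zero] at h1
    have h2 : ((1 / (Δ : ℝ)) ^ k) ≠ 0 := by positivity
    rcases mul_eq_zero.1 h1.symm with h3 | h3
    · exact absurd h3 h2
    · rw [map_zero]
      exact_mod_cast h3
  intro hdet
  have hmain := Pool.Agent.H72.ES.wronsk 1 one_ne_zero 1 (by simp) a
    (fun i l => by
      simp only [ha, map_one, one_mul]
      rw [Function.iterate_succ_apply'])
    (fun e he => by
      refine hind e ?_
      ext k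
      have h1 := congrArg (fun f => ((PowerSeries.coeff k f : ℤ) : ℝ)) he
      simp only [map_sum, PowerSeries.coeff_C_mul, Int.cast_sum, Int.cast_mul, map_zero,
        Int.cast_zero] at h1
      have h2 : ∀ l : Fin r, (e l : ℝ) * ((PowerSeries.coeff k (a 0 l) : ℤ) : ℝ) =
          c * (Δ : ℝ) ^ k * ((e l : ℝ) * PowerSeries.coeff k (w l)) := by
        intro l
        rw [hcoef 0 l k]
        simp only [Function.iterate_zero, id, add_zero]
        ring
      rw [Finset.sum_congr rfl (fun l _ => h2 l), ← Finset.mul_sum] at h1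
      have h3 : (c : ℝ) * (Δ : ℝ) ^ k ≠ 0 := mul_ne_zero hc0 (pow_ne_zero k hΔ0)
      have h4 := (mul_eq_zero.1 h1).resolve_left h3
      rw [map_sum, map_zero, ← h4]
      refine Finset.sum_congr rfl fun l _ => ?_
      rw [map_zsmul, zsmul_eq_mul])
  refine hmain (hρi _ ?_)
  rw [RingHom.map_det]
  have h5 : ρ.mapMatrix (Matrix.of fun (i l : Fin r) => a i l) =
      Matrix.of fun (i l : Fin r) => PowerSeries.C (c * (Δ : ℝ) ^ (i : ℕ)) *
        (Matrix.of fun (i l : Fin r) => (⇑(PowerSeries.derivative ℝ))^[(i : ℕ)] (w l)) i l := by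
    exact Matrix.ext fun i l => hρa i l
  rw [h5, Matrix.det_mul_column, hdet, mul_zero]

theorem dn_prod (Δ : ℤ) {ι : Type*} (s : Finset ι) (b : ι → ℤ) (f : ι → PowerSeries ℝ)
    (h : ∀ i ∈ s, Dn (b i) Δ (f i)) : Dn (∏ i ∈ s, b i) Δ (∏ i ∈ s, f i) := by
  classical
  induction s using Finset.induction_on with
  | empty => simpa using Dn.one 1 Δ
  | insert a s ha ih =>
    rw [Finset.prod_insert ha, Finset.prod_insert ha]
    exact (h a (Finset.mem_insert_self a s)).mul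
      (ih fun i hi => h i (Finset.mem_insert_of_mem hi))

theorem dn_iter {c Δ : ℤ} {w : PowerSeries ℝ} (h : Dn c Δ w) (i : ℕ) :
    Dn (c * Δ ^ i) Δ ((⇑(PowerSeries.derivative ℝ))^[i] w) := by
  induction i with
  | zero => simpa using h
  | succ i ih =>
    rw [Function.iterate_succ_apply', pow_succ, ← mul_assoc]
    exact ih.deriv

theorem wronsk_dn {c Δ : ℤ} {r r0 : ℕ} (hr : r ≤ r0) (w : Fin r → PowerSeries ℝ)
    (hw : ∀ l, Dn c Δ (w l)) :
    Dn (c ^ r0 * Δ ^ (r0 ^ 2)) Δ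
      (Matrix.of fun (i l : Fin r) => (⇑(PowerSeries.derivative ℝ))^[(i : ℕ)] (w l)).det := by
  rw [Matrix.det_apply]
  refine Dn.sum _ _ fun σ _ => ?_
  have h1 : Dn (∏ i : Fin r, (c * Δ ^ ((σ i : Fin r) : ℕ))) Δ
      (∏ i, (Matrix.of fun (i l : Fin r) => (⇑(PowerSeries.derivative ℝ))^[(i : ℕ)] (w l)) (σ i) i) :=
    dn_prod Δ univ _ _ fun i _ => dn_iter (hw i) (σ i)
  have h2 : (∏ i : Fin r, (c * Δ ^ ((σ i : Fin r) : ℕ))) ∣ c ^ r0 * Δ ^ (r0 ^ 2) := by
    have h3 : (∏ i : Fin r, (c * Δ ^ ((σ i : Fin r) : ℕ))) ∣ ∏ _i : Fin r, (c * Δ ^ r) :=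
      Finset.prod_dvd_prod_of_dvd _ _ fun i _ =>
        mul_dvd_mul_left c (pow_dvd_pow Δ (σ i).isLt.le)
    refine h3.trans ?_
    rw [Finset.prod_const, card_univ, Fintype.card_fin, mul_pow, ← pow_mul]
    refine mul_dvd_mul (pow_dvd_pow c hr) (pow_dvd_pow Δ ?_)
    rw [sq]
    exact Nat.mul_le_mul hr hr
  have h4 := h1.mono h2
  rcases Int.units_eq_one_or (Equiv.Perm.sign σ) with h | h
  · rw [h, one_smul]
    exact h4
  · rw [h, Units.neg_smul, one_smul]
    have h5 := h4.int_mul (-1)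
    simpa using h5

end Pool.Agent.H87.SA
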