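import Pool.Agent.H87.SA.Defs

/-! # [SA-ZEC] Divisibility of the Wronskian by a power of `X`

`X^(K-i) ∣ D^[i] g` (induction: `X^(t+1) ∣ u` implies `X^t ∣ D u`: `D (X^(t+1) q) = (t+1) X^t q +
X^(t+1) D q`; or on coefficients). `D^[i]` is additive and `ℤ`-linear:
`c0 • D^[i] g = ∑ cc l • D^[i] (w l)`. As in `Pool.Agent.H8.KF.multG` (the part `h3`, `h6`):
`Matrix.det_updateCol_sum`: `cc l0 • det = det (updateCol l0 (c0 • D^[i] g))`, and each entry of this
column is divisible by `X^(K-r)` (`i < r`), so `X^(K-r) ∣ cc l0 • det`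
(`Matrix.det_updateCol_smul`); `cc l0 ≠ 0` is a unit in `ℝ⟦X⟧` (or compare coefficients,
`PowerSeries.X_pow_dvd_iff`). -/

namespace Pool.Agent.H87.SA

open Finset Pool.Agent.H72.ES

theorem wr_dvd_one (t : ℕ) (u : PowerSeries ℝ) (h : (PowerSeries.X : PowerSeries ℝ) ^ (t + 1) ∣ u) :
    (PowerSeries.X : PowerSeries ℝ) ^ t ∣ PowerSeries.derivative ℝ u := by
  obtain ⟨q, rfl⟩ := h
  rw [Derivation.leibniz, Derivation.leibniz_pow, Nat.add_sub_cancel]
  refine dvd_add ?_ ?_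
  · rw [smul_eq_mul, pow_succ, mul_assoc]
    exact Dvd.intro _ rfl
  · refine Dvd.dvd.mul_left ?_ q
    rw [nsmul_eq_mul, smul_eq_mul]
    exact Dvd.dvd.mul_left (Dvd.intro _ rfl) _

theorem wr_dvd_iter (K : ℕ) (u : PowerSeries ℝ) (h : (PowerSeries.X : PowerSeries ℝ) ^ K ∣ u) (i : ℕ) :
    (PowerSeries.X : PowerSeries ℝ) ^ (K - i) ∣ (⇑(PowerSeries.derivative ℝ))^[i] u := by
  induction i with
  | zero => exact h
  | succ i ih =>
    rw [Function.iterate_succ_apply']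
    rcases Nat.eq_zero_or_pos (K - i) with h0 | h0
    · have h1 : K - (i + 1) = 0 := by omega
      rw [h1, pow_zero]
      exact one_dvd _
    · have h1 : K - i = (K - (i + 1)) + 1 := by omega
      rw [h1] at ih
      exact wr_dvd_one _ _ ih

theorem wronsk_dvd {r K : ℕ} (w : Fin r → PowerSeries ℝ) (g : PowerSeries ℝ) (c0 : ℤ)
    (cc : Fin r → ℤ) (l0 : Fin r) (hl0 : cc l0 ≠ 0) (hrel : c0 • g = ∑ l, cc l • w l)
    (hK : PowerSeries.X ^ K ∣ g) :
    (PowerSeries.X : PowerSeries ℝ) ^ (K - r) ∣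
      (Matrix.of fun (i l : Fin r) => (⇑(PowerSeries.derivative ℝ))^[(i : ℕ)] (w l)).det := by
  classical
  set A : Matrix (Fin r) (Fin r) (PowerSeries ℝ) :=
    Matrix.of fun (i l : Fin r) => (⇑(PowerSeries.derivative ℝ))^[(i : ℕ)] (w l) with hA
  have hD : ∀ i : ℕ, c0 • (⇑(PowerSeries.derivative ℝ))^[i] g =
      ∑ l, cc l • (⇑(PowerSeries.derivative ℝ))^[i] (w l) := by
    intro i
    induction i with
    | zero => exact hrel
    | succ i ih =>
      rw [Function.iterate_succ_apply', ← map_zsmul, ih, map_sum]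
      refine sum_congr rfl fun l _ => ?_
      rw [map_zsmul, Function.iterate_succ_apply']
  have hdet := Matrix.det_updateCol_sum A l0 (fun l => ((cc l : ℤ) : PowerSeries ℝ))
  have hq : ∀ k : Fin r, ∃ q : PowerSeries ℝ, c0 • (⇑(PowerSeries.derivative ℝ))^[(k : ℕ)] g =
      (PowerSeries.X : PowerSeries ℝ) ^ (K - r) * q := by
    intro k
    have h1 := wr_dvd_iter K g hK k
    have h2 : (PowerSeries.X : PowerSeries ℝ) ^ (K - r) ∣
        (⇑(PowerSeries.derivative ℝ))^[(k : ℕ)] g :=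
      (pow_dvd_pow _ (by omega)).trans h1
    obtain ⟨q, hq⟩ := h2
    refine ⟨c0 • q, ?_⟩
    rw [hq, mul_smul_comm]
  choose q hq using hq
  have hcol : (fun k => ∑ l, ((cc l : ℤ) : PowerSeries ℝ) • A k l) =
      (PowerSeries.X : PowerSeries ℝ) ^ (K - r) • q := by
    funext k
    rw [Pi.smul_apply, smul_eq_mul, ← hq k, hD k]
    refine sum_congr rfl fun l _ => ?_
    rw [hA, Matrix.of_apply, smul_eq_mul, zsmul_eq_mul]
  rw [hcol, Matrix.det_updateCol_smul, smul_eq_mul] at hdet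
  have hu : IsUnit ((cc l0 : ℤ) : PowerSeries ℝ) := by
    have h3 : ((cc l0 : ℤ) : PowerSeries ℝ) = algebraMap ℝ (PowerSeries ℝ) (cc l0 : ℝ) := by
      rw [map_intCast]
    rw [h3]
    have h4 : IsUnit (cc l0 : ℝ) := isUnit_iff_ne_zero.2 (by exact_mod_cast hl0)
    exact h4.map _
  rw [← hu.dvd_mul_left, ← hdet]
  exact Dvd.intro _ rfl

end Pool.Agent.H87.SA
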