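import Pool.Agent.H87.SA.ZeA
import Pool.Agent.H87.SA.ZeB
import Pool.Agent.H87.SA.ZeC
import Pool.Agent.H87.SA.ZeD
import Pool.Agent.H8.KF.MultG

/-! # [SA-ZERO] The zero estimate -/

namespace Pool.Agent.H87.SA

open Finset Pool.Agent.H72.ES Pool.Agent.H8.KF

theorem tay_zero (h : ℝ) : tay h 0 = 0 := by
  have h1 := tay_C h 0
  rwa [map_zero] at h1

theorem Cv.zero (h : ℝ) : Cv h 0 := by
  have h1 := Cv.C h 0
  rwa [map_zero] at h1

theorem Cv.sum {h : ℝ} (hh : 0 ≤ h) {ι : Type*} (s : Finset ι) (a : ι → PowerSeries ℝ)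
    (ha : ∀ i ∈ s, Cv h (a i)) : Cv h (∑ i ∈ s, a i) := by
  classical
  induction s using Finset.induction_on with
  | empty => simpa using Cv.zero h
  | insert i s hi ih =>
    rw [sum_insert hi]
    exact Cv.add hh (ha i (mem_insert_self _ _)) (ih fun j hj => ha j (mem_insert_of_mem hj))

theorem tay_sumZ {h : ℝ} (hh : 0 ≤ h) {ι : Type*} (s : Finset ι) (a : ι → PowerSeries ℝ)
    (ha : ∀ i ∈ s, Cv h (a i)) : tay h (∑ i ∈ s, a i) = ∑ i ∈ s, tay h (a i) := by
  classical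
  induction s using Finset.induction_on with
  | empty => simpa using tay_zero h
  | insert i s hi ih =>
    rw [sum_insert hi, sum_insert hi, tay_add hh (ha i (mem_insert_self _ _))
      (Cv.sum hh s a fun j hj => ha j (mem_insert_of_mem hj)),
      ih fun j hj => ha j (mem_insert_of_mem hj)]

theorem Cv.zsmul {h : ℝ} (hh : 0 ≤ h) {a : PowerSeries ℝ} (ha : Cv h a) (m : ℤ) :
    Cv h (m • a) := by
  rw [zsmul_eq_mul]
  refine Cv.mul hh ?_ ha
  have h1 := Cv.C h (m : ℝ)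
  simpa using h1

theorem tay_zsmul {h : ℝ} (hh : 0 ≤ h) {a : PowerSeries ℝ} (ha : Cv h a) (m : ℤ) :
    tay h (m • a) = m • tay h a := by
  have h1 := Cv.C h (m : ℝ)
  have h2 := tay_C h (m : ℝ)
  rw [map_intCast] at h1 h2
  rw [zsmul_eq_mul, zsmul_eq_mul, tay_mul hh h1 ha, h2]

theorem derivative_map {S S' : Type*} [CommRing S] [CommRing S'] (ψ : S →+* S')
    (a : PowerSeries S) :
    PowerSeries.map ψ (PowerSeries.derivative S a) =
      PowerSeries.derivative S' (PowerSeries.map ψ a) := by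
  ext k
  simp [PowerSeries.coeff_map, PowerSeries.coeff_derivative]

theorem derivative_iter_map {S S' : Type*} [CommRing S] [CommRing S'] (ψ : S →+* S')
    (a : PowerSeries S) (i : ℕ) :
    PowerSeries.map ψ ((⇑(PowerSeries.derivative S))^[i] a) =
      (⇑(PowerSeries.derivative S'))^[i] (PowerSeries.map ψ a) := by
  induction i with
  | zero => rfl
  | succ i ih => rw [Function.iterate_succ_apply', Function.iterate_succ_apply', derivative_map, ih]

theorem Cv.deriv_iter {h : ℝ} (hh : 0 ≤ h) {a : PowerSeries ℝ} (ha : Cv h a) (i : ℕ) :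
    Cv h ((⇑(PowerSeries.derivative ℝ))^[i] a) := by
  induction i with
  | zero => exact ha
  | succ i ih => rw [Function.iterate_succ_apply']; exact Cv.deriv hh ih

theorem tay_deriv_iter {h : ℝ} (hh : 0 ≤ h) {a : PowerSeries ℝ} (ha : Cv h a) (i : ℕ) :
    tay h ((⇑(PowerSeries.derivative ℝ))^[i] a) =
      (⇑(PowerSeries.derivative ℝ))^[i] (tay h a) := by
  induction i with
  | zero => rfl
  | succ i ih =>
    rw [Function.iterate_succ_apply', Function.iterate_succ_apply',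
      tay_deriv hh (Cv.deriv_iter hh ha i), ih]

/-- Taylor expansion of a determinant -/
theorem tay_det {h : ℝ} (hh : 0 ≤ h) {r : ℕ} (a : Fin r → Fin r → PowerSeries ℝ)
    (ha : ∀ i l, Cv h (a i l)) :
    tay h (Matrix.of a).det = (Matrix.of fun i l => tay h (a i l)).det := by
  let b : Matrix (Fin r) (Fin r) (cvs h hh) := Matrix.of fun i l => ⟨a i l, ha i l⟩
  have h1 : (Matrix.of a).det = ((b.det : cvs h hh) : PowerSeries ℝ) := by
    have := RingHom.map_det (cvs h hh).subtype b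
    rw [show ((b.det : cvs h hh) : PowerSeries ℝ) = (cvs h hh).subtype b.det from rfl, this]
    rfl
  have h2 := RingHom.map_det (tayH h hh) b
  rw [h1]
  exact h2

/-- **The zero estimate.** -/
theorem zeroEstS {E : Type} [CommRing E] (ψ : E →+* ℝ) {ν : E → ℝ} (hν : SubMul ν)
    (hψ : ∀ a, |ψ a| ≤ ν a) {D : ℕ} (liou : ∀ a, a ≠ 0 → 1 ≤ |ψ a| * ν a ^ D) {M : ℕ} {A R : ℝ}
    (hA : 1 ≤ A) (hR : 1 ≤ R) (hM : 32 * R ≤ M) {ι : Type} [Fintype ι] (r0 : ℕ)
    (hr0 : Fintype.card ι = r0) (g : ι → PowerSeries E)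
    (hg : ∀ m k, ν (PowerSeries.coeff k (g m)) ≤ A * R ^ k) {c Δ : ℤ} (hc : 1 ≤ c) (hΔ : 1 ≤ Δ)
    (hdn : ∀ m, Dn c Δ (tay (1 / (M : ℝ)) ((g m).map ψ))) (μ : ι → ℤ)
    (hne : ∑ m, μ m • g m ≠ 0) (K : ℕ)
    (hK : PowerSeries.X ^ K ∣ tay (1 / (M : ℝ)) ((∑ m, μ m • g m).map ψ)) :
    ∃ k0 K' : ℕ, K ≤ K' + r0 ∧
      (M : ℝ) ^ K' ≤ (8 * R) ^ K' * ((r0.factorial * (2 * (r0.factorial * (2 * R) ^ r0 * A)) ^ r0) *
        (4 * R) ^ k0) ^ (D + 1) ∧
      (M : ℝ) ^ k0 ≤ 2 * ((c : ℝ) ^ r0 * (Δ : ℝ) ^ (r0 ^ 2 + K')) * ((8 * R) ^ K' *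
        ((r0.factorial * (2 * (r0.factorial * (2 * R) ^ r0 * A)) ^ r0) * (4 * R) ^ k0)) := by
  have hM0 : (0 : ℝ) < M := by linarith
  set h : ℝ := 1 / (M : ℝ) with hh
  have hh0 : 0 < h := by positivity
  have hRh : 32 * R * h ≤ 1 := by
    rw [hh, mul_one_div]
    exact (div_le_one hM0).2 hM
  have hinj : Function.Injective ψ := by
    rw [injective_iff_map_eq_zero]
    intro a ha
    by_contra hcon
    have := liou a hcon
    rw [ha, abs_zero, zero_mul] at this
    linarith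
  have hEcz : ∀ (k : ℤ) (v : PowerSeries E), k • v = 0 → k = 0 ∨ v = 0 := by
    intro k v hkv
    by_cases hk : k = 0
    · exact Or.inl hk
    right
    ext m
    have h1 := congrArg (PowerSeries.coeff m) hkv
    rw [map_zsmul, map_zero] at h1
    have h2 := congrArg ψ h1
    rw [map_zsmul, map_zero, smul_eq_zero] at h2
    rw [map_zero]
    apply hinj
    rw [map_zero]
    exact h2.resolve_left hk
  obtain ⟨r, s, c0, cc, l0, hr, hcl0, hrel, hindep⟩ :=
    MultGAux.exists_min_rel g (∑ m, μ m • g m) hne hEcz μ rfl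
  rw [hr0] at hr
  set H := ∑ m, μ m • g m with hH
  -- the series over the reals
  have hcvE : ∀ m, Cv h ((g m).map ψ) := fun m => by
    refine Geo.cv (A := A) (R := R) ?_ (by linarith) (by nlinarith)
    intro k
    rw [PowerSeries.coeff_map]
    exact (hψ _).trans (hg m k)
  set w : Fin r → PowerSeries ℝ := fun l => tay h ((g (s l)).map ψ) with hw
  have hmapz : ∀ (m : ℤ) (a : PowerSeries E), (m • a).map ψ = m • (a.map ψ) := by
    intro m a
    ext k
    simp [PowerSeries.coeff_map]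
  have hmaps : ∀ (e : Fin r → ℤ), (∑ l, e l • g (s l)).map ψ = ∑ l, e l • (g (s l)).map ψ := by
    intro e
    rw [map_sum]
    exact sum_congr rfl fun l _ => hmapz _ _
  have hgeoS : ∀ (e : Fin r → ℤ), Geo ((∑ l, |(e l : ℝ)|) * A) R ((∑ l, e l • g (s l)).map ψ) := by
    intro e k
    rw [PowerSeries.coeff_map, map_sum, map_sum]
    refine (abs_sum_le_sum_abs _ _).trans ?_
    rw [sum_mul, sum_mul]
    refine sum_le_sum fun l _ => ?_
    rw [map_zsmul, map_zsmul, zsmul_eq_mul, abs_mul, mul_assoc]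
    exact mul_le_mul_of_nonneg_left ((hψ _).trans (hg _ _)) (abs_nonneg _)
  have hindw : ∀ e : Fin r → ℤ, ∑ l, e l • w l = 0 → e = 0 := by
    intro e he
    apply hindep
    have h1 : tay h ((∑ l, e l • g (s l)).map ψ) = 0 := by
      rw [hmaps, tay_sumZ hh0.le _ _ (fun l _ => Cv.zsmul hh0.le (hcvE _) _), ← he]
      exact sum_congr rfl fun l _ => tay_zsmul hh0.le (hcvE _) _
    have h2 := tay_inj hh0 (by linarith) (by nlinarith) (hgeoS e) h1
    ext k
    have h3 := congrArg (PowerSeries.coeff k) h2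
    rw [PowerSeries.coeff_map, map_zero] at h3
    rw [map_zero]
    apply hinj
    rw [map_zero]
    exact h3
  -- the Wronskian
  set W : PowerSeries E :=
    (Matrix.of fun (i l : Fin r) => (⇑(PowerSeries.derivative E))^[(i : ℕ)] (g (s l))).det with hW
  have hWmap : W.map ψ =
      (Matrix.of fun (i l : Fin r) =>
        (⇑(PowerSeries.derivative ℝ))^[(i : ℕ)] ((g (s l)).map ψ)).det := by
    have h1 := RingHom.map_det (PowerSeries.map ψ)
      (Matrix.of fun (i l : Fin r) => (⇑(PowerSeries.derivative E))^[(i : ℕ)] (g (s l)))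
    rw [hW, h1]
    congr 1
    ext i l : 2
    rw [RingHom.mapMatrix_apply, Matrix.map_apply, Matrix.of_apply, Matrix.of_apply,
      derivative_iter_map]
  have hWt : tay h (W.map ψ) =
      (Matrix.of fun (i l : Fin r) => (⇑(PowerSeries.derivative ℝ))^[(i : ℕ)] (w l)).det := by
    rw [hWmap]
    have h1 := tay_det hh0.le (fun (i l : Fin r) =>
        (⇑(PowerSeries.derivative ℝ))^[(i : ℕ)] ((g (s l)).map ψ))
        (fun i l => Cv.deriv_iter hh0.le (hcvE _) _)
    rw [h1]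
    congr 1
    ext i l : 2
    rw [Matrix.of_apply, Matrix.of_apply, tay_deriv_iter hh0.le (hcvE _)]
  have hWne : tay h (W.map ψ) ≠ 0 := by
    rw [hWt]
    exact wronsk_ne hc hΔ w (fun l => hdn _) hindw
  have hWdn : Dn (c ^ r0 * Δ ^ (r0 ^ 2)) Δ (tay h (W.map ψ)) := by
    rw [hWt]
    exact wronsk_dn hr w (fun l => hdn _)
  have hWdvd : (PowerSeries.X : PowerSeries ℝ) ^ (K - r) ∣ tay h (W.map ψ) := by
    rw [hWt]
    refine wronsk_dvd w (tay h (H.map ψ)) c0 cc l0 hcl0 ?_ hK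
    have h1 : (c0 • H).map ψ = (∑ l, cc l • g (s l)).map ψ := by rw [hrel]
    have hcvH : Cv h (H.map ψ) := by
      have h2 : H.map ψ = ∑ m, μ m • (g m).map ψ := by
        rw [hH, map_sum]
        exact sum_congr rfl fun l _ => hmapz _ _
      rw [h2]
      exact Cv.sum hh0.le _ _ fun m _ => Cv.zsmul hh0.le (hcvE _) _
    rw [hmapz, hmaps] at h1
    rw [← tay_zsmul hh0.le hcvH, h1,
      tay_sumZ hh0.le _ _ (fun l _ => Cv.zsmul hh0.le (hcvE _) _)]
    exact sum_congr rfl fun l _ => tay_zsmul hh0.le (hcvE _) _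
  -- the size of the Wronskian
  have hfac : (1 : ℝ) ≤ r0.factorial := by exact_mod_cast Nat.factorial_pos r0
  have hp2 : (1 : ℝ) ≤ (2 * R) ^ r0 := one_le_pow₀ (by linarith)
  have hA1 : (1 : ℝ) ≤ r0.factorial * (2 * R) ^ r0 * A :=
    one_le_mul_of_one_le_of_one_le (one_le_mul_of_one_le_of_one_le hfac hp2) hA
  have hWsize := det_le hν hA1 (show (0 : ℝ) ≤ 2 * R by linarith) hr
    (Matrix.of fun (i l : Fin r) => (⇑(PowerSeries.derivative E))^[(i : ℕ)] (g (s l)))
    (fun i l k => by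
      rw [Matrix.of_apply]
      exact deriv_iter_le hν hA hR (hg _) (by have := i.2; omega) k)
  rw [← hW] at hWsize
  have hA2 : (1 : ℝ) ≤ r0.factorial * (2 * (r0.factorial * (2 * R) ^ r0 * A)) ^ r0 :=
    one_le_mul_of_one_le_of_one_le hfac (one_le_pow₀ (by linarith))
  have hcc : (1 : ℤ) ≤ c ^ r0 * Δ ^ (r0 ^ 2) := by
    have h1 : (1 : ℤ) ≤ c ^ r0 := one_le_pow₀ hc
    have h2 : (1 : ℤ) ≤ Δ ^ (r0 ^ 2) := one_le_pow₀ hΔ
    exact one_le_mul_of_one_le_of_one_le h1 h2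
  obtain ⟨k0, K', hK', h1, h2⟩ := two_ineq ψ hν hψ liou hA2 (show (1 : ℝ) ≤ 2 * (2 * R) by linarith)
    (by linarith) W hWsize hcc hΔ hWdn hWne (K - r) hWdvd
  refine ⟨k0, K', by omega, ?_, ?_⟩
  · rw [show 8 * R = 2 * (2 * (2 * R)) by ring, show 4 * R = 2 * (2 * R) by ring]
    exact h1
  · rw [show 8 * R = 2 * (2 * (2 * R)) by ring, show 4 * R = 2 * (2 * R) by ring]
    refine h2.trans (le_of_eq ?_)
    push_cast
    rw [pow_add (Δ : ℝ)]
    ring

end Pool.Agent.H87.SA
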