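import Pool.Agent.H87.SA.Van
import Pool.Agent.H87.SA.ZeroE
import Pool.Agent.H87.SA.SiegS
import Pool.Agent.H8.KF.NZ
import Pool.Agent.H8.KF.OrdG
import Pool.Agent.H72.ES.EvY

/-! # [SA-CORE] There is no large integer point near a split anchored point at infinity -/

namespace Pool.Agent.H87.SA

open Finset Polynomial Pool.Agent.H72.ES Pool.Agent.H8.KF Pool.Agent.H97.AN

variable {n Q : ℕ} {f : ℤ[X]} {θ : ℝ}

theorem us_ne {O : Ord ℝ n Q f θ} {D m κ M : ℕ} {R G : ℝ} (an : Anch O D m κ M R G) (J : ℕ)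
    (c : ℕ → ℕ → ℤ) {s0 j0 : ℕ} (hs : s0 ≤ J) (hj : j0 < D) (hc : c s0 j0 ≠ 0) :
    us J D c an.Z ≠ 0 := by
  classical
  have hex : ∃ s, s ≤ J ∧ ∃ j < D, c s j ≠ 0 := ⟨s0, hs, j0, hj, hc⟩
  obtain ⟨hs1, j1, hj1, hc1⟩ := Nat.find_spec hex
  set s1 := Nat.find hex with hs1d
  have hmin : ∀ s < s1, ∀ j < D, c s j = 0 := by
    intro s hs' j hj'
    by_contra hcon
    exact Nat.find_min hex hs' ⟨by omega, j, hj', hcon⟩
  intro h0
  apply hc1
  refine an.indep (c s1) ?_ j1 hj1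
  have h1 := congrArg (fun a => an.ψ (PowerSeries.coeff s1 a)) h0
  simp only [map_zero] at h1
  rw [coeff_us, map_sum] at h1
  have h3 : ∑ s ∈ range (J + 1), an.ψ (∑ j ∈ range D, ((c s j : ℤ) : an.E) * zc an.Z s1 s j) =
      an.ψ (∑ j ∈ range D, ((c s1 j : ℤ) : an.E) * zc an.Z s1 s1 j) := by
    refine sum_eq_single_of_mem s1 (mem_range.2 (by omega)) ?_
    intro s _ hne
    rw [map_sum]
    refine sum_eq_zero fun j hj' => ?_
    rw [mem_range] at hj'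
    rcases Nat.lt_or_ge s s1 with h | h
    · rw [hmin s h j hj', Int.cast_zero, zero_mul, map_zero]
    · have h2 : zc an.Z s1 s j = 0 := by
        unfold zc
        rw [PowerSeries.coeff_X_pow_mul', if_neg (by omega)]
      rw [h2, mul_zero, map_zero]
  rw [h3, map_sum] at h1
  rw [← h1]
  refine sum_congr rfl fun j _ => ?_
  have h2 : zc an.Z s1 s1 j = PowerSeries.constantCoeff an.Z ^ j := by
    unfold zc
    rw [PowerSeries.coeff_X_pow_mul', if_pos le_rfl, Nat.sub_self,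
      PowerSeries.coeff_zero_eq_constantCoeff_apply, map_pow]
  rw [h2, map_mul, map_intCast, map_pow]

theorem us_sum {S : Type*} [CommRing S] {ι : Type*} (t : Finset ι) (J D : ℕ) (μ : ι → ℤ)
    (c : ι → ℕ → ℕ → ℤ) (Z : PowerSeries S) :
    us J D (fun s j => ∑ m ∈ t, μ m * c m s j) Z = ∑ m ∈ t, μ m • us J D (c m) Z := by
  have h1 : ∀ s j, (((∑ m ∈ t, μ m * c m s j : ℤ)) : PowerSeries S) * (PowerSeries.X ^ s * Z ^ j) =
      ∑ m ∈ t, μ m • ((c m s j : PowerSeries S) * (PowerSeries.X ^ s * Z ^ j)) := by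
    intro s j
    push_cast
    rw [sum_mul]
    refine sum_congr rfl fun m _ => ?_
    rw [zsmul_eq_mul]
    ring
  have h2 : ∀ s, ∑ j ∈ range D, ∑ m ∈ t, μ m • ((c m s j : PowerSeries S) *
      (PowerSeries.X ^ s * Z ^ j)) = ∑ m ∈ t, μ m • ∑ j ∈ range D, ((c m s j : PowerSeries S) *
      (PowerSeries.X ^ s * Z ^ j)) := by
    intro s
    rw [sum_comm]
    exact sum_congr rfl fun m _ => (smul_sum).symm
  unfold us
  simp only [h1, h2]
  rw [sum_comm]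
  exact sum_congr rfl fun m _ => (smul_sum).symm

theorem core_point (hf : Irreducible f) (O : Ord ℝ n Q f θ) {F : ℕ → ℕ → ℤ}
    (hF : Norml n Q f F) {D m κ M : ℕ} {R G : ℝ} (hm : 3 * m ≤ n * D) (hD : 1 ≤ D) (hκ : 1 ≤ κ)
    (hR : 2 ≤ R) (hG : 1 ≤ G) (an : Anch O D m κ M R G)
    (hRM : (16 * R) ^ (10 ^ 5 * n ^ 4 * KK D κ) ≤ (M : ℝ))
    (x y : ℤ) (h : ev n F x y = 0) (hy : |(y : ℝ) / x - θ| ≤ 1 / bb n Q)
    (hx1 : (M : ℝ) ^ (10 ^ 6 * n ^ 6 * KK D κ ^ 2) ≤ |(x : ℝ)|)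
    (hx2 : (G * bb n Q) ^ (10 ^ 6 * n ^ 3 * KK D κ) ≤ |(x : ℝ)|) : False := by
  have hn := hF.hn
  have hQ := hF.hQ
  have hB1 := one_le_bb hn hQ
  have hR1 : (1 : ℝ) ≤ R := by linarith
  have h16 : (1 : ℝ) ≤ 16 * R := by linarith
  have hKD : D + 1 ≤ KK D κ := by unfold KK; nlinarith
  have hKK : 1 ≤ KK D κ := by omega
  have hn4 : 1 ≤ n ^ 4 := Nat.one_le_pow _ _ (by omega)
  have hn3 : 1 ≤ n ^ 3 := Nat.one_le_pow _ _ (by omega)
  have hn6 : 1 ≤ n ^ 6 := Nat.one_le_pow _ _ (by omega)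
  have hW1 : 2 ≤ 10 ^ 5 * n ^ 4 * KK D κ := by
    have : 1 ≤ n ^ 4 * KK D κ := Nat.mul_pos hn4 hKK
    nlinarith
  have hMR : 64 * R ≤ (M : ℝ) := by
    refine le_trans ?_ hRM
    calc 64 * R ≤ (16 * R) ^ 2 := by nlinarith
      _ ≤ _ := pow_le_pow_right₀ h16 hW1
  have hM1 : (1 : ℝ) < M := by linarith
  have hMN : 1 ≤ M := by exact_mod_cast hM1.le
  have hM0 : (0 : ℝ) < M := by linarith
  set B := bb n Q with hBd
  have hB0 : 0 < B := by linarith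
  -- choice of la
  have hX1 : (1 : ℝ) ≤ |(x : ℝ)| := (one_le_pow₀ hM1.le).trans hx1
  obtain ⟨la, hla1, hla2⟩ := exists_nat_pow_near (x := |(x : ℝ)|) hX1 hM1
  have hla : 10 ^ 6 * n ^ 6 * KK D κ ^ 2 ≤ la := by
    by_contra hc
    have : (M : ℝ) ^ (la + 1) ≤ (M : ℝ) ^ (10 ^ 6 * n ^ 6 * KK D κ ^ 2) :=
      pow_le_pow_right₀ hM1.le (by omega)
    linarith
  have hla8 : 8 * n ≤ la := by
    have h6 : n ≤ n ^ 6 := Nat.le_self_pow (by norm_num) n
    have h7 : 1 ≤ KK D κ ^ 2 := Nat.one_le_pow _ _ hKK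
    calc 8 * n ≤ 10 ^ 6 * n ^ 6 := by omega
      _ = 10 ^ 6 * n ^ 6 * 1 := (mul_one _).symm
      _ ≤ 10 ^ 6 * n ^ 6 * KK D κ ^ 2 := Nat.mul_le_mul_left _ h7
      _ ≤ la := hla
  have hlaD : D ≤ la := by
    have h7 : KK D κ ≤ KK D κ ^ 2 := Nat.le_self_pow (by norm_num) _
    calc D ≤ KK D κ ^ 2 := by omega
      _ = 1 * KK D κ ^ 2 := (one_mul _).symm
      _ ≤ 10 ^ 6 * n ^ 6 * KK D κ ^ 2 := Nat.mul_le_mul_right _ (by omega)
      _ ≤ la := hla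
  have hGB : (G * B) ^ (10 ^ 6 * n ^ 3 * KK D κ) ≤ (M : ℝ) ^ (la + 1) := hx2.trans hla2.le
  -- the auxiliary polynomial
  obtain ⟨br⟩ := exists_branch O hF
  obtain ⟨A, hA0, hAs, hAb, hAv⟩ := siegS O hF br hm hMN hR hG an la hla8 hlaD
  set ZB := ZS n D κ M R G B la with hZB
  have hZ1 : 1 ≤ ZB := by
    unfold ZB ZS
    refine one_le_pow₀ ?_
    refine one_le_mul_of_one_le_of_one_le ?_ (one_le_pow₀ hR1)
    refine one_le_mul_of_one_le_of_one_le ?_ (one_le_pow₀ hB1)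
    exact one_le_mul_of_one_le_of_one_le hG (one_le_pow₀ hM1.le)
  -- sizes at the point
  have hGB1 : 1 ≤ G * B := one_le_mul_of_one_le_of_one_le hG hB1
  have hxB5 : B ^ 5 ≤ |(x : ℝ)| := by
    calc B ^ 5 ≤ (G * B) ^ 5 := pow_le_pow_left₀ hB0.le (by nlinarith) 5
      _ ≤ (G * B) ^ (10 ^ 6 * n ^ 3 * KK D κ) := by
          refine pow_le_pow_right₀ hGB1 ?_
          have : 1 ≤ n ^ 3 * KK D κ := Nat.mul_pos hn3 hKK
          nlinarith
      _ ≤ _ := hx2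
  have hxne : x ≠ 0 := by
    rintro rfl
    simp only [Int.cast_zero, abs_zero] at hX1
    linarith
  obtain ⟨hκ0, -⟩ := evy_bounds O hF x y hxB5 hy
  -- vanishing
  set K := la / (8 * (κ + 1)) + 1 with hKdef
  have hK8 : la < 8 * (κ + 1) * K := by
    rw [hKdef, mul_add, mul_one]
    have h1 := Nat.div_add_mod la (8 * (κ + 1))
    have h2 := Nat.mod_lt la (show 0 < 8 * (κ + 1) by positivity)
    omega
  have hvan : ∀ i < K, PowerSeries.coeff i (tay (1 / (M : ℝ))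
      ((us (3 * n * la) D (spec n A x y) an.Z).map an.ψ)) = 0 := by
    intro i hi
    refine vanS O hF br hD hκ hR hG an la hRM hla hGB A hAs hAb hAv x y h hy hxB5 hla1 hla2.le i ?_
    calc 8 * (κ + 1) * i ≤ 8 * (κ + 1) * (la / (8 * (κ + 1))) := Nat.mul_le_mul_left _ (by omega)
      _ ≤ la := Nat.mul_div_le _ _
  -- the series is not zero
  have hspec : spec n A x y = fun s j => ∑ m : Fin (3 * n + 1) × Fin n,
      (x ^ (m.1 : ℕ) * y ^ (m.2 : ℕ)) * A s j m.1 m.2 := by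
    funext s j
    exact spec_eqA A (fun s j p q hh => (hAs s j p q hh).2) x y s j
  obtain ⟨s0, j0, p0, q0, hm0⟩ := hA0
  have hne : us (3 * n * la) D (spec n A x y) an.Z ≠ 0 := by
    have hji := (hAs s0 j0 p0 q0 hm0).1
    refine us_ne an (3 * n * la) (spec n A x y) hji.1 hji.2 ?_
    refine nz hF hf x y hxne h hκ0 (3 * n) (A s0 j0) (fun p q hh => (hAs s0 j0 p q hh).2)
      ⟨p0, q0, hm0⟩ ZB (hAb s0 j0) ?_
    have e4 : (((3 * n : ℕ) : ℝ) + 1) * (Q : ℝ) ^ (3 * n + 2) ≤ B := by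
      have e2 := n_leR hn hQ
      have e3 := sixteen_leR hn hQ
      have e1 : (((3 * n : ℕ) : ℝ) + 1) ≤ (Q : ℝ) ^ 2 := by
        push_cast
        nlinarith
      calc (((3 * n : ℕ) : ℝ) + 1) * (Q : ℝ) ^ (3 * n + 2) ≤
            (Q : ℝ) ^ 2 * (Q : ℝ) ^ (3 * n + 2) := by gcongr
        _ = (Q : ℝ) ^ (3 * n + 4) := by rw [← pow_add]; congr 1; ring
        _ ≤ B := Qpow_le_bb hn hQ (by nlinarith)
    have e5 : ((((3 * n : ℕ) : ℝ) + 1) * (Q : ℝ) ^ (3 * n + 2) * ZB) ^ n ≤ (B * ZB) ^ n :=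
      pow_le_pow_left₀ (by positivity) (by gcongr) n
    exact lt_of_le_of_lt e5 (lt_of_lt_of_le (num_nz hn hD hκ hR hG hB1 hRM hla hGB) hla1)
  -- the zero estimate
  rw [hspec, us_sum] at hne
  have hvan' := hvan
  rw [hspec, us_sum] at hvan'
  set r0 := (3 * n + 1) * n with hr0
  have hr04 : r0 ≤ 4 * n ^ 2 := by rw [hr0]; nlinarith
  set A1 : ℝ := (3 * n * la + 1) * D * 2 ^ D * (M : ℝ) ^ (κ * D) * ZB with hA1
  have hDR : (1 : ℝ) ≤ D := by exact_mod_cast hD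
  have hA11 : 1 ≤ A1 := by
    rw [hA1]
    refine one_le_mul_of_one_le_of_one_le ?_ hZ1
    refine one_le_mul_of_one_le_of_one_le ?_ (one_le_pow₀ hM1.le)
    refine one_le_mul_of_one_le_of_one_le ?_ (one_le_pow₀ (by norm_num))
    refine one_le_mul_of_one_le_of_one_le ?_ hDR
    have : (0 : ℝ) ≤ 3 * n * la := by positivity
    linarith
  have hcv : Cv (1 / (M : ℝ)) (an.Z.map an.ψ) := an.cv (by linarith) (by linarith)
  obtain ⟨k0, K', hKK', h1, h2⟩ := zeroEstS an.ψ an.sub an.ψ_le an.liou (M := M) (A := A1)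
    (R := 2 * R) hA11 (by linarith) (by linarith) (ι := Fin (3 * n + 1) × Fin n) r0
    (by rw [Fintype.card_prod, Fintype.card_fin, Fintype.card_fin])
    (fun m => us (3 * n * la) D (fun s j => A s j m.1 m.2) an.Z)
    (fun m k => by
      rw [coeff_us]
      refine (SubMul_sum an.sub _ _).trans ?_
      have e1 : ∀ s ∈ range (3 * n * la + 1), an.ν (∑ j ∈ range D,
          ((A s j m.1 m.2 : ℤ) : an.E) * zc an.Z k s j) ≤
          D * (ZB * (((M : ℝ) ^ (κ * D) * 2 ^ D) * (2 * R) ^ k)) := by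
        intro s _
        refine (SubMul_sum an.sub _ _).trans ?_
        have e2 : ∀ j ∈ range D, an.ν (((A s j m.1 m.2 : ℤ) : an.E) * zc an.Z k s j) ≤
            ZB * (((M : ℝ) ^ (κ * D) * 2 ^ D) * (2 * R) ^ k) := by
          intro j hj
          have e3 := zc_le an.sub (A := (M : ℝ) ^ κ) (R := R) (one_le_pow₀ hM1.le) hR1 an.Z_le k s
            j (mem_range.1 hj)
          rw [← pow_mul] at e3
          exact (an.sub.mul _ _).trans (mul_le_mul ((SubMul_int an.sub _).trans (hAb _ _ _ _)) e3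
            (an.sub.nonneg _) (by linarith))
        refine (sum_le_sum e2).trans ?_
        rw [sum_const, card_range, nsmul_eq_mul]
      refine (sum_le_sum e1).trans ?_
      rw [sum_const, card_range, nsmul_eq_mul]
      refine le_of_eq ?_
      rw [hA1]
      push_cast
      ring)
    (c := (M : ℤ) ^ (3 * n * la) * an.e ^ D) (Δ := an.Δ)
    (by
      have e1 : (1 : ℤ) ≤ (M : ℤ) ^ (3 * n * la) := one_le_pow₀ (by exact_mod_cast hMN)
      have e2 : (1 : ℤ) ≤ an.e ^ D := one_le_pow₀ an.e_pos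
      exact one_le_mul_of_one_le_of_one_le e1 e2) an.Δ_pos
    (fun m => by
      rw [us_map]
      exact dn_us hMN (3 * n * la) D (fun s j => A s j m.1 m.2) hcv an.dn)
    (fun m => x ^ (m.1 : ℕ) * y ^ (m.2 : ℕ)) hne K
    (by
      rw [PowerSeries.X_pow_dvd_iff]
      exact hvan')
  have heR : (1 : ℝ) ≤ an.e := by exact_mod_cast an.e_pos
  have hΔR : (1 : ℝ) ≤ an.Δ := by exact_mod_cast an.Δ_pos
  rw [show 2 * (2 * R) = 4 * R by ring, show 8 * (2 * R) = 16 * R by ring,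
    show 4 * (2 * R) = 8 * R by ring] at h1 h2
  set A2 : ℝ := r0.factorial * (2 * (r0.factorial * (4 * R) ^ r0 * A1)) ^ r0 with hA2
  have hA21 : 1 ≤ A2 := by
    have hfac : (1 : ℝ) ≤ r0.factorial := by exact_mod_cast Nat.factorial_pos r0
    have hp2 : (1 : ℝ) ≤ (4 * R) ^ r0 := one_le_pow₀ (by linarith)
    have hA1' : (1 : ℝ) ≤ r0.factorial * (4 * R) ^ r0 * A1 :=
      one_le_mul_of_one_le_of_one_le (one_le_mul_of_one_le_of_one_le hfac hp2) hA11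
    exact one_le_mul_of_one_le_of_one_le hfac (one_le_pow₀ (by linarith))
  refine num_end (r0 := r0) (k0 := k0) (K := K) (K' := K') hn hD hκ hR hA21 hRM hla hr04
    (num_A2 hn hD hκ hR hG hB1 hRM hla hGB hr04) hK8 hKK' h1 (h2.trans ?_)
  have e1 : ((((M : ℤ) ^ (3 * n * la) * an.e ^ D : ℤ) : ℝ)) ^ r0 * (an.Δ : ℝ) ^ (r0 ^ 2 + K') ≤
      (M : ℝ) ^ ((3 * n * la + κ * D) * r0 + κ * (r0 ^ 2 + K')) := by
    have e2 : (an.e : ℝ) ^ D ≤ ((M : ℝ) ^ κ) ^ D := pow_le_pow_left₀ (by linarith) an.e_le D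
    have e3 : (an.Δ : ℝ) ^ (r0 ^ 2 + K') ≤ ((M : ℝ) ^ κ) ^ (r0 ^ 2 + K') :=
      pow_le_pow_left₀ (by linarith) an.Δ_le _
    have e4 : (M : ℝ) ^ ((3 * n * la + κ * D) * r0 + κ * (r0 ^ 2 + K')) =
        ((M : ℝ) ^ (3 * n * la) * ((M : ℝ) ^ κ) ^ D) ^ r0 * ((M : ℝ) ^ κ) ^ (r0 ^ 2 + K') := by
      rw [pow_add, pow_mul, pow_add, pow_mul (M : ℝ) κ D, pow_mul (M : ℝ) κ (r0 ^ 2 + K')]
    rw [e4]
    push_cast
    gcongr
  have hA20 : 0 ≤ A2 := by linarith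
  gcongr

end Pool.Agent.H87.SA
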