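import Pool.Agent.H87.SA.House

/-! # [SA-COORD] Integer coordinates on the ring of integers by traces

`z ∈ 𝓞 k` with `ℚ(z) = k`. The map `a ↦ (Tr (a z^j))_{j < D}` with `Tr = Algebra.trace ℤ (𝓞 k)`
(integer valued; `Algebra.trace_localization`/`Algebra.coe_trace_int :
(Algebra.trace ℤ (𝓞 k) x : ℚ) = Algebra.trace ℚ k x`) is additive. Injective: if `Tr (a z^j) = 0` for
all `j < D`, then `Tr_{k/ℚ} (a b) = 0` for all `b ∈ k`, because the `z^j`, `j < D`, span `k` over `ℚ`
(`ℚ⟮z⟯ = ⊤`, power basis `IntermediateField.adjoin.powerBasis` / `Field.powerBasisOfFiniteOf...`;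
or from linear independence `prim_indep` and dimension); the trace form is nondegenerate
(`traceForm_nondegenerate`), so `a = 0`. Bound: `Tr (b) = ∑_σ σ b`
(`trace_eq_sum_embeddings`), so `|Tr (a z^j)| ≤ D house(a z^j) ≤ D house(a) house(z)^j ≤
D Y^D house(a)` (`house_mul_le`, `house_pow_le` or induction). -/

namespace Pool.Agent.H87.SA

open Finset Polynomial NumberField

theorem co_adjoin {k : Type} [Field k] [NumberField k] (z : k)
    (hz : IntermediateField.adjoin ℚ {z} = ⊤) : Algebra.adjoin ℚ {z} = ⊤ := by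
  have hint : IsIntegral ℚ z := Algebra.IsIntegral.isIntegral z
  rw [← IntermediateField.adjoin_simple_toSubalgebra_of_isAlgebraic hint.isAlgebraic, hz]
  rfl

theorem co_zero {k : Type} [Field k] [NumberField k] (z : k)
    (hz : IntermediateField.adjoin ℚ {z} = ⊤) (a : k)
    (h : ∀ j < Module.finrank ℚ k, Algebra.trace ℚ k (a * z ^ j) = 0) : a = 0 := by
  have hint : IsIntegral ℚ z := Algebra.IsIntegral.isIntegral z
  have hpb : ∃ pb : PowerBasis ℚ k, pb.gen = z :=
    ⟨PowerBasis.ofAdjoinEqTop hint (co_adjoin z hz), rfl⟩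
  obtain ⟨pb, hgen⟩ := hpb
  have hdim := pb.finrank
  have hL : (Algebra.traceForm ℚ k a : k →ₗ[ℚ] ℚ) = 0 := by
    refine pb.basis.ext fun i => ?_
    rw [pb.basis_eq_pow, hgen, LinearMap.zero_apply, Algebra.traceForm_apply]
    exact h i (by rw [hdim]; exact i.2)
  have hnd := traceForm_nondegenerate ℚ k
  exact hnd.1 a fun b => by rw [hL, LinearMap.zero_apply]

theorem co_bound {k : Type} [Field k] [NumberField k] (x : 𝓞 k) :
    |((Algebra.trace ℤ (𝓞 k) x : ℤ) : ℝ)| ≤ Module.finrank ℚ k * house (x : k) := by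
  have h1 : ((Algebra.trace ℤ (𝓞 k) x : ℤ) : ℚ) = Algebra.trace ℚ k (x : k) :=
    Algebra.coe_trace_int x
  have h2 := trace_eq_sum_embeddings (K := ℚ) (L := k) ℂ (x := (x : k))
  rw [← h1] at h2
  have h3 : ‖((Algebra.trace ℤ (𝓞 k) x : ℤ) : ℂ)‖ ≤ Module.finrank ℚ k * house (x : k) := by
    have h4 : ((Algebra.trace ℤ (𝓞 k) x : ℤ) : ℂ) = ∑ σ : k →ₐ[ℚ] ℂ, σ (x : k) := by
      rw [← h2]
      simp
    rw [h4]
    refine (norm_sum_le _ _).trans ?_
    have h5 : ∀ σ ∈ (Finset.univ : Finset (k →ₐ[ℚ] ℂ)), ‖σ (x : k)‖ ≤ house (x : k) := by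
      intro σ _
      exact norm_embedding_le_house (x : k) (σ : k →+* ℂ)
    refine (sum_le_sum h5).trans ?_
    rw [sum_const, card_univ, AlgHom.card, nsmul_eq_mul]
  rw [Complex.norm_intCast] at h3
  exact h3

theorem exists_coordE {k : Type} [Field k] [NumberField k] (z : 𝓞 k)
    (hz : IntermediateField.adjoin ℚ {(z : k)} = ⊤) {Y : ℝ} (hY : 1 ≤ Y) (hzY : house (z : k) ≤ Y) :
    ∃ c : 𝓞 k →+ (Fin (Module.finrank ℚ k) → ℤ), Function.Injective c ∧
      ∀ a i, |((c a i : ℤ) : ℝ)| ≤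
        (Module.finrank ℚ k * Y ^ Module.finrank ℚ k) * house (a : k) := by
  let c : 𝓞 k →+ (Fin (Module.finrank ℚ k) → ℤ) :=
    { toFun := fun a i => Algebra.trace ℤ (𝓞 k) (a * z ^ (i : ℕ))
      map_zero' := by
        funext i
        simp
      map_add' := by
        intro a b
        funext i
        simp only [Pi.add_apply]
        rw [add_mul, map_add] }
  refine ⟨c, ?_, ?_⟩
  · rw [injective_iff_map_eq_zero]
    intro a ha
    have h1 : (a : k) = 0 := by
      refine co_zero (z : k) hz (a : k) fun j hj => ?_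
      have h2 : Algebra.trace ℤ (𝓞 k) (a * z ^ j) = 0 := congrFun ha ⟨j, hj⟩
      have h3 := Algebra.coe_trace_int (a * z ^ j)
      rw [h2] at h3
      have h4 : ((a * z ^ j : 𝓞 k) : k) = (a : k) * (z : k) ^ j := by
        simp
      rw [h4] at h3
      rw [← h3]
      simp
    exact_mod_cast h1
  · intro a i
    refine (co_bound (a * z ^ (i : ℕ))).trans ?_
    have h4 : ((a * z ^ (i : ℕ) : 𝓞 k) : k) = (a : k) * (z : k) ^ (i : ℕ) := by
      simp
    rw [h4]
    have h5 : house ((a : k) * (z : k) ^ (i : ℕ)) ≤ house (a : k) * Y ^ Module.finrank ℚ k := by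
      refine (house_mul_le _ _).trans (mul_le_mul_of_nonneg_left ?_ (house_nonneg _))
      refine (house_pow_le _ _).trans ?_
      refine (pow_le_pow_left₀ (house_nonneg _) hzY _).trans ?_
      exact pow_le_pow_right₀ hY i.2.le
    calc (Module.finrank ℚ k : ℝ) * house ((a : k) * (z : k) ^ (i : ℕ))
        ≤ (Module.finrank ℚ k : ℝ) * (house (a : k) * Y ^ Module.finrank ℚ k) :=
          mul_le_mul_of_nonneg_left h5 (Nat.cast_nonneg _)
      _ = _ := by ring

end Pool.Agent.H87.SA
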