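import Pool.Agent.H87.SA.SDefs
import Pool.Agent.H72.ES.Series

/-! # [SA-HENS] Scaled Hensel series: existence and uniqueness

Existence. `p(y) = 0`, `δ = p'(y)`. Put `u = y + δ v`. Taylor: `p(y + δ v) = δ (δ v) + ∑_{j ≥ 2} a_j δ^j
v^j`, `a_j = coefficient j of taylor y p` (`Polynomial.taylor`, `Polynomial.sum_taylor_eq`, ...), and
`q(y + δ v) = ∑ b_j δ^j v^j`. The equation is `δ²` times
`v = - ∑_{j≥2} a_j δ^(j-2) v^j - m X ∑_j b_j δ^j v^j`, solved by
`Pool.Agent.H72.ES.exists_series` (`c 0 j = - a_j δ^(j-2)` for `j ≥ 2`, `c 1 j = - m b_j δ^j`, all other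
`c i j = 0`; `n` larger than all degrees).
Uniqueness. Let `w = u - u'`, constant coefficient `0`. `ei p u - ei p u' = w * A` with
`constantCoeff A = p'(y)`: (`Polynomial.evalSubFactor`, or
`p(u' + w) = p(u') + w p'(u') + w² (..)`, `Polynomial.binomExpansion`), and
`ei q u - ei q u' = w * E` (`Polynomial.sub_dvd_eval_sub`). So `w (A + a X E) = 0`, the second
factor has constant coefficient `p'(y) ≠ 0`, and `S⟦X⟧` is a domain. -/

namespace Pool.Agent.H87.SA

open Finset Polynomial Pool.Agent.H72.ES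

theorem he_taylor {S : Type} [CommRing S] (p : ℤ[X]) (y δ : S) (w : PowerSeries S) (n : ℕ)
    (hn : p.natDegree < n) :
    ei p (PowerSeries.C y + PowerSeries.C δ * w) = ∑ j ∈ range n,
      PowerSeries.C ((taylor y (p.map (Int.castRingHom S))).coeff j * δ ^ j) * w ^ j := by
  have h1 : ei p (PowerSeries.C y + PowerSeries.C δ * w) =
      aeval (PowerSeries.C δ * w) (taylor y (p.map (Int.castRingHom S))) := by
    rw [taylor_apply, aeval_comp, aeval_def, eval₂_map]
    unfold ei
    congr 1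
    · exact RingHom.ext_int _ _
    · rw [map_add, aeval_X, aeval_C]
      exact add_comm _ _
  have h2 : (taylor y (p.map (Int.castRingHom S))).natDegree < n := by
    rw [natDegree_taylor]
    exact lt_of_le_of_lt natDegree_map_le hn
  rw [h1, aeval_eq_sum_range' h2]
  refine sum_congr rfl fun j _ => ?_
  rw [PowerSeries.smul_eq_C_mul, mul_pow, ← map_pow, map_mul]
  ring

theorem hens_exists {S : Type} [CommRing S] (p q : ℤ[X]) (y : S) (hy : ei p y = 0) (m : S) :
    ∃ u : PowerSeries S, PowerSeries.constantCoeff u = y ∧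
      ei p u + PowerSeries.C (m * ei (derivative p) y ^ 2) * PowerSeries.X * ei q u = 0 := by
  obtain ⟨a, ha⟩ : ∃ a : ℕ → S, ∀ j, a j = (taylor y (p.map (Int.castRingHom S))).coeff j :=
    ⟨_, fun _ => rfl⟩
  obtain ⟨b, hb⟩ : ∃ b : ℕ → S, ∀ j, b j = (taylor y (q.map (Int.castRingHom S))).coeff j :=
    ⟨_, fun _ => rfl⟩
  obtain ⟨δ, hδ⟩ : ∃ δ : S, δ = ei (derivative p) y := ⟨_, rfl⟩
  rw [← hδ]
  have ha0 : a 0 = 0 := by
    rw [ha, taylor_coeff_zero, eval_map]
    exact hy
  have ha1 : a 1 = δ := by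
    rw [ha, taylor_coeff_one, derivative_map, eval_map, hδ]
    rfl
  obtain ⟨n, hnp, hnq⟩ : ∃ n : ℕ, p.natDegree < n + 2 ∧ q.natDegree < n + 2 :=
    ⟨max p.natDegree q.natDegree, by omega, by omega⟩
  obtain ⟨w, hw0, hw⟩ := exists_series (R := S) (n + 1)
    (fun i j => if i = 0 then (if 2 ≤ j then -(a j * δ ^ (j - 2)) else 0) else
      if i = 1 then -(m * b j * δ ^ j) else 0) (by simp) (by simp)
  refine ⟨PowerSeries.C y + PowerSeries.C δ * w, by simp [hw0], ?_⟩
  rw [he_taylor p y δ w (n + 2) hnp, he_taylor q y δ w (n + 2) hnq]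
  simp only [← ha, ← hb]
  -- the fixed point equation
  have hw2 : w = ∑ j ∈ range n, PowerSeries.C (-(a (j + 2) * δ ^ j)) * w ^ (j + 2) +
      ∑ j ∈ range (n + 2), PowerSeries.C (-(m * b j * δ ^ j)) * PowerSeries.X * w ^ j := by
    conv_lhs => rw [hw]
    rw [Finset.sum_range_succ', Finset.sum_range_succ']
    have h1 : ∑ i ∈ range n, ∑ j ∈ range (n + 1 + 1),
        PowerSeries.C (if i + 1 + 1 = 0 then (if 2 ≤ j then -(a j * δ ^ (j - 2)) else 0) else
          if i + 1 + 1 = 1 then -(m * b j * δ ^ j) else 0) * PowerSeries.X ^ (i + 1 + 1) * w ^ j = 0 := by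
      refine sum_eq_zero fun i _ => sum_eq_zero fun j _ => ?_
      rw [if_neg (by omega), if_neg (by omega)]
      simp
    rw [h1, zero_add, add_comm]
    congr 1
    · rw [Finset.sum_range_succ', Finset.sum_range_succ']
      simp
    · refine sum_congr rfl fun j _ => ?_
      simp
  have hP : ∑ j ∈ range (n + 2), PowerSeries.C (a j * δ ^ j) * w ^ j =
      PowerSeries.C (δ ^ 2) * w +
        PowerSeries.C (δ ^ 2) * ∑ j ∈ range n, PowerSeries.C (a (j + 2) * δ ^ j) * w ^ (j + 2) := by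
    rw [Finset.sum_range_succ', Finset.sum_range_succ', ha0, ha1, mul_sum]
    have h2 : ∀ j ∈ range n, PowerSeries.C (a (j + 1 + 1) * δ ^ (j + 1 + 1)) * w ^ (j + 1 + 1) =
        PowerSeries.C (δ ^ 2) * (PowerSeries.C (a (j + 2) * δ ^ j) * w ^ (j + 2)) := by
      intro j _
      rw [← mul_assoc, ← map_mul]
      congr 2
      ring
    rw [sum_congr rfl h2]
    simp
    ring
  rw [hP]
  have h3 : PowerSeries.C (δ ^ 2) * w = PowerSeries.C (δ ^ 2) *
      (∑ j ∈ range n, PowerSeries.C (-(a (j + 2) * δ ^ j)) * w ^ (j + 2) +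
      ∑ j ∈ range (n + 2), PowerSeries.C (-(m * b j * δ ^ j)) * PowerSeries.X * w ^ j) := by
    rw [← hw2]
  rw [h3, mul_add]
  have h4 : ∑ j ∈ range n, PowerSeries.C (-(a (j + 2) * δ ^ j)) * w ^ (j + 2) =
      -∑ j ∈ range n, PowerSeries.C (a (j + 2) * δ ^ j) * w ^ (j + 2) := by
    rw [← sum_neg_distrib]
    refine sum_congr rfl fun j _ => ?_
    rw [map_neg]
    ring
  have h5 : PowerSeries.C (δ ^ 2) *
      ∑ j ∈ range (n + 2), PowerSeries.C (-(m * b j * δ ^ j)) * PowerSeries.X * w ^ j =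
      -(PowerSeries.C (m * δ ^ 2) * PowerSeries.X *
        ∑ j ∈ range (n + 2), PowerSeries.C (b j * δ ^ j) * w ^ j) := by
    rw [mul_sum, mul_sum, ← sum_neg_distrib]
    refine sum_congr rfl fun j _ => ?_
    simp only [map_mul, map_neg]
    ring
  rw [h4, h5]
  ring

theorem hens_unique {S : Type} [CommRing S] [IsDomain S] (p q : ℤ[X]) (y a : S)
    (hδ : ei (derivative p) y ≠ 0) (u u' : PowerSeries S) (hu0 : PowerSeries.constantCoeff u = y)
    (hu0' : PowerSeries.constantCoeff u' = y)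
    (hu : ei p u + PowerSeries.C a * PowerSeries.X * ei q u = 0)
    (hu' : ei p u' + PowerSeries.C a * PowerSeries.X * ei q u' = 0) : u = u' := by
  have hei : ∀ (r : ℤ[X]) (v : PowerSeries S),
      ei r v = (r.map (Int.castRingHom (PowerSeries S))).eval v := by
    intro r v
    rw [eval_map]
    rfl
  obtain ⟨k, hk⟩ := Polynomial.binomExpansion (p.map (Int.castRingHom (PowerSeries S))) u' (u - u')
  obtain ⟨e, he⟩ := Polynomial.sub_dvd_eval_sub u u' (q.map (Int.castRingHom (PowerSeries S)))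
  rw [add_sub_cancel, derivative_map, ← hei, ← hei, ← hei] at hk
  rw [← hei, ← hei] at he
  have hprod : (u - u') * (ei (derivative p) u' + k * (u - u') +
      PowerSeries.C a * PowerSeries.X * e) = 0 := by
    linear_combination hu - hu' - hk - PowerSeries.C a * PowerSeries.X * he
  rcases mul_eq_zero.1 hprod with h | h
  · exact sub_eq_zero.1 h
  · exfalso
    apply hδ
    have h1 := congrArg PowerSeries.constantCoeff h
    rw [map_add, map_add, map_mul, map_mul, map_mul, map_sub, hu0, hu0', map_ei, hu0', sub_self,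
      PowerSeries.constantCoeff_X, map_zero] at h1
    simpa using h1

end Pool.Agent.H87.SA
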