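import Pool.Agent.H87.SA.Hens
import Pool.Agent.H87.SA.House

/-! # [SA-DNSUM] Rationality and denominators of the trace series

`δ_i = ei p' (yo i) ∈ 𝓞 k`, nonzero because `ι δ_i = ei p' (y_i) = ∏_{j≠i} (y_i - y_j) ≠ 0`
(derivative of the product `hp` at a simple root). `u_i` from `hens_exists` over `𝓞 k` with `y = yo i`
(`ei p (yo i) = 0`: apply the injective `ι`), `m`.
(1) In `ℝ⟦X⟧`: the rescaled series `W_i(ι(δ_i)² X)` (`PowerSeries.rescale`) satisfies
`ei p (..) + C (m δ_i²) X ei q (..) = 0` with constant coefficient `y_i`, as does the image of `u_i`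
under `ψ = ι ∘ (𝓞 k → k)`; `hens_unique`: `ι(δ_i)^(2k) coeff k (W_i) = ι (coeff k u_i)`.
(2) `Δ0 = ∏ δ_i² ∈ 𝓞 k`, and for all `k`:
`ι (Δ0)^k ∑_i y_i coeff k (W_i) = ι (a_k)`, `a_k = ∑_i yo i (∏_{j ≠ i} δ_j²)^k coeff k u_i ∈ 𝓞 k`.
(3) Invariance. For `σ : k →+* ℂ` with permutation `π`: `σ (yo i) = y_(π i)`, so
`σ δ_i = ei p' (y_(π i)) = (ι δ_(π i) : ℂ)`, and `σ (coeff k u_i) = (ι (coeff k u_(π i)) : ℂ)` by
`hens_unique` over `ℂ` (both series satisfy the equation with constant coefficient `y_(π i)` and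
`a = m δ_(π i)²`). So `σ a_k = ∑_i y_(π i) (∏_{j≠i} δ_(π j)²)^k coeff k u_(π i) = ι a_k` (reindex by
`π`: `Equiv.sum_comp`, and `∏_{j ≠ i} f (π j) = ∏_{j ≠ π i} f j`: use
`(∏_{j≠i} δ_j²) δ_i² = Δ0` or `Finset.prod_equiv`/`Finset.prod_erase`), similarly `σ Δ0 = ι Δ0`.
(4) `inv_int` gives integers `Δ` with `(Δ : ℝ) = ι Δ0 = ∏ (ei p' y_i)² > 0`, so `Δ ≥ 1`, and `z_k` with
`(z_k : ℝ) = ι a_k = Δ^k coeff k (∑ C y_i * W_i)`. -/

namespace Pool.Agent.H87.SA

open Finset Polynomial NumberField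

/-- the scaled Hensel equation is preserved by ring homomorphisms -/
theorem dns_hens_map {S S' : Type} [CommRing S] [CommRing S'] (φ : S →+* S') (p q : ℤ[X]) (a : S)
    {u : PowerSeries S} (hu : ei p u + PowerSeries.C a * PowerSeries.X * ei q u = 0) :
    ei p (PowerSeries.map φ u) + PowerSeries.C (φ a) * PowerSeries.X *
      ei q (PowerSeries.map φ u) = 0 := by
  have h := congrArg (PowerSeries.map φ) hu
  rwa [map_add, map_mul, map_mul, map_ei, map_ei, map_zero, PowerSeries.map_C,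
    PowerSeries.map_X] at h

theorem dns_cc_map {S S' : Type} [CommRing S] [CommRing S'] (φ : S →+* S') (u : PowerSeries S) :
    PowerSeries.constantCoeff (PowerSeries.map φ u) = φ (PowerSeries.constantCoeff u) := by
  rw [← PowerSeries.coeff_zero_eq_constantCoeff_apply, PowerSeries.coeff_map,
    PowerSeries.coeff_zero_eq_constantCoeff_apply]

/-- rescaling -/
theorem dns_hens_rescale {S : Type} [CommRing S] (p q : ℤ[X]) (a b : S)
    {u : PowerSeries S} (hu : ei p u + PowerSeries.C a * PowerSeries.X * ei q u = 0) :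
    ei p (PowerSeries.rescale b u) + PowerSeries.C (a * b) * PowerSeries.X *
      ei q (PowerSeries.rescale b u) = 0 := by
  have h := congrArg (PowerSeries.rescale b) hu
  rw [map_add, map_mul, map_mul, map_ei, map_ei, map_zero, PowerSeries.rescale_X] at h
  have hC : PowerSeries.rescale b (PowerSeries.C a) = PowerSeries.C a := by
    ext n
    rw [PowerSeries.coeff_rescale, PowerSeries.coeff_C]
    split_ifs with h0
    · rw [h0]
      simp
    · simp
  rw [hC] at h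
  rw [map_mul]
  rw [← h]
  ring

theorem dn_sum {d : ℕ} {k : Type} [Field k] [NumberField k] (ι : k →+* ℝ) (yo : Fin d → 𝓞 k)
    {y : Fin d → ℝ} (hy : Function.Injective y) (hι : ∀ i, ι (yo i : k) = y i)
    (hperm : ∀ σ : k →+* ℂ, ∃ π : Equiv.Perm (Fin d), ∀ i, σ (yo i : k) = ((y (π i) : ℝ) : ℂ))
    (p q : ℤ[X]) (hp : p.map (Int.castRingHom ℝ) = ∏ i, (X - C (y i))) (m : ℤ)
    (W : Fin d → PowerSeries ℝ) (hW0 : ∀ i, PowerSeries.constantCoeff (W i) = y i)
    (hW : ∀ i, ei p (W i) + PowerSeries.C (m : ℝ) * PowerSeries.X * ei q (W i) = 0) :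
    ∃ Δ : ℤ, 1 ≤ Δ ∧ (Δ : ℝ) = ∏ i, ei (derivative p) (y i) ^ 2 ∧
      Dn 1 Δ (∑ i, PowerSeries.C (y i) * W i) := by
  classical
  set ψ : 𝓞 k →+* ℝ := ι.comp (algebraMap (𝓞 k) k) with hψ
  have hψa : ∀ a : 𝓞 k, ψ a = ι (a : k) := fun a => rfl
  have hψinj : Function.Injective ψ := by
    intro a b hab
    have h1 : (a : k) = (b : k) := ι.injective hab
    exact_mod_cast h1
  have hψy : ∀ i, ψ (yo i) = y i := hι
  -- the roots
  have hroot : ∀ i, ei p (y i) = 0 := by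
    intro i
    have h1 : ei p (y i) = (p.map (Int.castRingHom ℝ)).eval (y i) := by
      unfold ei
      rw [eval_map]
    rw [h1, hp, eval_prod]
    refine Finset.prod_eq_zero (Finset.mem_univ i) ?_
    simp
  have hD0 : ∀ i, ei (derivative p) (y i) ≠ 0 := by
    intro i
    have h1 : (p.map (Int.castRingHom ℝ)).Separable := by
      rw [hp]
      exact separable_prod_X_sub_C_iff.mpr hy
    have h2 : (p.map (Int.castRingHom ℝ)).eval₂ (RingHom.id ℝ) (y i) = 0 := by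
      rw [eval₂_id, eval_map]
      exact hroot i
    have h3 := h1.eval₂_derivative_ne_zero (RingHom.id ℝ) h2
    rw [eval₂_id, derivative_map, eval_map] at h3
    exact h3
  have hrooto : ∀ i, ei p (yo i) = 0 := by
    intro i
    apply hψinj
    rw [map_ei, hψy, hroot, map_zero]
  obtain ⟨D, hD⟩ : ∃ D : Fin d → ℝ, ∀ i, D i = ei (derivative p) (y i) := ⟨_, fun _ => rfl⟩
  obtain ⟨δ, hδ⟩ : ∃ δ : Fin d → 𝓞 k, ∀ i, δ i = ei (derivative p) (yo i) := ⟨_, fun _ => rfl⟩
  have hψδ : ∀ i, ψ (δ i) = D i := by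
    intro i
    rw [hδ, map_ei, hψy, hD]
  have hDne : ∀ i, D i ≠ 0 := by
    intro i
    rw [hD]
    exact hD0 i
  choose u hu0 hu using fun i => hens_exists p q (yo i) (hrooto i) (m : 𝓞 k)
  -- comparison with the real series
  have hWu : ∀ i n, ψ (PowerSeries.coeff n (u i)) = (D i ^ 2) ^ n * PowerSeries.coeff n (W i) := by
    intro i n
    have h1 := dns_hens_map ψ p q _ (hu i)
    have h2 := dns_hens_rescale p q (m : ℝ) (D i ^ 2) (hW i)
    have e1 : ψ ((m : 𝓞 k) * ei (derivative p) (yo i) ^ 2) = (m : ℝ) * D i ^ 2 := by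
      rw [map_mul, map_intCast, map_pow, ← hδ, hψδ]
    rw [e1] at h1
    have h3 := hens_unique p q (y i) ((m : ℝ) * D i ^ 2) (hD0 i) (PowerSeries.map ψ (u i))
      (PowerSeries.rescale (D i ^ 2) (W i))
      (by rw [dns_cc_map, hu0, hψy])
      (by
        rw [← PowerSeries.coeff_zero_eq_constantCoeff_apply, PowerSeries.coeff_rescale,
          pow_zero, one_mul, PowerSeries.coeff_zero_eq_constantCoeff_apply, hW0]) h1 h2
    have h4 := congrArg (PowerSeries.coeff n) h3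
    rwa [PowerSeries.coeff_map, PowerSeries.coeff_rescale] at h4
  -- invariance
  have hσ : ∀ σ : k →+* ℂ, ∃ π : Equiv.Perm (Fin d), (∀ i, σ (yo i : k) = ((y (π i) : ℝ) : ℂ)) ∧
      (∀ i, σ (δ i : k) = ((D (π i) : ℝ) : ℂ)) ∧
      ∀ i n, σ ((PowerSeries.coeff n (u i) : 𝓞 k) : k) =
        ((ψ (PowerSeries.coeff n (u (π i))) : ℝ) : ℂ) := by
    intro σ
    obtain ⟨π, hπ⟩ := hperm σ
    have hδσ : ∀ i, σ (δ i : k) = ((D (π i) : ℝ) : ℂ) := by
      intro i
      have h1 : σ (δ i : k) = ei (derivative p) (σ (yo i : k)) := by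
        rw [hδ]
        exact map_ei (σ.comp (algebraMap (𝓞 k) k)) (derivative p) (yo i)
      rw [h1, hπ, hD]
      exact (map_ei Complex.ofRealHom (derivative p) (y (π i))).symm
    refine ⟨π, hπ, hδσ, fun i n => ?_⟩
    set τ : 𝓞 k →+* ℂ := σ.comp (algebraMap (𝓞 k) k) with hτ
    set χ : 𝓞 k →+* ℂ := Complex.ofRealHom.comp ψ with hχ
    have h1 := dns_hens_map τ p q _ (hu i)
    have h2 := dns_hens_map χ p q _ (hu (π i))
    have e1 : τ ((m : 𝓞 k) * ei (derivative p) (yo i) ^ 2) =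
        (m : ℂ) * ((D (π i) : ℝ) : ℂ) ^ 2 := by
      rw [map_mul, map_intCast, map_pow, ← hδ]
      have : τ (δ i) = ((D (π i) : ℝ) : ℂ) := hδσ i
      rw [this]
    have e2 : χ ((m : 𝓞 k) * ei (derivative p) (yo (π i)) ^ 2) =
        (m : ℂ) * ((D (π i) : ℝ) : ℂ) ^ 2 := by
      rw [map_mul, map_intCast, map_pow, ← hδ]
      have : χ (δ (π i)) = ((D (π i) : ℝ) : ℂ) := by
        rw [hχ, RingHom.comp_apply, hψδ]
        rfl
      rw [this]
    rw [e1] at h1
    rw [e2] at h2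
    have hne : ei (derivative p) (((y (π i) : ℝ) : ℂ)) ≠ 0 := by
      have h3 : ei (derivative p) (((y (π i) : ℝ) : ℂ)) =
          ((ei (derivative p) (y (π i)) : ℝ) : ℂ) :=
        (map_ei Complex.ofRealHom (derivative p) (y (π i))).symm
      rw [h3]
      exact_mod_cast hD0 (π i)
    have h3 := hens_unique p q ((y (π i) : ℝ) : ℂ) ((m : ℂ) * ((D (π i) : ℝ) : ℂ) ^ 2) hne
      (PowerSeries.map τ (u i)) (PowerSeries.map χ (u (π i)))
      (by
        rw [dns_cc_map, hu0]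
        exact hπ i)
      (by
        rw [dns_cc_map, hu0, hχ, RingHom.comp_apply, hψy]
        rfl) h1 h2
    have h4 := congrArg (PowerSeries.coeff n) h3
    rw [PowerSeries.coeff_map, PowerSeries.coeff_map] at h4
    exact h4
  -- the discriminant
  obtain ⟨Δ, hΔ⟩ : ∃ m : ℤ, (m : ℝ) = ι ((∏ i, δ i ^ 2 : 𝓞 k) : k) := by
    refine inv_int ι _ fun σ => ?_
    obtain ⟨π, -, h1, -⟩ := hσ σ
    have h2 : σ ((∏ i, δ i ^ 2 : 𝓞 k) : k) = ∏ i, ((D (π i) : ℝ) : ℂ) ^ 2 := by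
      have : σ ((∏ i, δ i ^ 2 : 𝓞 k) : k) = (σ.comp (algebraMap (𝓞 k) k)) (∏ i, δ i ^ 2) := rfl
      rw [this, map_prod]
      refine Finset.prod_congr rfl fun i _ => ?_
      rw [map_pow]
      congr 1
      exact h1 i
    have h3 : ι ((∏ i, δ i ^ 2 : 𝓞 k) : k) = ∏ i, D i ^ 2 := by
      rw [← hψa, map_prod]
      refine Finset.prod_congr rfl fun i _ => ?_
      rw [map_pow, hψδ]
    rw [h2, h3, Equiv.prod_comp π fun i => ((D i : ℝ) : ℂ) ^ 2]
    push_cast
    rfl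
  have hΔD : (Δ : ℝ) = ∏ i, D i ^ 2 := by
    rw [hΔ, ← hψa, map_prod]
    refine Finset.prod_congr rfl fun i _ => ?_
    rw [map_pow, hψδ]
  refine ⟨Δ, ?_, ?_, ?_⟩
  · have h1 : (0 : ℝ) < (Δ : ℝ) := by
      rw [hΔD]
      refine Finset.prod_pos fun i _ => ?_
      have := hDne i
      positivity
    have h2 : 0 < Δ := by exact_mod_cast h1
    omega
  · rw [hΔD]
    refine Finset.prod_congr rfl fun i _ => ?_
    rw [hD]
  · intro n
    -- the numerators
    set a : 𝓞 k := ∑ i, yo i * (∏ j ∈ Finset.univ.erase i, δ j ^ 2) ^ n *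
      PowerSeries.coeff n (u i) with ha
    have hψaa : ψ a = ∑ i, y i * (∏ j ∈ Finset.univ.erase i, D j ^ 2) ^ n *
        ψ (PowerSeries.coeff n (u i)) := by
      rw [ha, map_sum]
      refine Finset.sum_congr rfl fun i _ => ?_
      rw [map_mul, map_mul, map_pow, map_prod, hψy]
      congr 3
      refine Finset.prod_congr rfl fun j _ => ?_
      rw [map_pow, hψδ]
    obtain ⟨z, hz⟩ : ∃ m : ℤ, (m : ℝ) = ι (a : k) := by
      refine inv_int ι _ fun σ => ?_
      obtain ⟨π, h1, h2, h3⟩ := hσ σ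
      set τ : 𝓞 k →+* ℂ := σ.comp (algebraMap (𝓞 k) k) with hτ
      have h4 : τ a = ∑ i, ((y (π i) : ℝ) : ℂ) *
          (∏ j ∈ Finset.univ.erase i, ((D (π j) : ℝ) : ℂ) ^ 2) ^ n *
          ((ψ (PowerSeries.coeff n (u (π i))) : ℝ) : ℂ) := by
        rw [ha, map_sum]
        refine Finset.sum_congr rfl fun i _ => ?_
        rw [map_mul, map_mul, map_pow, map_prod]
        have e1 : τ (yo i) = ((y (π i) : ℝ) : ℂ) := h1 i
        have e2 : τ (PowerSeries.coeff n (u i)) =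
          ((ψ (PowerSeries.coeff n (u (π i))) : ℝ) : ℂ) := h3 i n
        have e3 : ∏ j ∈ Finset.univ.erase i, τ (δ j ^ 2) =
            ∏ j ∈ Finset.univ.erase i, ((D (π j) : ℝ) : ℂ) ^ 2 := by
          refine Finset.prod_congr rfl fun j _ => ?_
          rw [map_pow]
          congr 1
          exact h2 j
        rw [e1, e2, e3]
      have h5 : ∀ i, ∏ j ∈ Finset.univ.erase i, ((D (π j) : ℝ) : ℂ) ^ 2 =
          ∏ j ∈ Finset.univ.erase (π i), ((D j : ℝ) : ℂ) ^ 2 := by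
        intro i
        refine Finset.prod_equiv π ?_ fun j _ => rfl
        intro j
        rw [Finset.mem_erase, Finset.mem_erase]
        simp
      have h6 : τ a = ∑ i, ((y i : ℝ) : ℂ) *
          (∏ j ∈ Finset.univ.erase i, ((D j : ℝ) : ℂ) ^ 2) ^ n *
          ((ψ (PowerSeries.coeff n (u i)) : ℝ) : ℂ) := by
        rw [h4, ← Equiv.sum_comp π fun i => ((y i : ℝ) : ℂ) *
          (∏ j ∈ Finset.univ.erase i, ((D j : ℝ) : ℂ) ^ 2) ^ n *
          ((ψ (PowerSeries.coeff n (u i)) : ℝ) : ℂ)]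
        refine Finset.sum_congr rfl fun i _ => ?_
        rw [h5]
      have h7 : σ (a : k) = τ a := rfl
      rw [h7, h6, ← hψa, hψaa]
      push_cast
      rfl
    refine ⟨z, ?_⟩
    rw [hz, ← hψa, hψaa, map_sum, Int.cast_one, one_mul, Finset.mul_sum]
    refine Finset.sum_congr rfl fun i _ => ?_
    rw [hWu, PowerSeries.coeff_C_mul, hΔD, ← Finset.mul_prod_erase Finset.univ
      (fun j => D j ^ 2) (Finset.mem_univ i), mul_pow]
    ring

end Pool.Agent.H87.SA
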