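import Pool.Agent.H87.SA.SDefs

/-! # [SA-FLD] The field generated by the real roots of a split polynomial

`p ∈ ℤ[X]` with `p = ∏ (X - y_i)` over `ℝ`, `y_i` distinct real numbers; `p` is monic
(`Polynomial.monic_prod_of_monic` and `Polynomial.Monic` descends along the injection `ℤ → ℝ`).
Take `k = IntermediateField.adjoin ℚ (Set.range y)` (a subfield of `ℝ`), `ι = k.val` (as ring
homomorphism); it is finite dimensional (`IntermediateField.finiteDimensional_adjoin`, the `y_i` are
integral over `ℤ`, hence over `ℚ`), so a number field (characteristic zero). `yo i` is the element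
`y_i` of `k`, integral over `ℤ` (the embedding `ι` is injective: `isIntegral_algHom_iff` over `ℤ`).
Permutations: for `σ : k →+* ℂ`: `σ (yo i)` is a root of `p` in `ℂ`, and over `ℂ`,
`p = ∏ (X - C (y_j : ℂ))` (map the identity over `ℝ` by `Complex.ofRealHom`), so `σ (yo i) = y_j` for a
`j =: π i`; `π` is injective (`σ` injective, `y` injective), hence a permutation
(`Equiv.ofBijective`, `Finite.injective_iff_bijective`).
Last statement: two ring homomorphisms `k → ℂ` which agree at the generators `y_i` are equal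
(they are `ℚ`-algebra homomorphisms, `RingHom.toRatAlgHom`, and
`IntermediateField.algHom_ext_of_eq_adjoin` or `IntermediateField.adjoin` induction: the set where
they agree is a subfield containing `ℚ` and the `y_i`).
Degree: `finrank ℚ k = card (k →+* ℂ)` (`NumberField.Embeddings.card`) and `σ ↦ π` is injective by the
last statement, `card (Equiv.Perm (Fin d)) = d!`. -/

namespace Pool.Agent.H87.SA

open Finset Polynomial NumberField

theorem exists_field {d : ℕ} {y : Fin d → ℝ} (hy : Function.Injective y) {p : ℤ[X]}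
    (hp : p.map (Int.castRingHom ℝ) = ∏ i, (X - C (y i))) :
    ∃ (k : Type) (_ : Field k) (_ : NumberField k) (ι : k →+* ℝ) (yo : Fin d → 𝓞 k),
      (∀ i, ι (yo i : k) = y i) ∧ Module.finrank ℚ k ≤ d.factorial ∧
      (∀ σ : k →+* ℂ, ∃ π : Equiv.Perm (Fin d), ∀ i, σ (yo i : k) = ((y (π i) : ℝ) : ℂ)) ∧
      (∀ σ τ : k →+* ℂ, (∀ i, σ (yo i : k) = τ (yo i : k)) → σ = τ) := by
  have hmon : p.Monic := by
    apply Polynomial.monic_of_injective (f := Int.castRingHom ℝ) Int.cast_injective
    rw [hp]
    exact monic_prod_of_monic _ _ fun i _ => monic_X_sub_C _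
  have hroot : ∀ i, eval₂ (Int.castRingHom ℝ) (y i) p = 0 := by
    intro i
    rw [← eval_map, hp, eval_prod]
    exact Finset.prod_eq_zero (mem_univ i) (by simp)
  have hyint : ∀ i, IsIntegral ℤ (y i) := by
    intro i
    refine ⟨p, hmon, ?_⟩
    have : algebraMap ℤ ℝ = Int.castRingHom ℝ := RingHom.ext_int _ _
    rw [this]
    exact hroot i
  obtain ⟨K, hK⟩ : ∃ K : IntermediateField ℚ ℝ, K = IntermediateField.adjoin ℚ (Set.range y) :=
    ⟨_, rfl⟩
  have hfd : FiniteDimensional ℚ K := by
    rw [hK]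
    apply IntermediateField.finiteDimensional_adjoin
    rintro x ⟨i, rfl⟩
    exact (hyint i).tower_top
  have hnf : NumberField K := { to_charZero := inferInstance, to_finiteDimensional := hfd }
  have hmem : ∀ i, y i ∈ K := by
    intro i
    rw [hK]
    exact IntermediateField.subset_adjoin _ _ ⟨i, rfl⟩
  obtain ⟨yk, hyk⟩ : ∃ yk : Fin d → K, ∀ i, algebraMap K ℝ (yk i) = y i :=
    ⟨fun i => ⟨y i, hmem i⟩, fun i => rfl⟩
  have hinj : Function.Injective (algebraMap K ℝ) := (algebraMap K ℝ).injective
  have hykint : ∀ i, IsIntegral ℤ (yk i) := by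
    intro i
    rw [← isIntegral_algebraMap_iff (B := ℝ) hinj, hyk]
    exact hyint i
  obtain ⟨yo, hyo⟩ : ∃ yo : Fin d → 𝓞 K, ∀ i, (yo i : K) = yk i :=
    ⟨fun i => ⟨yk i, hykint i⟩, fun i => rfl⟩
  have hkroot : ∀ i, eval₂ (Int.castRingHom K) (yk i) p = 0 := by
    intro i
    apply hinj
    rw [Polynomial.hom_eval₂, hyk, map_zero]
    have : (algebraMap K ℝ).comp (Int.castRingHom K) = Int.castRingHom ℝ := RingHom.ext_int _ _
    rw [this]
    exact hroot i
  have hpC : p.map (Int.castRingHom ℂ) = ∏ i, (X - C ((y i : ℝ) : ℂ)) := by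
    have h1 : (Complex.ofRealHom).comp (Int.castRingHom ℝ) = Int.castRingHom ℂ :=
      RingHom.ext_int _ _
    rw [← h1, ← Polynomial.map_map, hp, Polynomial.map_prod]
    apply Finset.prod_congr rfl
    intro i _
    simp
  have hperm : ∀ σ : K →+* ℂ, ∃ π : Equiv.Perm (Fin d), ∀ i, σ (yk i) = ((y (π i) : ℝ) : ℂ) := by
    intro σ
    have h1 : ∀ i, ∃ j, σ (yk i) = ((y j : ℝ) : ℂ) := by
      intro i
      have h2 : eval (σ (yk i)) (p.map (Int.castRingHom ℂ)) = 0 := by
        rw [eval_map]
        have h3 : σ.comp (Int.castRingHom K) = Int.castRingHom ℂ := RingHom.ext_int _ _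
        rw [← h3, ← Polynomial.hom_eval₂, hkroot i, map_zero]
      rw [hpC, eval_prod, Finset.prod_eq_zero_iff] at h2
      obtain ⟨j, -, hj⟩ := h2
      refine ⟨j, ?_⟩
      rw [eval_sub, eval_X, eval_C, sub_eq_zero] at hj
      exact hj
    choose π hπ using h1
    have hπi : Function.Injective π := by
      intro i j hij
      have h2 : σ (yk i) = σ (yk j) := by rw [hπ, hπ, hij]
      have h3 := σ.injective h2
      apply hy
      rw [← hyk, ← hyk, h3]
    refine ⟨Equiv.ofBijective π (Finite.injective_iff_bijective.1 hπi), ?_⟩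
    intro i
    exact hπ i
  have huniq : ∀ σ τ : K →+* ℂ, (∀ i, σ (yk i) = τ (yk i)) → σ = τ := by
    intro σ τ h
    have h1 : RingHom.toRatAlgHom σ = RingHom.toRatAlgHom τ := by
      apply IntermediateField.algHom_ext_of_eq_adjoin (hS := hK)
      rintro x ⟨i, rfl⟩
      have h2 : (⟨y i, hmem i⟩ : K) = yk i := by
        apply hinj
        rw [hyk]
        rfl
      show σ ⟨y i, _⟩ = τ ⟨y i, _⟩
      rw [h2]
      exact h i
    have h2 := congrArg (fun f : K →ₐ[ℚ] ℂ => (f : K →+* ℂ)) h1
    simpa using h2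
  refine ⟨K, inferInstance, hnf, algebraMap K ℝ, yo, ?_, ?_, ?_, ?_⟩
  · intro i
    rw [hyo, hyk]
  · rw [← NumberField.Embeddings.card K ℂ]
    choose π hπ using hperm
    have h1 : Function.Injective π := by
      intro σ τ h
      apply huniq
      intro i
      rw [hπ, hπ, h]
    have h2 := Fintype.card_le_of_injective π h1
    rw [Fintype.card_perm, Fintype.card_fin] at h2
    exact h2
  · intro σ
    obtain ⟨π, hπ⟩ := hperm σ
    refine ⟨π, fun i => ?_⟩
    rw [hyo]
    exact hπ i
  · intro σ τ h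
    apply huniq
    intro i
    rw [← hyo]
    exact h i

end Pool.Agent.H87.SA
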