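import Pool.Agent.H87.SA.SDefs

/-! # [SA-NFG] A factor of small degree over the ring of integers of the anchor field

`g1 = minpoly (𝓞 k) θ`, where `ℝ` is an algebra over `k` and `𝓞 k` through `ι`
(`RingHom.toAlgebra`; `IsScalarTower (𝓞 k) k ℝ`). `θ` is integral over `𝓞 k` (root of the monic `f`), so
`g1` is monic, `g1 ∣ f.map` (`minpoly.isIntegrallyClosed_dvd`, `𝓞 k` is integrally closed and `ℝ` is
torsion free over it) and `g1 (θ) = 0` (`minpoly.aeval`). Degree: `minpoly k θ = g1.map`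
(`minpoly.isIntegrallyClosed_eq_field_fractions`), so `natDegree g1 = natDegree (minpoly k θ)`.
`K0 = ℚ⟮ξ⟯ ⊆ ℚ⟮θ⟯` (subfields of `ℝ`), `[ℚ⟮θ⟯ : ℚ] = n` (`f` is monic irreducible over `ℤ`, hence over
`ℚ` by Gauss: `Polynomial.Monic.irreducible_iff_irreducible_map_fraction_map`,
`minpoly ℚ θ = f.map`, `IntermediateField.adjoin.finrank`), `[K0 : ℚ] = natDegree (minpoly ℚ ξ) ≥ 3`.
`r = natDegree (minpoly K0 θ) = [K0(θ) : K0] = n / [K0 : ℚ]`, because `K0(θ) = ℚ⟮θ⟯` as `ξ ∈ ℚ⟮θ⟯`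
(e.g. `IntermediateField.adjoin_simple_adjoin_simple`/`Module.finrank_mul_finrank`, so
`r * [K0 : ℚ] = n` and `3 r ≤ n`). The polynomial `minpoly K0 θ` has coefficients in `K0 ⊆ ι(k)`
(`ξ = ι a`): there is a ring homomorphism `K0 →+* k` compatible with the embeddings to `ℝ` (invert
`ι` on its range, `RingHom.rangeRestrict` is bijective), so `minpoly k θ` divides the image of
`minpoly K0 θ`, and has degree `≤ r`.
(Alternative without `K0(θ)`: `ξ = P(θ)` for some `P ∈ ℚ[X]`; let `m_ξ = minpoly ℚ ξ`; ...). -/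

namespace Pool.Agent.H87.SA

open Finset Polynomial NumberField

/-- degree over the field generated by `ξ` -/
theorem deg_K0 {n : ℕ} {f : ℤ[X]} (hm : f.Monic) (hd : f.natDegree = n) (θ : ℝ)
    (hθ : aeval θ f = 0) (ξ : ℝ) (hξ1 : ξ ∈ IntermediateField.adjoin ℚ {θ})
    (hξ3 : 3 ≤ (minpoly ℚ ξ).natDegree) :
    3 * (minpoly (IntermediateField.adjoin ℚ {ξ}) θ).natDegree ≤ n := by
  have hint : IsIntegral ℤ θ := ⟨f, hm, hθ⟩
  have hintQ : IsIntegral ℚ θ := hint.tower_top
  have hintK : IsIntegral (IntermediateField.adjoin ℚ {ξ}) θ := hintQ.tower_top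
  have hξint : IsIntegral ℚ ξ := by
    by_contra h
    rw [minpoly.eq_zero h, natDegree_zero] at hξ3
    omega
  set K0 := IntermediateField.adjoin ℚ {ξ} with hK0
  set E := IntermediateField.adjoin K0 {θ} with hE
  have e1 : Module.finrank K0 E = (minpoly K0 θ).natDegree :=
    IntermediateField.adjoin.finrank hintK
  have e2 : Module.finrank ℚ K0 = (minpoly ℚ ξ).natDegree :=
    IntermediateField.adjoin.finrank hξint
  have e3 : Module.finrank ℚ K0 * Module.finrank K0 E = Module.finrank ℚ E :=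
    Module.finrank_mul_finrank ℚ K0 E
  have e4 : E.restrictScalars ℚ = IntermediateField.adjoin ℚ {θ} := by
    have e4' : E.restrictScalars ℚ = IntermediateField.adjoin ℚ {ξ, θ} :=
      IntermediateField.adjoin_simple_adjoin_simple ℚ ξ θ
    rw [e4']
    apply le_antisymm
    · rw [IntermediateField.adjoin_le_iff]
      intro x hx
      rcases hx with rfl | hx
      · exact hξ1
      · rw [Set.mem_singleton_iff] at hx
        rw [hx]
        exact IntermediateField.mem_adjoin_simple_self ℚ θ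
    · apply IntermediateField.adjoin.mono
      intro x hx
      rw [Set.mem_singleton_iff] at hx
      rw [hx]
      simp
  have e5 : Module.finrank ℚ E = Module.finrank ℚ (IntermediateField.adjoin ℚ {θ}) := by
    rw [← e4]
    rfl
  have e6 : Module.finrank ℚ (IntermediateField.adjoin ℚ {θ}) = (minpoly ℚ θ).natDegree :=
    IntermediateField.adjoin.finrank hintQ
  have e7 : (minpoly ℚ θ).natDegree ≤ n := by
    have h1 : minpoly ℚ θ ∣ f.map (algebraMap ℤ ℚ) := by
      apply minpoly.dvd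
      rw [aeval_map_algebraMap]
      exact hθ
    have h2 := natDegree_le_of_dvd h1 (hm.map (algebraMap ℤ ℚ)).ne_zero
    rw [hm.natDegree_map, hd] at h2
    exact h2
  rw [e1, e2, e5, e6] at e3
  have h3 := Nat.mul_le_mul_right (minpoly K0 θ).natDegree hξ3
  omega

/-- the degree over `k` is at most the degree over the field generated by `ξ` -/
theorem deg_le_K0 {k : Type} [Field k] [NumberField k] (ι : k →+* ℝ) {θ : ℝ}
    (hint : IsIntegral ℤ θ) {ξ : ℝ} (hξ2 : ∃ a : k, ι a = ξ) :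
    (@minpoly k ℝ _ _ ι.toAlgebra θ).natDegree ≤
      (minpoly (IntermediateField.adjoin ℚ {ξ}) θ).natDegree := by
  let algk : Algebra k ℝ := ι.toAlgebra
  have hintQ : IsIntegral ℚ θ := hint.tower_top
  have hintK : IsIntegral (IntermediateField.adjoin ℚ {ξ}) θ := hintQ.tower_top
  let ι' : k →ₐ[ℚ] ℝ := RingHom.toRatAlgHom ι
  have hle : IntermediateField.adjoin ℚ {ξ} ≤ ι'.fieldRange := by
    rw [IntermediateField.adjoin_simple_le_iff]
    obtain ⟨a, ha⟩ := hξ2
    exact ⟨a, ha⟩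
  have hle' : (IntermediateField.adjoin ℚ {ξ}).toSubalgebra ≤ ι'.range := fun x hx => hle hx
  let φ : (IntermediateField.adjoin ℚ {ξ}).toSubalgebra →ₐ[ℚ] k :=
    ((AlgEquiv.ofInjectiveField ι').symm : ι'.range →ₐ[ℚ] k).comp (Subalgebra.inclusion hle')
  have hφ : ∀ x : (IntermediateField.adjoin ℚ {ξ}), ι (φ x) = (x : ℝ) := by
    intro x
    have h1 := (AlgEquiv.ofInjectiveField ι').apply_symm_apply (Subalgebra.inclusion hle' x)
    have h2 := congrArg (Subtype.val) h1
    exact h2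
  let algφ : Algebra (IntermediateField.adjoin ℚ {ξ}) k := φ.toRingHom.toAlgebra
  have tower : IsScalarTower (IntermediateField.adjoin ℚ {ξ}) k ℝ :=
    IsScalarTower.of_algebraMap_eq (fun x => (hφ x).symm)
  have h1 := minpoly.dvd_map_of_isScalarTower (IntermediateField.adjoin ℚ {ξ}) k θ
  have h2 := natDegree_le_of_dvd h1 ((minpoly.monic hintK).map _).ne_zero
  rw [(minpoly.monic hintK).natDegree_map] at h2
  exact h2

theorem exists_fac {k : Type} [Field k] [NumberField k] (ι : k →+* ℝ) {n : ℕ} {f : ℤ[X]}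
    (hm : f.Monic) (hd : f.natDegree = n) (hf : Irreducible f) (θ : ℝ) (hθ : aeval θ f = 0) (ξ : ℝ)
    (hξ1 : ξ ∈ IntermediateField.adjoin ℚ {θ}) (hξ2 : ∃ a : k, ι a = ξ)
    (hξ3 : 3 ≤ (minpoly ℚ ξ).natDegree) :
    ∃ g1 : (𝓞 k)[X], g1.Monic ∧ 0 < g1.natDegree ∧ 3 * g1.natDegree ≤ n ∧
      g1 ∣ f.map (algebraMap ℤ (𝓞 k)) ∧ eval₂ (ι.comp (algebraMap (𝓞 k) k)) θ g1 = 0 := by
  have hint : IsIntegral ℤ θ := ⟨f, hm, hθ⟩
  -- algebra structures
  let algk : Algebra k ℝ := ι.toAlgebra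
  let algO : Algebra (𝓞 k) ℝ := (ι.comp (algebraMap (𝓞 k) k)).toAlgebra
  have tower : IsScalarTower (𝓞 k) k ℝ := IsScalarTower.of_algebraMap_eq (fun x => rfl)
  have inj : FaithfulSMul (𝓞 k) ℝ := by
    rw [faithfulSMul_iff_algebraMap_injective]
    exact ι.injective.comp (FaithfulSMul.algebraMap_injective (𝓞 k) k)
  have hev : aeval θ (f.map (algebraMap ℤ (𝓞 k))) = 0 := by
    rw [aeval_map_algebraMap]
    exact hθ
  have hintO : IsIntegral (𝓞 k) θ := ⟨f.map (algebraMap ℤ (𝓞 k)), hm.map _, hev⟩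
  refine ⟨minpoly (𝓞 k) θ, minpoly.monic hintO, minpoly.natDegree_pos hintO, ?_,
    minpoly.isIntegrallyClosed_dvd hintO hev, minpoly.aeval (𝓞 k) θ⟩
  have h1 : minpoly k θ = (minpoly (𝓞 k) θ).map (algebraMap (𝓞 k) k) :=
    minpoly.isIntegrallyClosed_eq_field_fractions' k hintO
  have h2 : (minpoly (𝓞 k) θ).natDegree = (minpoly k θ).natDegree := by
    rw [h1, (minpoly.monic hintO).natDegree_map]
  rw [h2]
  have h3 := deg_le_K0 ι hint hξ2
  have h4 := deg_K0 hm hd θ hθ ξ hξ1 hξ3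
  exact (Nat.mul_le_mul_left 3 h3).trans h4

end Pool.Agent.H87.SA
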