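import Pool.Agent.H87.SA.SDefs
import Pool.Agent.H8.KF.JointEx

/-! # [SA-OVER] The common overring with integer coordinates

Adapt `Pool.Agent.H8.KF.exists_joint` (`Pool/Agent/H8/KF/JointEx.lean`, proved), with only one
extension: `A = 𝓞 k`, `νA = house` (`house_subMul`), `g1` the given monic factor, `ρ = Q^(2n+2)`
(`coeff_house`), `L = AdjoinRoot g1`, `ν, c1` from `adj_norm` (`c1 : L →+ (Fin g1.natDegree → 𝓞 k)`
injective, size bounded). `JE = AdjoinRoot.of g1`, `φ = AdjoinRoot.lift (ι.comp (algebraMap ..)) θ _`,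
`s = AdjoinRoot.root g1` is a root of `f` (`joint_root`), `O, JO` from `exists_ord_gen`
(`ν s ≤ ρ`, `ν (JO b) ≤ ρ^n O.ν b ≤ bb n Q O.ν b`, `joint_pow`). `m = g1.natDegree * D`,
coordinates `c0 (c1 s i) j`, indexed by `finProdFinEquiv.symm`. Size:
`|c0 (c1 (JE a * JO b) i) j| ≤ C0 house (c1 ..) ≤ C0 ν (JE a) ν (JO b) ≤ C0 house a bb O.ν b`
(`ν (of a) ≤ house a`). -/

namespace Pool.Agent.H87.SA

open Finset Polynomial NumberField Pool.Agent.H72.ES Pool.Agent.H8.KF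

theorem exists_over {k : Type} [Field k] [NumberField k] (ι : k →+* ℝ) {n Q : ℕ} {f : ℤ[X]}
    (hn : 4 ≤ n) (hQ : 2 ^ n ≤ Q) (hm : f.Monic) (hd : f.natDegree = n)
    (hb : ∀ j, |f.coeff j| ≤ (Q : ℤ)) (hf : Irreducible f) (θ : ℝ) (hθ : aeval θ f = 0)
    (g1 : (𝓞 k)[X]) (hg1 : g1.Monic) (hg0 : 0 < g1.natDegree) (hg3 : 3 * g1.natDegree ≤ n)
    (hgf : g1 ∣ f.map (algebraMap ℤ (𝓞 k)))
    (hgθ : eval₂ (ι.comp (algebraMap (𝓞 k) k)) θ g1 = 0) {C0 : ℝ} (hC0 : 1 ≤ C0)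
    (c0 : 𝓞 k →+ (Fin (Module.finrank ℚ k) → ℤ)) (hc0 : Function.Injective c0)
    (hcb : ∀ a i, |((c0 a i : ℤ) : ℝ)| ≤ C0 * house (a : k)) :
    ∃ (O : Ord ℝ n Q f θ) (m : ℕ) (L : Type) (_ : CommRing L) (JE : 𝓞 k →+* L) (JO : O.R →+* L)
      (φ : L →+* ℝ) (coord : L →+ (Fin m → ℤ)), 3 * m ≤ n * Module.finrank ℚ k ∧
      Function.Injective coord ∧ (∀ a, φ (JE a) = ι (a : k)) ∧ (∀ a, φ (JO a) = O.φ a) ∧
      ∀ a b i, |((coord (JE a * JO b) i : ℤ) : ℝ)| ≤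
        C0 * bb n Q * (house (a : k) * O.ν b) := by
  have hA := house_subMul k
  have hQ1' : (1 : ℝ) ≤ Q := by
    have h2 : 1 ≤ 2 ^ n := Nat.one_le_two_pow
    exact_mod_cast h2.trans hQ
  obtain ⟨ν, hν, hof, hroot, c1, hc1, hcb1⟩ := adj_norm hA g1 hg1 hg0
    ((Q : ℝ) ^ (2 * n + 2)) (one_le_pow₀ hQ1') (coeff_house k hn hQ hm hd hb g1 hg1 hgf)
  have hsr : aeval (AdjoinRoot.root g1) f = 0 :=
    joint_root (AdjoinRoot.of g1) (AdjoinRoot.root g1) f g1 hgf (AdjoinRoot.eval₂_root g1)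
  let φ : AdjoinRoot g1 →+* ℝ := AdjoinRoot.lift (ι.comp (algebraMap (𝓞 k) k)) θ hgθ
  have hφs : φ (AdjoinRoot.root g1) = θ := AdjoinRoot.lift_root _
  obtain ⟨O, hO⟩ := exists_ord_gen hn hQ hm hd hb hf θ hθ
  obtain ⟨J, hJ, hJ'⟩ := hO (AdjoinRoot g1) (AdjoinRoot.root g1) hsr
  let cc : AdjoinRoot g1 →+ (Fin (g1.natDegree * Module.finrank ℚ k) → ℤ) :=
    { toFun := fun s i => c0 (c1 s (finProdFinEquiv.symm i).1) (finProdFinEquiv.symm i).2
      map_zero' := by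
        funext i
        simp
      map_add' := by
        intro x y
        funext i
        simp }
  refine ⟨O, g1.natDegree * Module.finrank ℚ k, AdjoinRoot g1, inferInstance, AdjoinRoot.of g1,
    J, φ, cc, ?_, ?_, ?_, hJ' φ hφs, ?_⟩
  · rw [← mul_assoc]
    exact Nat.mul_le_mul_right _ hg3
  · intro x y hxy
    apply hc1
    funext i
    apply hc0
    funext l
    have h := congrFun hxy (finProdFinEquiv (i, l))
    have e : ∀ s, cc s (finProdFinEquiv (i, l)) = c0 (c1 s i) l := by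
      intro s
      show c0 (c1 s (finProdFinEquiv.symm (finProdFinEquiv (i, l))).1)
        (finProdFinEquiv.symm (finProdFinEquiv (i, l))).2 = c0 (c1 s i) l
      rw [Equiv.symm_apply_apply]
    rw [e, e] at h
    exact h
  · intro a
    exact AdjoinRoot.lift_of _
  · intro a b i
    have e1 := hcb (c1 (AdjoinRoot.of g1 a * J b) (finProdFinEquiv.symm i).1)
      (finProdFinEquiv.symm i).2
    have e2 := hcb1 (AdjoinRoot.of g1 a * J b) (finProdFinEquiv.symm i).1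
    have e4 := hν.mul (AdjoinRoot.of g1 a) (J b)
    have e5 := hof a
    have e6 := hJ ν hν _ (one_le_pow₀ hQ1') hroot b
    have p1 := joint_pow hn hQ
    have n2 := O.ν_nonneg b
    have e8 : ν (J b) ≤ bb n Q * O.ν b :=
      e6.trans (mul_le_mul_of_nonneg_right p1 n2)
    have hb1 : 0 ≤ house (algebraMap (𝓞 k) k a) := (hν.nonneg _).trans e5
    have hC : 0 ≤ C0 := by linarith
    calc |((cc (AdjoinRoot.of g1 a * J b) i : ℤ) : ℝ)|
        ≤ C0 * house (algebraMap (𝓞 k) k (c1 (AdjoinRoot.of g1 a * J b)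
            (finProdFinEquiv.symm i).1)) := e1
      _ ≤ C0 * (house (algebraMap (𝓞 k) k a) * (bb n Q * O.ν b)) := by
          refine mul_le_mul_of_nonneg_left ?_ hC
          refine e2.trans (e4.trans ?_)
          exact mul_le_mul e5 e8 (hν.nonneg _) hb1
      _ = C0 * bb n Q * (house (algebraMap (𝓞 k) k a) * O.ν b) := by ring

end Pool.Agent.H87.SA
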