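import Pool.Agent.H87.SA.SDefs

/-! # [SA-SEP] Separation of the conjugates of `z = ∑ c_i y_i`

`y_i = N (c_i + ε_i)`, `|ε_i| ≤ 1/(8 d B)`. For a permutation `π`:
`∑ c_i (y_i - y_(π i)) = N (∑ c_i (c_i - c_(π i)) + ∑ c_i (ε_i - ε_(π i)))`,
`∑ c_i (c_i - c_(π i)) = 1/2 ∑ (c_i - c_(π i))²` (as `∑ c_(π i)² = ∑ c_i²`,
`Equiv.sum_comp`), which is `≥ 1/2` if `π ≠ 1` (a nonzero integer square; twice the sum is an
integer `≥ 1`), the second sum is at most `d B 2/(8 d B) = 1/4` in absolute value. So the total is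
`≥ N/4 > 0` if `π ≠ 1`. -/

namespace Pool.Agent.H87.SA

open Finset

theorem sep {d B N : ℕ} {c : Fin d → ℤ} (hc : Function.Injective c) (hB : 1 ≤ B)
    (hcB : ∀ i, |c i| ≤ (B : ℤ)) (hN : 1 ≤ N) {y : Fin d → ℝ}
    (hy : ∀ i, |y i - N * c i| * (8 * d * B) ≤ N) (π : Equiv.Perm (Fin d))
    (h0 : ∑ i, (c i : ℝ) * (y i - y (π i)) = 0) : π = 1 := by
  by_contra hπ
  have hNR : (1 : ℝ) ≤ N := by exact_mod_cast hN
  have hBR : (1 : ℝ) ≤ B := by exact_mod_cast hB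
  -- some point is moved
  obtain ⟨i0, hi0⟩ : ∃ i, π i ≠ i := by
    by_contra hcon
    push Not at hcon
    exact hπ (Equiv.ext hcon)
  have hd : 0 < d := lt_of_le_of_lt (Nat.zero_le _) i0.2
  have hdR : (0 : ℝ) < d := by exact_mod_cast hd
  -- the integer sum
  obtain ⟨S, hS⟩ : ∃ S : ℤ, S = ∑ i, c i * (c i - c (π i)) := ⟨_, rfl⟩
  have h2S : 2 * S = ∑ i, (c i - c (π i)) ^ 2 := by
    have h1 : ∑ i, c (π i) ^ 2 = ∑ i, c i ^ 2 := Equiv.sum_comp π (fun i => c i ^ 2)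
    have h2 : ∑ i, (c i - c (π i)) ^ 2 =
        ∑ i, (2 * (c i * (c i - c (π i))) + (c (π i) ^ 2 - c i ^ 2)) :=
      sum_congr rfl fun i _ => by ring
    rw [h2, sum_add_distrib, ← mul_sum, sum_sub_distrib, h1, sub_self, add_zero, hS]
  have hS1 : 1 ≤ S := by
    have h1 : 0 < ∑ i, (c i - c (π i)) ^ 2 := by
      refine sum_pos' (fun i _ => sq_nonneg _) ⟨i0, mem_univ _, ?_⟩
      have h2 : c i0 - c (π i0) ≠ 0 := by
        rw [sub_ne_zero]
        intro h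
        exact hi0 (hc h).symm
      positivity
    omega
  have hS1R : (1 : ℝ) ≤ S := by exact_mod_cast hS1
  -- the errors
  obtain ⟨δ, hδ⟩ : ∃ δ : Fin d → ℝ, ∀ i, δ i = y i - N * c i := ⟨_, fun _ => rfl⟩
  have hsum : ∑ i, (c i : ℝ) * (y i - y (π i)) =
      N * (S : ℝ) + ∑ i, (c i : ℝ) * (δ i - δ (π i)) := by
    rw [hS]
    push_cast
    rw [mul_sum, ← sum_add_distrib]
    refine sum_congr rfl fun i _ => ?_
    rw [hδ, hδ]
    ring
  have hδsum : ∑ i, |δ i| * (8 * B) ≤ N := by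
    have h1 : ∑ i, |δ i| * (8 * d * B) ≤ ∑ _i : Fin d, (N : ℝ) := by
      refine sum_le_sum fun i _ => ?_
      rw [hδ]
      exact hy i
    rw [sum_const, card_univ, Fintype.card_fin, nsmul_eq_mul] at h1
    have h2 : ∑ i, |δ i| * (8 * d * B) = d * ∑ i, |δ i| * (8 * B) := by
      rw [mul_sum]
      refine sum_congr rfl fun i _ => ?_
      ring
    rw [h2] at h1
    exact le_of_mul_le_mul_left h1 hdR
  have herr : |∑ i, (c i : ℝ) * (δ i - δ (π i))| ≤ N / 4 := by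
    have h1 : |∑ i, (c i : ℝ) * (δ i - δ (π i))| ≤ ∑ i, (B : ℝ) * (|δ i| + |δ (π i)|) := by
      refine (abs_sum_le_sum_abs _ _).trans (sum_le_sum fun i _ => ?_)
      rw [abs_mul]
      have h2 : |(c i : ℝ)| ≤ B := by
        have := hcB i
        have h3 : ((|c i| : ℤ) : ℝ) ≤ ((B : ℤ) : ℝ) := by exact_mod_cast this
        rw [Int.cast_abs] at h3
        simpa using h3
      exact mul_le_mul h2 (abs_sub _ _) (abs_nonneg _) (by positivity)
    have h4 : ∑ i, |δ (π i)| = ∑ i, |δ i| := Equiv.sum_comp π (fun i => |δ i|)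
    have h5 : ∑ i, (B : ℝ) * (|δ i| + |δ (π i)|) = (∑ i, |δ i| * (8 * B)) / 4 := by
      rw [← mul_sum, sum_add_distrib, h4, ← sum_mul]
      ring
    rw [h5] at h1
    linarith
  rw [hsum] at h0
  have h6 := (abs_le.1 herr).1
  nlinarith

end Pool.Agent.H87.SA
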