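import Pool.Agent.H87.SA.TayB

/-! # [SA-TAYC] The Taylor expansion is a ring homomorphism

Key fact (expansion): for `Cv h a` and every `K` there is `V` with `Cv h V` and
`a = ∑_{i<K} C (coeff i (tay h a)) (X - C h)^i + (X - C h)^K V` (`V = (dvh h)^[K] a`; induction with
`dvh_spec`, `tay_coeff_zero`, `tay_coeff_succ`), and uniqueness: if
`∑_{i<K} C (w_i) (X - C h)^i = (X - C h)^K V` with `Cv h V` then all `w_i = 0`, `i < K` (induction,
`evl`, cancellation). Hence `tay_mul`: both sides are congruent modulo `(X - C h)^K` (multiply the two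
expansions; `(∑_{i<K} C a_i Y^i)(∑ C b_j Y^j) = ∑_{k<K} C(∑_{i+j=k} a_i b_j) Y^k + Y^K (..)`).
Alternative proof of `tay_mul` from the recursion only: by induction on `k`, for all `a, b`:
`coeff k (tay (a b)) = ∑_{i+j=k} ..`: `a b = (α + Y a')(β + Y b')` with `α = evl a`, `a' = dvh a`:
`dvh (a b) = α b' + β a' + Y a' b'`, i.e. `dvh (ab) = a b' + β a'` (by `dvh_unique`), so
`tay(ab)_{k+1} = tay(dvh(ab))_k = tay(a b')_k + β tay(a')_k
= ∑_{i+j=k} tay(a)_i tay(b')_j + β tay(a')_k = ∑_{i+j=k+1, j ≥ 1} tay(a)_i tay(b)_j + tay(a)_{k+1} tay(b)_0`.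
This is short. `tay_add`: `tsum_add`. `tay_deriv`: direct:
`(i+1) tay(a)_{i+1} = ∑_m (i+1) binom(i+1+m, i+1) a_{i+1+m} h^m`,
`tay(a')_i = ∑_m binom(i+m,i) (i+m+1) a_{i+m+1} h^m`, and `(i+1) binom(i+1+m,i+1) =
(i+m+1) binom(i+m,i)` (`Nat.succ_mul_choose_eq`).
`tay_C`, `tay_X`: `tay h (C c)` has coefficients `c, 0, 0, ...`; `tay h X = C h + X`
(or with `tay_coeff_succ`, `dvh_unique`).
`div_pow`: induction on `K` generalising `a`: coefficient `0` of `tay h a` is `0`, so
`a = (X - C h) dvh h a`, `tay h a = X * tay h (dvh h a)`; bounds from `geo_dvh`.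
`tay_inj`: if `tay h a = 0` then for all `K`: `a = (X - C h)^K V_K`, `Geo ((2R)^K A) R V_K`. To get the
hypothesis `R h ≤ 1/2` is not always possible; instead: if `a ≠ 0` let `k_0` be its order; compare:
evaluate differently: `tay_inj` is only needed for `Geo A R a` with `2 R h ≤ 1/2`:
`|a_{k0}| = h^K |coeff k0 V_K| ≤ (2 R h)^K A R^k0 → 0` (coefficients of `a` below `k_0` vanish, hence
those of `V_K` too, as `(X - C h)^K` has nonzero constant coefficient when `h ≠ 0`). -/

namespace Pool.Agent.H87.SA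

open Finset Pool.Agent.H72.ES

theorem tay_add {h : ℝ} (hh : 0 ≤ h) {a b : PowerSeries ℝ} (ha : Cv h a) (hb : Cv h b) :
    tay h (a + b) = tay h a + tay h b := by
  ext i
  rw [map_add]
  simp only [tay, PowerSeries.coeff_mk]
  rw [← Summable.tsum_add (ha.summable_choose hh i).of_norm (hb.summable_choose hh i).of_norm]
  refine tsum_congr (fun m => ?_)
  rw [map_add]
  ring

theorem tay_C (h c : ℝ) : tay h (PowerSeries.C c) = PowerSeries.C c := by
  ext i
  simp only [tay, PowerSeries.coeff_mk, PowerSeries.coeff_C]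
  rw [tsum_eq_single 0]
  · by_cases hi : i = 0
    · subst hi
      simp
    · simp [hi]
  · intro m hm
    rw [if_neg (by omega)]
    simp

theorem tay_X (h : ℝ) : tay h PowerSeries.X = PowerSeries.C h + PowerSeries.X := by
  ext i
  rw [map_add]
  simp only [tay, PowerSeries.coeff_mk, PowerSeries.coeff_C, PowerSeries.coeff_X]
  rcases i with _ | i
  · rw [tsum_eq_single 1]
    · simp
    · intro m hm
      rw [if_neg (by omega)]
      simp
  · rw [tsum_eq_single 0]
    · rcases i with _ | i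
      · simp
      · simp
    · intro m hm
      rw [if_neg (by omega)]
      simp

theorem coeff_tay_mul {h : ℝ} (hh : 0 ≤ h) (k : ℕ) : ∀ {a b : PowerSeries ℝ}, Cv h a → Cv h b →
    PowerSeries.coeff k (tay h (a * b)) =
      ∑ p ∈ antidiagonal k, PowerSeries.coeff p.1 (tay h a) * PowerSeries.coeff p.2 (tay h b) := by
  induction k with
  | zero =>
    intro a b ha hb
    rw [tay_coeff_zero, evl_mul hh ha hb]
    simp [tay_coeff_zero]
  | succ k ih =>
    intro a b ha hb
    have hab : Cv h (a * b) := Cv.mul hh ha hb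
    have hV : Cv h (PowerSeries.C (evl h b) * dvh h a + a * dvh h b) :=
      Cv.add hh (Cv.mul hh (Cv.C h _) (cv_dvh hh ha)) (Cv.mul hh ha (cv_dvh hh hb))
    have hsp : a * b = PowerSeries.C (evl h a * evl h b) + (PowerSeries.X - PowerSeries.C h) *
        (PowerSeries.C (evl h b) * dvh h a + a * dvh h b) := by
      have h1 := dvh_spec hh ha
      have h2 := dvh_spec hh hb
      rw [map_mul]
      have h3 : a * b = a * (PowerSeries.C (evl h b) +
          (PowerSeries.X - PowerSeries.C h) * dvh h b) := by rw [← h2]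
      have h4 : a * PowerSeries.C (evl h b) = (PowerSeries.C (evl h a) +
          (PowerSeries.X - PowerSeries.C h) * dvh h a) * PowerSeries.C (evl h b) := by rw [← h1]
      rw [h3, mul_add, h4]
      ring
    have hd : PowerSeries.C (evl h b) * dvh h a + a * dvh h b = dvh h (a * b) :=
      (dvh_unique hh hV hsp).2
    rw [tay_coeff_succ hh hab, ← hd, tay_add hh (Cv.mul hh (Cv.C h _) (cv_dvh hh ha))
      (Cv.mul hh ha (cv_dvh hh hb)), map_add, ih (Cv.C h _) (cv_dvh hh ha),
      ih ha (cv_dvh hh hb), tay_C, Finset.Nat.sum_antidiagonal_succ']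
    congr 1
    · rw [Finset.sum_eq_single (0, k)]
      · simp only [PowerSeries.coeff_zero_C]
        rw [← tay_coeff_succ hh ha, tay_coeff_zero]
        ring
      · rintro ⟨i, j⟩ hij hne
        have hij : i + j = k := by simpa using hij
        have hi : i ≠ 0 := by
          rintro rfl
          apply hne
          rw [Prod.mk.injEq]
          exact ⟨rfl, by omega⟩
        simp only [PowerSeries.coeff_C]
        rw [if_neg hi, zero_mul]
      · intro hne
        exact absurd (by simp) hne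
    · refine Finset.sum_congr rfl (fun p _ => ?_)
      rw [tay_coeff_succ hh hb]

theorem tay_mul {h : ℝ} (hh : 0 ≤ h) {a b : PowerSeries ℝ} (ha : Cv h a) (hb : Cv h b) :
    tay h (a * b) = tay h a * tay h b := by
  ext k
  rw [PowerSeries.coeff_mul, coeff_tay_mul hh k ha hb]

/-- the Taylor expansion as a ring homomorphism -/
noncomputable def tayH (h : ℝ) (hh : 0 ≤ h) : cvs h hh →+* PowerSeries ℝ where
  toFun a := tay h a
  map_one' := by
    have := tay_C h 1
    simpa using this
  map_mul' a b := tay_mul hh a.2 b.2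
  map_zero' := by
    have := tay_C h 0
    simpa using this
  map_add' a b := tay_add hh a.2 b.2

theorem tay_deriv {h : ℝ} (hh : 0 ≤ h) {a : PowerSeries ℝ} (ha : Cv h a) :
    tay h (PowerSeries.derivative ℝ a) = PowerSeries.derivative ℝ (tay h a) := by
  ext i
  rw [PowerSeries.coeff_derivative]
  simp only [tay, PowerSeries.coeff_mk, PowerSeries.coeff_derivative]
  rw [← tsum_mul_right]
  refine tsum_congr (fun m => ?_)
  have h1 := Nat.add_one_mul_choose_eq (i + m) i
  have h2 : ((i + m : ℕ) + 1 : ℝ) * ((i + m).choose i : ℝ) =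
      ((i + 1 + m).choose (i + 1) : ℝ) * ((i : ℝ) + 1) := by
    have h3 : i + 1 + m = i + m + 1 := by omega
    rw [h3]
    exact_mod_cast h1
  have h3 : i + 1 + m = i + m + 1 := by omega
  rw [h3] at h2 ⊢
  push_cast at h2 ⊢
  linear_combination (PowerSeries.coeff (i + m + 1) a * h ^ m) * h2

theorem tay_dvh_of_evl {h : ℝ} (hh : 0 ≤ h) {a : PowerSeries ℝ} (ha : Cv h a)
    (h0 : evl h a = 0) : tay h a = PowerSeries.X * tay h (dvh h a) := by
  ext i
  rcases i with _ | i
  · rw [tay_coeff_zero, h0]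
    simp
  · rw [tay_coeff_succ hh ha, PowerSeries.coeff_succ_X_mul]

theorem div_pow {h : ℝ} (hh : 0 ≤ h) {a : PowerSeries ℝ} (ha : Cv h a) (K : ℕ)
    (hK : PowerSeries.X ^ K ∣ tay h a) :
    ∃ V, Cv h V ∧ a = (PowerSeries.X - PowerSeries.C h) ^ K * V ∧
      tay h a = PowerSeries.X ^ K * tay h V ∧
      ∀ A R : ℝ, 0 ≤ R → R * h ≤ 1 / 2 → Geo A R a → Geo ((2 * R) ^ K * A) R V := by
  induction K generalizing a with
  | zero =>
    refine ⟨a, ha, by simp, by simp, ?_⟩
    intro A R _ _ hg
    simpa using hg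
  | succ K ih =>
    have h0 : evl h a = 0 := by
      rw [← tay_coeff_zero]
      exact (PowerSeries.X_pow_dvd_iff.1 hK) 0 (Nat.succ_pos K)
    have h1 := tay_dvh_of_evl hh ha h0
    have h2 : PowerSeries.X ^ K ∣ tay h (dvh h a) := by
      rw [h1, pow_succ'] at hK
      exact (mul_dvd_mul_iff_left PowerSeries.X_ne_zero).1 hK
    obtain ⟨V, hV, hV1, hV2, hV3⟩ := ih (cv_dvh hh ha) h2
    refine ⟨V, hV, ?_, ?_, ?_⟩
    · have h3 := dvh_spec hh ha
      rw [h0, map_zero, zero_add] at h3
      rw [pow_succ', mul_assoc, ← hV1]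
      exact h3
    · rw [h1, hV2, pow_succ', mul_assoc]
    · intro A R hR hRh hg
      have h4 := hV3 (2 * R * A) R hR hRh (geo_dvh hh hR hg hRh)
      have h5 : (2 * R) ^ (K + 1) * A = (2 * R) ^ K * (2 * R * A) := by ring
      rw [h5]
      exact h4

theorem tay_inj {h A R : ℝ} (hh : 0 < h) (hR : 0 ≤ R) (hRh : 4 * R * h ≤ 1) {a : PowerSeries ℝ}
    (ha : Geo A R a) (h0 : tay h a = 0) : a = 0 := by
  classical
  by_contra hne
  have hA : 0 ≤ A := ha.nonneg
  have hRh1 : R * h < 1 := by linarith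
  have hRh2 : R * h ≤ 1 / 2 := by
    have : 0 ≤ R * h := by positivity
    linarith
  have hex : ∃ k, PowerSeries.coeff k a ≠ 0 := by
    by_contra hcon
    push Not at hcon
    apply hne
    ext k
    rw [hcon k, map_zero]
  set k0 := Nat.find hex with hk0
  have hk0ne : PowerSeries.coeff k0 a ≠ 0 := Nat.find_spec hex
  have hdvd : PowerSeries.X ^ k0 ∣ a := by
    rw [PowerSeries.X_pow_dvd_iff]
    intro m hm
    by_contra hc
    exact Nat.find_min hex hm hc
  have hcv : Cv h a := ha.cv hR hRh1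
  have key : ∀ K : ℕ, |PowerSeries.coeff k0 a| ≤ A * R ^ k0 * (1 / 2) ^ K := by
    intro K
    obtain ⟨V, _, hV1, _, hV3⟩ := div_pow hh.le hcv K (by rw [h0]; exact dvd_zero _)
    have hg := hV3 A R hR hRh2 ha k0
    have hcc : PowerSeries.constantCoeff ((PowerSeries.X - PowerSeries.C h) ^ K : PowerSeries ℝ) =
        (-h) ^ K := by
      rw [map_pow, map_sub]
      simp
    have hu : IsUnit ((PowerSeries.X - PowerSeries.C h) ^ K : PowerSeries ℝ) := by
      rw [PowerSeries.isUnit_iff_constantCoeff, hcc]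
      exact (pow_ne_zero K (neg_ne_zero.2 hh.ne')).isUnit
    have hdV : PowerSeries.X ^ k0 ∣ V := by
      rw [← hu.dvd_mul_left, ← hV1]
      exact hdvd
    obtain ⟨W, hW⟩ := hdV
    have h1 : PowerSeries.coeff k0 V = PowerSeries.coeff 0 W := by
      rw [hW]
      have := PowerSeries.coeff_X_pow_mul W k0 0
      rwa [zero_add] at this
    have h2 : PowerSeries.coeff k0 a = (-h) ^ K * PowerSeries.coeff 0 W := by
      have h3 : a = PowerSeries.X ^ k0 * ((PowerSeries.X - PowerSeries.C h) ^ K * W) := by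
        rw [hV1, hW]
        ring
      have h4 := PowerSeries.coeff_X_pow_mul ((PowerSeries.X - PowerSeries.C h) ^ K * W) k0 0
      rw [zero_add] at h4
      rw [h3, h4, PowerSeries.coeff_zero_eq_constantCoeff_apply, map_mul, hcc,
        PowerSeries.coeff_zero_eq_constantCoeff_apply]
    rw [h2, abs_mul, abs_pow, abs_neg, abs_of_pos hh, ← h1]
    calc h ^ K * |PowerSeries.coeff k0 V| ≤ h ^ K * ((2 * R) ^ K * A * R ^ k0) :=
          mul_le_mul_of_nonneg_left hg (by positivity)
      _ = A * R ^ k0 * (2 * R * h) ^ K := by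
          rw [mul_pow (2 * R) h K]
          ring
      _ ≤ A * R ^ k0 * (1 / 2) ^ K := by
          refine mul_le_mul_of_nonneg_left ?_ (by positivity)
          exact pow_le_pow_left₀ (by positivity) (by linarith) K
  have hlim : Filter.Tendsto (fun K : ℕ => A * R ^ k0 * (1 / 2 : ℝ) ^ K) Filter.atTop
      (nhds (A * R ^ k0 * 0)) :=
    (tendsto_pow_atTop_nhds_zero_of_lt_one (by norm_num) (by norm_num)).const_mul _
  rw [mul_zero] at hlim
  have hle := ge_of_tendsto' hlim key
  have := abs_pos.2 hk0ne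
  linarith

end Pool.Agent.H87.SA
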