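import Pool.Agent.H87.SA.Val
import Pool.Agent.H87.SA.TayC

/-! # [SA-TAYEQ] The equation of the Taylor expansions at `1/M`

`M = qq c * N`, `h1 = 1/M`, `w = tay h1 (S.xr i)`, `W = C N * w`. The Taylor expansion is a ring
homomorphism `tayH` on `cvs h1` (`TayC`), `tay_C`, `tay_X`; applied to (the real image of) `Ser.eq`:
`∏ (w - C c_j) + C qq * (C h1 + X) * ei h w = 0` (`map_ei`). Multiply by `C N^d`:
`∏ (W - C (N c_j)) + C (N^d qq) (C h1 + X) ei h w = 0`, `N^d qq (1/M + X) = N^(d-1) (1 + M X)`, and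
`C N^(d-1) * ei h w = ei (hst d h N) W` (`h = ∑_{k<d} h_k X^k` as `H.hdeg`,
`hst = ∑ h_k N^(d-1-k) X^k`, `W^k = N^k w^k`). So
`ei gst W + C M * X * ei hst W = 0`. The constant coefficient is `N evl h1 (S.xr i) = S.y N i`
(`tay_coeff_zero`). -/

namespace Pool.Agent.H87.SA

open Finset Polynomial Pool.Agent.H72.ES

variable {d : ℕ} {c : Fin d → ℤ} {h : ℤ[X]} {B N : ℕ}

/-- `N` times the Taylor expansion at `1/M` of `x_i` -/
noncomputable def Ser.W (S : Ser c h B) (N : ℕ) (i : Fin d) : PowerSeries ℝ :=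
  PowerSeries.C (N : ℝ) * tay (1 / ((qq c * N : ℕ) : ℝ)) (S.xr i)

theorem W_const (S : Ser c h B) (N : ℕ) (i : Fin d) :
    PowerSeries.constantCoeff (S.W N i) = S.y N i := by
  unfold Ser.W Ser.y
  rw [map_mul, PowerSeries.constantCoeff_C, ← PowerSeries.coeff_zero_eq_constantCoeff_apply,
    tay_coeff_zero]

/-- the equation of the series over the reals -/
theorem tayEq_real (S : Ser c h B) (i : Fin d) :
    ∏ j, (S.xr i - PowerSeries.C (c j : ℝ)) +
      PowerSeries.C (qq c : ℝ) * PowerSeries.X * ei h (S.xr i) = 0 := by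
  have h1 := congrArg (PowerSeries.map (Int.castRingHom ℝ)) (S.eq i)
  rw [map_add, map_prod, map_mul, map_mul, map_ei, map_zero, PowerSeries.map_X,
    PowerSeries.map_C] at h1
  simp only [map_sub, PowerSeries.map_C] at h1
  simpa [Ser.xr] using h1

/-- the equation of the Taylor expansions -/
theorem tayEq_tay (H : SHyp c h B N) (S : Ser c h B) (i : Fin d) :
    ∏ j, (tay (1 / ((qq c * N : ℕ) : ℝ)) (S.xr i) - PowerSeries.C (c j : ℝ)) +
      PowerSeries.C (qq c : ℝ) *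
        (PowerSeries.C (1 / ((qq c * N : ℕ) : ℝ)) + PowerSeries.X) *
        ei h (tay (1 / ((qq c * N : ℕ) : ℝ)) (S.xr i)) = 0 := by
  have hh : (0 : ℝ) ≤ 1 / ((qq c * N : ℕ) : ℝ) := by positivity
  generalize hh1 : 1 / ((qq c * N : ℕ) : ℝ) = h1 at hh ⊢
  have hcv : Cv h1 (S.xr i) := by
    rw [← hh1]
    exact cv_xr H S i
  let a : cvs h1 hh := ⟨S.xr i, hcv⟩
  have hsub : ∏ j, (a - (⟨PowerSeries.C (c j : ℝ), Cv.C h1 _⟩ : cvs h1 hh)) +
      (⟨PowerSeries.C (qq c : ℝ), Cv.C h1 _⟩ : cvs h1 hh) *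
        (⟨PowerSeries.X, Cv.X h1⟩ : cvs h1 hh) * ei h a = 0 := by
    apply Subtype.ext
    have h2 := tayEq_real S i
    have h3 : ((ei h a : cvs h1 hh) : PowerSeries ℝ) = ei h (S.xr i) :=
      map_ei (cvs h1 hh).subtype h a
    have h4 : ((∏ j, (a - (⟨PowerSeries.C (c j : ℝ), Cv.C h1 _⟩ : cvs h1 hh)) : cvs h1 hh) :
        PowerSeries ℝ) = ∏ j, (S.xr i - PowerSeries.C (c j : ℝ)) :=
      map_prod (cvs h1 hh).subtype _ _
    rw [Subring.coe_add, Subring.coe_mul, Subring.coe_mul, h3, h4]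
    exact h2
  have h5 := congrArg (tayH h1 hh) hsub
  rw [map_add, map_prod, map_mul, map_mul, map_ei, map_zero] at h5
  have h6 : ∀ m : ℝ, tayH h1 hh (⟨PowerSeries.C m, Cv.C h1 _⟩ : cvs h1 hh) =
      PowerSeries.C m := fun m => tay_C h1 m
  have h7 : tayH h1 hh (⟨PowerSeries.X, Cv.X h1⟩ : cvs h1 hh) =
      PowerSeries.C h1 + PowerSeries.X := tay_X h1
  have h8 : tayH h1 hh a = tay h1 (S.xr i) := rfl
  simp only [map_sub, h6, h7, h8] at h5
  exact h5

/-- the value of `hst` at `N w` -/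
theorem tayEq_hst (H : SHyp c h B N) {S : Type*} [CommRing S] (w : S) :
    ei (hst d h N) ((N : S) * w) = (N : S) ^ (d - 1) * ei h w := by
  have hd : h.natDegree < d := by
    by_cases h0 : h = 0
    · subst h0
      have := H.d3
      simp only [natDegree_zero]
      omega
    · exact (natDegree_lt_iff_degree_lt h0).2 H.hdeg
  unfold ei hst
  rw [eval₂_finsetSum, eval₂_eq_sum_range' _ hd, Finset.mul_sum]
  refine Finset.sum_congr rfl fun k hk => ?_
  have hk := Finset.mem_range.1 hk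
  have h1 : d - 1 = (d - 1 - k) + k := by omega
  rw [eval₂_mul, eval₂_C, eval₂_pow, eval₂_X, mul_pow]
  conv_rhs => rw [h1, pow_add]
  simp only [map_mul, map_pow, map_natCast]
  ring

theorem W_eq (H : SHyp c h B N) (S : Ser c h B) (i : Fin d) :
    ei (gst c h N) (S.W N i) + PowerSeries.C (((qq c * N : ℕ) : ℤ) : ℝ) * PowerSeries.X *
      ei (hst d h N) (S.W N i) = 0 := by
  have hN : 0 < N := by
    have h1 : 0 < B ^ (20 * d ^ 2) := pow_pos (by have := H.B2; omega) _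
    exact lt_of_lt_of_le h1 H.big
  have hM : ((qq c * N : ℕ) : ℝ) ≠ 0 := by
    have h1 := qq_pos H
    have : 0 < qq c * N := Nat.mul_pos h1 hN
    exact_mod_cast this.ne'
  have heq := tayEq_tay H S i
  have hW : S.W N i = ((N : ℕ) : PowerSeries ℝ) * tay (1 / ((qq c * N : ℕ) : ℝ)) (S.xr i) := by
    unfold Ser.W
    rw [map_natCast]
  rw [hW]
  generalize tay (1 / ((qq c * N : ℕ) : ℝ)) (S.xr i) = w at heq ⊢
  have hg : ei (gst c h N) (((N : ℕ) : PowerSeries ℝ) * w) =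
      ((N : ℕ) : PowerSeries ℝ) ^ d * ∏ j, (w - PowerSeries.C (c j : ℝ)) +
        ei (hst d h N) (((N : ℕ) : PowerSeries ℝ) * w) := by
    unfold gst
    rw [ei_add]
    congr 1
    unfold ei
    rw [eval₂_finsetProd]
    have h1 : ∀ j : Fin d, eval₂ (Int.castRingHom (PowerSeries ℝ))
        (((N : ℕ) : PowerSeries ℝ) * w) (X - C ((N : ℤ) * c j)) =
        ((N : ℕ) : PowerSeries ℝ) * (w - PowerSeries.C (c j : ℝ)) := by
      intro j
      rw [eval₂_sub, eval₂_X, eval₂_C]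
      simp only [map_mul, map_natCast, map_intCast, eq_intCast]
      ring
    rw [Finset.prod_congr rfl fun j _ => h1 j, Finset.prod_mul_distrib, Finset.prod_const,
      Finset.card_univ, Fintype.card_fin]
  rw [hg, tayEq_hst H]
  have hC : (PowerSeries.C (((qq c * N : ℕ) : ℤ) : ℝ) : PowerSeries ℝ) =
      PowerSeries.C (qq c : ℝ) * ((N : ℕ) : PowerSeries ℝ) := by
    rw [← map_natCast (PowerSeries.C : ℝ →+* PowerSeries ℝ) N, ← map_mul]
    push_cast
    rfl
  have h1M : PowerSeries.C (qq c : ℝ) * ((N : ℕ) : PowerSeries ℝ) *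
      PowerSeries.C (1 / ((qq c * N : ℕ) : ℝ)) = 1 := by
    rw [← map_natCast (PowerSeries.C : ℝ →+* PowerSeries ℝ) N, ← map_mul, ← map_mul]
    have h2 : (qq c : ℝ) * (N : ℝ) * (1 / ((qq c * N : ℕ) : ℝ)) = 1 := by
      push_cast at hM ⊢
      rw [mul_one_div, div_self hM]
    rw [h2, map_one]
  have hd : ((N : ℕ) : PowerSeries ℝ) ^ d = ((N : ℕ) : PowerSeries ℝ) ^ (d - 1) *
      ((N : ℕ) : PowerSeries ℝ) := by
    rw [← pow_succ]
    congr 1
    have := H.d3
    omega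
  rw [hC, hd]
  linear_combination (((N : ℕ) : PowerSeries ℝ) ^ (d - 1) * ((N : ℕ) : PowerSeries ℝ)) * heq -
    (((N : ℕ) : PowerSeries ℝ) ^ (d - 1) * ei h w) * h1M

end Pool.Agent.H87.SA
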