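import Pool.Agent.H87.SA.SerA
import Pool.Agent.H87.SA.TayEq
import Pool.Agent.H87.SA.Fld
import Pool.Agent.H87.SA.House
import Pool.Agent.H87.SA.Sep
import Pool.Agent.H87.SA.Coord
import Pool.Agent.H87.SA.DnSum
import Pool.Agent.H87.SA.NFG
import Pool.Agent.H87.SA.Over
import Pool.Agent.H87.SA.ZeroE

/-! # [SA-ANCH] Existence of the anchor -/

namespace Pool.Agent.H87.SA

open Finset Polynomial NumberField Pool.Agent.H72.ES Pool.Agent.H8.KF

variable {d : ℕ} {c : Fin d → ℤ} {h : ℤ[X]} {B N : ℕ}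

theorem big2 (H : SHyp c h B N) : 2 * (d : ℝ) * (B : ℝ) ^ 2 ≤ N := by
  have hB := H.B2
  have hd := H.d3
  have h1 : 2 * d * B ^ 2 ≤ B ^ (20 * d ^ 2) := by
    have e1 : d ≤ B ^ d := (Nat.lt_two_pow_self).le.trans (Nat.pow_le_pow_left hB d)
    calc 2 * d * B ^ 2 ≤ B * B ^ d * B ^ 2 := by gcongr
      _ = B ^ (d + 3) := by ring
      _ ≤ B ^ (20 * d ^ 2) := Nat.pow_le_pow_right (by omega) (by nlinarith)
  have h2 : 2 * d * B ^ 2 ≤ N := h1.trans H.big
  exact_mod_cast h2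

theorem one_le_N (H : SHyp c h B N) : 1 ≤ N :=
  (Nat.one_le_pow _ _ (by have := H.B2; omega)).trans H.big

theorem exists_anch {n Q : ℕ} (hn : 4 ≤ n) (hQ : 2 ^ n ≤ Q) {f : ℤ[X]} (hm : f.Monic)
    (hd : f.natDegree = n) (hb : ∀ j, |f.coeff j| ≤ (Q : ℤ)) (hf : Irreducible f) (θ : ℝ)
    (hθ : aeval θ f = 0) (H : SHyp c h B N) (ξ : ℝ) (hξ0 : ei (gpol c h N) ξ = 0)
    (hξ1 : ξ ∈ IntermediateField.adjoin ℚ {θ}) (hξ3 : 3 ≤ (minpoly ℚ ξ).natDegree) :
    ∃ (O : Ord ℝ n Q f θ) (D m : ℕ), 1 ≤ D ∧ D ≤ d.factorial ∧ 3 * m ≤ n * D ∧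
      Nonempty (Anch O D m (4 * d ^ 2) (qq c * N) ((B : ℝ) ^ (12 * d ^ 2))
        (((qq c * N : ℕ) : ℝ) ^ (4 * d.factorial) * bb n Q)) := by
  obtain ⟨S⟩ := exists_ser H
  have hN1 := one_le_N H
  have hq1 := qq_pos H
  set M : ℕ := qq c * N with hM
  have hNM : N ≤ M := by rw [hM]; exact Nat.le_mul_of_pos_left _ hq1
  have hM1 : 1 ≤ M := hN1.trans hNM
  have hNMR : (N : ℝ) ≤ M := by exact_mod_cast hNM
  have hM1R : (1 : ℝ) ≤ M := by exact_mod_cast hM1
  have hN1R : (1 : ℝ) ≤ N := by exact_mod_cast hN1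
  have hB1R : (1 : ℝ) ≤ B := by exact_mod_cast (by have := H.B2; omega : 1 ≤ B)
  have hd3 := H.d3
  have hinj := y_inj H S
  have hsplit := gst_split H S
  obtain ⟨k, ik, ink, ι, yo, hι, hfr, hperm, hext⟩ := exists_field hinj hsplit
  have hD1 : 1 ≤ Module.finrank ℚ k := Module.finrank_pos
  -- the primitive element
  set z : 𝓞 k := ∑ i, yo i * (c i : 𝓞 k) with hz
  have hzc : ∀ (A : Type) [CommRing A] (σ : k →+* A), σ (z : k) =
      ∑ i, σ (yo i : k) * (c i : A) := by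
    intro A _ σ
    rw [hz]
    simp [map_sum, map_mul]
  have hprim : ∀ σ : k →+* ℂ, σ (z : k) = ((ι (z : k) : ℝ) : ℂ) →
      σ = Complex.ofRealHom.comp ι := by
    intro σ hσ
    obtain ⟨π, hπ⟩ := hperm σ
    have h1 : π = 1 := by
      refine sep H.inj (by have := H.B2; omega) H.cB hN1 (val_near H S) π ?_
      rw [hzc ℂ σ, hzc ℝ ι] at hσ
      have h2 : ((∑ i, (c i : ℝ) * (S.y N i - S.y N (π i)) : ℝ) : ℂ) = 0 := by
        push_cast at hσ ⊢
        simp only [hπ, hι] at hσ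
        simp only [mul_sub, sum_sub_distrib]
        rw [sub_eq_zero]
        simp only [mul_comm ((c _ : ℤ) : ℂ)]
        exact hσ.symm
      exact_mod_cast h2
    refine hext _ _ fun i => ?_
    rw [hπ, h1]
    simp [hι]
  have htop := prim_top ι (z : k) hprim
  -- sizes
  have hyh : ∀ i, house (yo i : k) ≤ 2 * B * N := by
    intro i
    refine house_le_of (by positivity) fun σ => ?_
    obtain ⟨π, hπ⟩ := hperm σ
    rw [hπ, Complex.norm_real]
    exact y_le H S _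
  have hsub := house_subMul k
  have hbig2 := big2 H
  set Z : PowerSeries (𝓞 k) := ∑ i, PowerSeries.C (yo i) * (S.x i).map (Int.castRingHom (𝓞 k))
    with hZ
  have hcoefZ : ∀ j, PowerSeries.coeff j Z = ∑ i, yo i * ((PowerSeries.coeff j (S.x i) : ℤ) : 𝓞 k) := by
    intro j
    rw [hZ, map_sum]
    refine sum_congr rfl fun i _ => ?_
    rw [PowerSeries.coeff_C_mul, PowerSeries.coeff_map, eq_intCast]
  have hZ0 : PowerSeries.constantCoeff Z = z := by
    rw [← PowerSeries.coeff_zero_eq_constantCoeff_apply, hcoefZ, hz]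
    refine sum_congr rfl fun i _ => ?_
    rw [PowerSeries.coeff_zero_eq_constantCoeff_apply, S.x0]
  have hdBN : (d : ℝ) * (2 * B * N * B) ≤ (M : ℝ) ^ 2 := by
    calc (d : ℝ) * (2 * B * N * B) = (2 * d * B ^ 2) * N := by ring
      _ ≤ N * N := by gcongr
      _ ≤ M * M := by gcongr
      _ = (M : ℝ) ^ 2 := by ring
  have hZle : ∀ j, house ((PowerSeries.coeff j Z : 𝓞 k) : k) ≤
      (M : ℝ) ^ 2 * ((B : ℝ) ^ (12 * d ^ 2)) ^ j := by
    intro j
    rw [hcoefZ]
    refine (SubMul_sum hsub _ _).trans ?_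
    have e1 : ∀ i ∈ (univ : Finset (Fin d)),
        house ((yo i * ((PowerSeries.coeff j (S.x i) : ℤ) : 𝓞 k) : 𝓞 k) : k) ≤
        (2 * B * N) * (B * ((B : ℝ) ^ (12 * d ^ 2)) ^ j) := by
      intro i _
      exact (hsub.mul _ _).trans (mul_le_mul (hyh i) ((SubMul_int hsub _).trans (S.le i j))
        (hsub.nonneg _) (by positivity))
    refine (sum_le_sum e1).trans ?_
    rw [sum_const, card_univ, Fintype.card_fin, nsmul_eq_mul]
    calc (d : ℝ) * ((2 * B * N) * (B * ((B : ℝ) ^ (12 * d ^ 2)) ^ j))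
        = (d : ℝ) * (2 * B * N * B) * ((B : ℝ) ^ (12 * d ^ 2)) ^ j := by ring
      _ ≤ _ := by gcongr
  have hzh : house (z : k) ≤ (M : ℝ) ^ 2 := by
    have := hZle 0
    rw [PowerSeries.coeff_zero_eq_constantCoeff_apply, hZ0, pow_zero, mul_one] at this
    exact this
  have hM2 : (1 : ℝ) ≤ (M : ℝ) ^ 2 := one_le_pow₀ hM1R
  set D := Module.finrank ℚ k with hD
  obtain ⟨c0, hc0, hcb⟩ := exists_coordE z htop hM2 hzh
  -- the factor
  obtain ⟨i0, hi0⟩ := root_eq H S hξ0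
  obtain ⟨g1, hg1, hg0, hg3, hgf, hgθ⟩ := exists_fac ι hm hd hf θ hθ ξ hξ1
    ⟨(yo i0 : k) / (N : k), by
      rw [map_div₀, hι, map_natCast, ← hi0]
      field_simp⟩ hξ3
  have hDR : (1 : ℝ) ≤ D := by exact_mod_cast hD1
  have hC0 : (1 : ℝ) ≤ D * ((M : ℝ) ^ 2) ^ D :=
    one_le_mul_of_one_le_of_one_le hDR (one_le_pow₀ hM2)
  obtain ⟨O, m, L, iL, JE, JO, φ, coord, h3m, hcinj, hφE, hφO, hsize⟩ :=
    exists_over ι hn hQ hm hd hb hf θ hθ g1 hg1 hg0 hg3 hgf hgθ hC0 c0 hc0 hcb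
  -- denominators
  obtain ⟨Δ, hΔ1, hΔ, hdn⟩ := dn_sum ι yo hinj hι hperm (gst c h N) (hst d h N) hsplit
    ((M : ℕ) : ℤ) (S.W N) (W_const S N) (fun i => W_eq H S i)
  have hΔM : (Δ : ℝ) ≤ (M : ℝ) ^ (4 * d ^ 2) := by
    rw [hΔ]
    exact dlt_le H S
  have hκ2 : 2 ≤ 4 * d ^ 2 := by nlinarith
  let ψ : 𝓞 k →+* ℝ := ι.comp (algebraMap (𝓞 k) k)
  have hψ : ∀ a : 𝓞 k, ψ a = ι (a : k) := fun a => rfl
  have hZmap : Z.map ψ = ∑ i, PowerSeries.C (S.y N i) * S.xr i := by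
    rw [hZ, map_sum]
    refine sum_congr rfl fun i _ => ?_
    rw [map_mul, PowerSeries.map_C, hψ, hι]
    congr 1
    ext j
    simp [Ser.xr, PowerSeries.coeff_map]
  have hh0 : (0 : ℝ) ≤ 1 / (M : ℝ) := by positivity
  have hcvC : ∀ a : ℝ, Cv (1 / (M : ℝ)) (PowerSeries.C a) := fun a => Cv.C _ _
  have htayZ : PowerSeries.C (N : ℝ) * tay (1 / (M : ℝ)) (Z.map ψ) =
      ∑ i, PowerSeries.C (S.y N i) * S.W N i := by
    rw [hZmap, tay_sumZ hh0 _ _ (fun i _ => Cv.mul hh0 (hcvC _) (cv_xr H S i)), mul_sum]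
    refine sum_congr rfl fun i _ => ?_
    rw [tay_mul hh0 (hcvC _) (cv_xr H S i), tay_C]
    unfold Ser.W
    rw [← hM]
    ring
  refine ⟨O, D, m, hD1, hfr, h3m, ⟨?_⟩⟩
  exact
    { E := 𝓞 k
      ψ := ψ
      ν := fun a => house (a : k)
      sub := hsub
      ψ_le := fun a => abs_le_house ι _
      liou := fun a ha => house_liou ι a ha
      Z := Z
      Z_le := fun j => by
        refine (hZle j).trans ?_
        have : (M : ℝ) ^ 2 ≤ (M : ℝ) ^ (4 * d ^ 2) := pow_le_pow_right₀ hM1R hκ2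
        gcongr
      indep := fun cc hcc => by
        rw [hZ0] at hcc
        exact prim_indep ι (z : k) htop cc hcc
      e := N
      Δ := Δ
      e_pos := by exact_mod_cast hN1
      Δ_pos := hΔ1
      e_le := by
        have : (M : ℝ) ≤ (M : ℝ) ^ (4 * d ^ 2) := le_self_pow₀ hM1R (by omega)
        push_cast
        linarith
      Δ_le := hΔM
      dn := by
        intro j
        obtain ⟨w, hw⟩ := hdn j
        refine ⟨w, ?_⟩
        rw [hw, ← htayZ, PowerSeries.coeff_C_mul]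
        push_cast
        ring
      L := L
      JE := JE
      JO := JO
      φ := φ
      coord := coord
      coord_inj := hcinj
      φ_JE := hφE
      φ_JO := hφO
      size := by
        intro a b i
        refine (hsize a b i).trans ?_
        have hν1 : 0 ≤ house (a : k) := house_nonneg _
        have hν2 : 0 ≤ O.ν b := O.ν_nonneg b
        have hbb : 0 ≤ bb n Q := by
          have := one_le_bb hn hQ
          linarith
        have hkey : (D : ℝ) * ((M : ℝ) ^ 2) ^ D ≤ (M : ℝ) ^ (4 * d.factorial) := by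
          have hM2' : 2 ≤ M := by
            have e1 := big2 H
            have e2 : (2 : ℝ) ≤ N := by
              have e3 : (1 : ℝ) ≤ d := by exact_mod_cast (by omega : 1 ≤ d)
              nlinarith
            have e4 : (2 : ℝ) ≤ M := e2.trans hNMR
            exact_mod_cast e4
          have e1 : D ≤ M ^ D :=
            (Nat.lt_two_pow_self).le.trans (Nat.pow_le_pow_left hM2' D)
          have e2 : (D : ℝ) ≤ (M : ℝ) ^ D := by exact_mod_cast e1
          calc (D : ℝ) * ((M : ℝ) ^ 2) ^ D ≤ (M : ℝ) ^ D * ((M : ℝ) ^ 2) ^ D := by gcongr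
            _ = (M : ℝ) ^ (3 * D) := by rw [← pow_mul, ← pow_add]; congr 1; ring
            _ ≤ (M : ℝ) ^ (4 * d.factorial) := pow_le_pow_right₀ hM1R (by omega)
        gcongr }

end Pool.Agent.H87.SA
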