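import Pool.Agent.H97.AN.Defs

/-!
# MP_821da1_nt: effective Siegel theorem over split anchored fields -- definitions

Real power series `a` with radius of convergence larger than `h` (`Cv h a`), their value `evl h a`,
the quotient `dvh h a = (a - evl h a) / (X - h)` and the Taylor expansion `tay h a` at `h`.
`Dn c Δ w`: the numbers `c Δ^k w_k` are integers.
`Anch`: the anchor data used in the core of the proof.
-/

namespace Pool.Agent.H87.SA

open Finset Polynomial Pool.Agent.H72.ES Pool.Agent.H8.KF Pool.Agent.H97.AN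

/-- geometric growth -/
def Geo (A R : ℝ) (a : PowerSeries ℝ) : Prop := ∀ k, |PowerSeries.coeff k a| ≤ A * R ^ k

/-- radius of convergence larger than `h` -/
def Cv (h : ℝ) (a : PowerSeries ℝ) : Prop := ∃ A R : ℝ, 0 ≤ R ∧ R * h < 1 ∧ Geo A R a

/-- the value at `h` -/
noncomputable def evl (h : ℝ) (a : PowerSeries ℝ) : ℝ := ∑' k, PowerSeries.coeff k a * h ^ k

/-- the quotient of `a - evl h a` by `X - h` -/
noncomputable def dvh (h : ℝ) (a : PowerSeries ℝ) : PowerSeries ℝ :=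
  PowerSeries.mk fun k => ∑' i, PowerSeries.coeff (k + 1 + i) a * h ^ i

/-- the Taylor expansion at `h` -/
noncomputable def tay (h : ℝ) (a : PowerSeries ℝ) : PowerSeries ℝ :=
  PowerSeries.mk fun i => ∑' m, ((i + m).choose i : ℝ) * PowerSeries.coeff (i + m) a * h ^ m

/-- the numbers `c Δ^k w_k` are integers -/
def Dn (c Δ : ℤ) (w : PowerSeries ℝ) : Prop :=
  ∀ k, ∃ z : ℤ, (z : ℝ) = c * (Δ : ℝ) ^ k * PowerSeries.coeff k w

/-- Anchor data over the order `O` (of the root field, real place `O.φ`): a domain `E` of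
algebraic integers with real place `ψ` and size `ν` satisfying a Liouville inequality, a power
series `Z` over `E` with cheap coefficients, whose first powers `Z_0^j`, `j < D`, are linearly
independent over `ℤ` and whose Taylor expansion at `1 / M` is rational, and a common overring `L`
of `E` and `O` with `m` integer coordinates. -/
structure Anch {n Q : ℕ} {f : ℤ[X]} {θ : ℝ} (O : Ord ℝ n Q f θ) (D m κ M : ℕ) (R G : ℝ) where
  E : Type
  [cr : CommRing E]
  [dom : IsDomain E]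
  ψ : E →+* ℝ
  ν : E → ℝ
  sub : SubMul ν
  ψ_le : ∀ a, |ψ a| ≤ ν a
  liou : ∀ a, a ≠ 0 → 1 ≤ |ψ a| * ν a ^ D
  Z : PowerSeries E
  Z_le : ∀ k, ν (PowerSeries.coeff k Z) ≤ (M : ℝ) ^ κ * R ^ k
  indep : ∀ c : ℕ → ℤ, ∑ j ∈ range D, (c j : ℝ) * ψ (PowerSeries.constantCoeff Z) ^ j = 0 →
    ∀ j < D, c j = 0
  e : ℤ
  Δ : ℤ
  e_pos : 1 ≤ e
  Δ_pos : 1 ≤ Δ
  e_le : (e : ℝ) ≤ (M : ℝ) ^ κ
  Δ_le : (Δ : ℝ) ≤ (M : ℝ) ^ κ
  dn : Dn e Δ (tay (1 / M) (Z.map ψ))
  L : Type
  [crL : CommRing L]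
  JE : E →+* L
  JO : O.R →+* L
  φ : L →+* ℝ
  coord : L →+ (Fin m → ℤ)
  coord_inj : Function.Injective coord
  φ_JE : ∀ a, φ (JE a) = ψ a
  φ_JO : ∀ a, φ (JO a) = O.φ a
  size : ∀ a b k, |((coord (JE a * JO b) k : ℤ) : ℝ)| ≤ G * (ν a * O.ν b)

attribute [instance] Anch.cr Anch.dom Anch.crL

/-- the coefficient of `X^k` in `X^s Z^j` -/
noncomputable def zc {S : Type*} [CommRing S] (Z : PowerSeries S) (k s j : ℕ) : S :=
  PowerSeries.coeff k (PowerSeries.X ^ s * Z ^ j)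

/-- the series `∑_{s ≤ J, j < D} S s j X^s Z^j` -/
noncomputable def us {S : Type*} [CommRing S] (J D : ℕ) (c : ℕ → ℕ → ℤ) (Z : PowerSeries S) :
    PowerSeries S :=
  ∑ s ∈ range (J + 1), ∑ j ∈ range D, (c s j : PowerSeries S) * (PowerSeries.X ^ s * Z ^ j)

/-- bound for the coefficients of the auxiliary polynomial -/
noncomputable def ZS (n D κ M : ℕ) (R G B : ℝ) (la : ℕ) : ℝ :=
  (G * (M : ℝ) ^ (κ * D) * B ^ (13 * n) * R ^ (5 * n ^ 2 * la)) ^ 4

/-- the basic large factor -/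
def KK (D κ : ℕ) : ℕ := (D + 1) * (κ + 1)

end Pool.Agent.H87.SA
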