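import Pool.Agent.H87.SA.TayC

/-! # [SA-DN] Denominators of the Taylor expansions

`Dn c Δ w`: `c Δ^k w_k ∈ ℤ`. Product: `c c' Δ^k (w w')_k = ∑_{i+j=k} (c Δ^i w_i)(c' Δ^j w'_j)`.
Derivative: `(c Δ) Δ^k (k+1) w_{k+1} = (k+1) (c Δ^(k+1) w_{k+1})`. `Dn_X`: `tay (1/M) X = C (1/M) + X`
(`tay_X`): coefficients `1/M, 1, 0, ..`, `M Δ^k` clears them.
`dn_us`: `us J D c (Z.map ψ) = ∑ c s j X^s Zr^j`, all series are `Cv (1/M)` (`hZ`), `tay` is additive and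
multiplicative (`tayH` on `cvs`, or `tay_add`, `tay_mul` by induction), so
`tay = ∑ c s j (C(1/M)+X)^s (tay Zr)^j`, each summand is `Dn (M^s e^j) Δ`, hence `Dn (M^J e^D) Δ`
(`s ≤ J`, `j ≤ D`, `Dn.mono`). -/

namespace Pool.Agent.H87.SA

open Finset Pool.Agent.H72.ES

theorem Dn.mono {c c' Δ : ℤ} {w : PowerSeries ℝ} (h : Dn c Δ w) (hc : c ∣ c') : Dn c' Δ w := by
  obtain ⟨r, rfl⟩ := hc
  intro k
  obtain ⟨z, hz⟩ := h k
  refine ⟨r * z, ?_⟩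
  push_cast
  rw [hz]
  ring

theorem Dn.add {c Δ : ℤ} {w w' : PowerSeries ℝ} (h : Dn c Δ w) (h' : Dn c Δ w') :
    Dn c Δ (w + w') := by
  intro k
  obtain ⟨z, hz⟩ := h k
  obtain ⟨z', hz'⟩ := h' k
  refine ⟨z + z', ?_⟩
  push_cast
  rw [hz, hz', map_add]
  ring

theorem Dn.zero (c Δ : ℤ) : Dn c Δ 0 := by
  intro k
  refine ⟨0, ?_⟩
  rw [map_zero, mul_zero]
  exact Int.cast_zero

theorem Dn.one (c Δ : ℤ) : Dn c Δ 1 := by
  intro k
  rw [PowerSeries.coeff_one]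
  split_ifs with h
  · refine ⟨c, ?_⟩
    rw [h, pow_zero]
    ring
  · refine ⟨0, ?_⟩
    rw [mul_zero]
    exact Int.cast_zero

theorem Dn.sum {c Δ : ℤ} {ι : Type*} (s : Finset ι) (w : ι → PowerSeries ℝ)
    (h : ∀ i ∈ s, Dn c Δ (w i)) : Dn c Δ (∑ i ∈ s, w i) := by
  classical
  induction s using Finset.induction_on with
  | empty => rw [sum_empty]; exact Dn.zero c Δ
  | insert a s ha ih =>
    rw [sum_insert ha]
    exact (h a (mem_insert_self a s)).add (ih fun i hi => h i (mem_insert_of_mem hi))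

theorem Dn.mul {c c' Δ : ℤ} {w w' : PowerSeries ℝ} (h : Dn c Δ w) (h' : Dn c' Δ w') :
    Dn (c * c') Δ (w * w') := by
  intro k
  choose z hz using h
  choose z' hz' using h'
  refine ⟨∑ p ∈ antidiagonal k, z p.1 * z' p.2, ?_⟩
  rw [PowerSeries.coeff_mul, mul_sum]
  push_cast
  refine sum_congr rfl fun p hp => ?_
  rw [hz, hz', ← mem_antidiagonal.1 hp]
  ring

theorem Dn.pow {c Δ : ℤ} {w : PowerSeries ℝ} (h : Dn c Δ w) (j : ℕ) : Dn (c ^ j) Δ (w ^ j) := by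
  induction j with
  | zero => rw [pow_zero, pow_zero]; exact Dn.one 1 Δ
  | succ j ih => rw [pow_succ, pow_succ]; exact ih.mul h

theorem Dn.int_mul {c Δ : ℤ} {w : PowerSeries ℝ} (h : Dn c Δ w) (m : ℤ) :
    Dn c Δ ((m : PowerSeries ℝ) * w) := by
  intro k
  obtain ⟨z, hz⟩ := h k
  refine ⟨m * z, ?_⟩
  have h1 : (m : PowerSeries ℝ) = PowerSeries.C (m : ℝ) := (map_intCast _ m).symm
  rw [h1, PowerSeries.coeff_C_mul]
  push_cast
  rw [hz]
  ring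

theorem Dn.deriv {c Δ : ℤ} {w : PowerSeries ℝ} (h : Dn c Δ w) :
    Dn (c * Δ) Δ (PowerSeries.derivative ℝ w) := by
  intro k
  obtain ⟨z, hz⟩ := h (k + 1)
  refine ⟨(k + 1) * z, ?_⟩
  rw [PowerSeries.coeff_derivative]
  push_cast
  rw [hz]
  ring

theorem Dn_X {M : ℕ} (hM : 1 ≤ M) (Δ : ℤ) : Dn M Δ (tay (1 / (M : ℝ)) PowerSeries.X) := by
  rw [tay_X]
  have hM0 : (M : ℝ) ≠ 0 := by
    have : (0 : ℝ) < M := by exact_mod_cast hM
    exact this.ne'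
  refine Dn.add ?_ ?_
  · intro k
    rw [PowerSeries.coeff_C]
    split_ifs with h
    · refine ⟨1, ?_⟩
      rw [h, pow_zero]
      push_cast
      field_simp
    · refine ⟨0, ?_⟩
      rw [mul_zero]
      exact Int.cast_zero
  · intro k
    rw [PowerSeries.coeff_X]
    split_ifs with h
    · refine ⟨M * Δ ^ k, ?_⟩
      push_cast
      ring
    · refine ⟨0, ?_⟩
      rw [mul_zero]
      exact Int.cast_zero

theorem cv_pow {h : ℝ} (hh : 0 ≤ h) {Z : PowerSeries ℝ} (hZ : Cv h Z) (j : ℕ) : Cv h (Z ^ j) :=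
  mem_cvs.1 ((cvs h hh).pow_mem (mem_cvs.2 hZ) j)

theorem tay_pow {h : ℝ} (hh : 0 ≤ h) {Z : PowerSeries ℝ} (hZ : Cv h Z) (j : ℕ) :
    tay h (Z ^ j) = tay h Z ^ j := by
  induction j with
  | zero =>
    rw [pow_zero, pow_zero]
    have := tay_C h 1
    simpa using this
  | succ j ih => rw [pow_succ, pow_succ, tay_mul hh (cv_pow hh hZ j) hZ, ih]

theorem cv_int {h : ℝ} (hh : 0 ≤ h) (m : ℤ) : Cv h (m : PowerSeries ℝ) :=
  mem_cvs.1 (intCast_mem (cvs h hh) m)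

theorem tay_int (h : ℝ) (m : ℤ) : tay h (m : PowerSeries ℝ) = (m : PowerSeries ℝ) := by
  have h1 : (m : PowerSeries ℝ) = PowerSeries.C (m : ℝ) := (map_intCast _ m).symm
  rw [h1, tay_C]

theorem tay_sum {h : ℝ} (hh : 0 ≤ h) {ι : Type*} (s : Finset ι) (w : ι → PowerSeries ℝ)
    (hw : ∀ i ∈ s, Cv h (w i)) : Cv h (∑ i ∈ s, w i) ∧
      tay h (∑ i ∈ s, w i) = ∑ i ∈ s, tay h (w i) := by
  classical
  induction s using Finset.induction_on with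
  | empty =>
    rw [sum_empty, sum_empty]
    have h1 := tay_C h 0
    have h2 := Cv.C h 0
    rw [map_zero] at h1 h2
    exact ⟨h2, h1⟩
  | insert a s ha ih =>
    have h1 := hw a (mem_insert_self a s)
    obtain ⟨h2, h3⟩ := ih fun i hi => hw i (mem_insert_of_mem hi)
    rw [sum_insert ha, sum_insert ha, tay_add hh h1 h2, h3]
    exact ⟨Cv.add hh h1 h2, rfl⟩

theorem cv_mon {h : ℝ} (hh : 0 ≤ h) (m : ℤ) {Z : PowerSeries ℝ} (hZ : Cv h Z) (s j : ℕ) :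
    Cv h ((m : PowerSeries ℝ) * (PowerSeries.X ^ s * Z ^ j)) :=
  Cv.mul hh (cv_int hh m) (Cv.mul hh (cv_pow hh (Cv.X h) s) (cv_pow hh hZ j))

/-- the Taylor expansion of `us` -/
theorem tay_us {h : ℝ} (hh : 0 ≤ h) (J D : ℕ) (c : ℕ → ℕ → ℤ) {Z : PowerSeries ℝ} (hZ : Cv h Z) :
    tay h (us J D c Z) = ∑ s ∈ range (J + 1), ∑ j ∈ range D,
      (c s j : PowerSeries ℝ) * ((PowerSeries.C h + PowerSeries.X) ^ s * tay h Z ^ j) := by
  unfold us
  rw [(tay_sum hh _ _ fun s _ => (tay_sum hh _ _ fun j _ => cv_mon hh _ hZ s j).1).2]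
  refine sum_congr rfl fun s _ => ?_
  rw [(tay_sum hh _ _ fun j _ => cv_mon hh _ hZ s j).2]
  refine sum_congr rfl fun j _ => ?_
  rw [tay_mul hh (cv_int hh _) (Cv.mul hh (cv_pow hh (Cv.X h) s) (cv_pow hh hZ j)),
    tay_mul hh (cv_pow hh (Cv.X h) s) (cv_pow hh hZ j), tay_pow hh (Cv.X h), tay_pow hh hZ,
    tay_int, tay_X]

theorem cv_us {h : ℝ} (hh : 0 ≤ h) (J D : ℕ) (c : ℕ → ℕ → ℤ) {Z : PowerSeries ℝ} (hZ : Cv h Z) :
    Cv h (us J D c Z) :=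
  (tay_sum hh _ _ fun s _ => (tay_sum hh _ _ fun j _ => cv_mon hh _ hZ s j).1).1

theorem dn_us {M : ℕ} (hM : 1 ≤ M) (J D : ℕ) (c : ℕ → ℕ → ℤ) {Z : PowerSeries ℝ}
    (hZ : Cv (1 / (M : ℝ)) Z) {e Δ : ℤ} (he : Dn e Δ (tay (1 / (M : ℝ)) Z)) :
    Dn ((M : ℤ) ^ J * e ^ D) Δ (tay (1 / (M : ℝ)) (us J D c Z)) := by
  rw [tay_us (by positivity) J D c hZ]
  refine Dn.sum _ _ fun s hs => Dn.sum _ _ fun j hj => Dn.int_mul ?_ _
  have h1 := (Dn_X hM Δ).pow s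
  rw [tay_X] at h1
  refine (h1.mul (he.pow j)).mono ?_
  rw [mem_range] at hs hj
  exact mul_dvd_mul (pow_dvd_pow _ (by omega)) (pow_dvd_pow _ hj.le)

theorem us_map {S S' : Type*} [CommRing S] [CommRing S'] (ψ : S →+* S') (J D : ℕ)
    (c : ℕ → ℕ → ℤ) (Z : PowerSeries S) :
    (us J D c Z).map ψ = us J D c (Z.map ψ) := by
  unfold us
  simp only [map_sum, map_mul, map_pow, map_intCast, PowerSeries.map_X]

theorem coeff_us {S : Type*} [CommRing S] (J D : ℕ) (c : ℕ → ℕ → ℤ) (Z : PowerSeries S) (k : ℕ) :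
    PowerSeries.coeff k (us J D c Z) =
      ∑ s ∈ range (J + 1), ∑ j ∈ range D, (c s j : S) * zc Z k s j := by
  unfold us zc
  rw [map_sum]
  refine sum_congr rfl fun s _ => ?_
  rw [map_sum]
  refine sum_congr rfl fun j _ => ?_
  have h1 : (c s j : PowerSeries S) = PowerSeries.C (c s j : S) := (map_intCast _ _).symm
  rw [h1, PowerSeries.coeff_C_mul]

end Pool.Agent.H87.SA
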