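import Pool.Agent.H87.SA.AnchEx

/-! # [SA-FINN] Final numerical estimates -/

namespace Pool.Agent.H87.SA

open Finset Polynomial Pool.Agent.H72.ES

/-- bound for `KK` -/
def Kd (d : ℕ) : ℕ := (d.factorial + 1) * (4 * d ^ 2 + 1)

theorem six_le_fac {d : ℕ} (hd : 3 ≤ d) : 6 ≤ d.factorial := by
  calc 6 = Nat.factorial 3 := rfl
    _ ≤ d.factorial := Nat.factorial_le hd

theorem Kd_le {d : ℕ} (hd : 3 ≤ d) : Kd d ≤ 5 * d ^ 2 * d.factorial := by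
  have h6 := six_le_fac hd
  have h9 : 9 ≤ d ^ 2 := by nlinarith
  unfold Kd
  generalize d.factorial = t at *
  generalize d ^ 2 = s at *
  nlinarith

theorem KK_le {d D : ℕ} (hD : D ≤ d.factorial) : KK D (4 * d ^ 2) ≤ Kd d := by
  unfold KK Kd
  exact Nat.mul_le_mul (by omega) le_rfl

theorem qq_le {d : ℕ} {c : Fin d → ℤ} {h : ℤ[X]} {B N : ℕ} (H : SHyp c h B N) :
    qq c ≤ N := by
  have hd := H.d3
  have hB := H.B2
  have hbi : ∀ i, (bi c i).natAbs ≤ (2 * B) ^ d := by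
    intro i
    unfold bi
    have e1 : (∏ j ∈ univ.erase i, (c i - c j)).natAbs = ∏ j ∈ univ.erase i, (c i - c j).natAbs :=
      map_prod Int.natAbsHom _ _
    rw [e1]
    refine (prod_le_prod' (g := fun _ => 2 * B) (s := univ.erase i) ?_).trans ?_
    · intro j _
      have h1 := H.cB i
      have h2 := H.cB j
      rw [abs_le] at h1 h2
      omega
    · rw [prod_const]
      refine Nat.pow_le_pow_right (by omega) ?_
      refine (card_le_univ _).trans ?_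
      rw [Fintype.card_fin]
  have h2 : qq c ≤ ∏ _i : Fin d, ((2 * B) ^ d) ^ 2 := by
    unfold qq
    exact prod_le_prod' fun i _ => Nat.pow_le_pow_left (hbi i) 2
  rw [prod_const, card_univ, Fintype.card_fin] at h2
  refine h2.trans (le_trans ?_ H.big)
  calc (((2 * B) ^ d) ^ 2) ^ d ≤ (((B ^ 2) ^ d) ^ 2) ^ d := by
        have : 2 * B ≤ B ^ 2 := by nlinarith
        gcongr
    _ = B ^ (4 * d ^ 2) := by rw [← pow_mul, ← pow_mul, ← pow_mul]; congr 1; ring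
    _ ≤ B ^ (20 * d ^ 2) := Nat.pow_le_pow_right (by omega) (by omega)

theorem big_of {n d B N : ℕ} (hn : 4 ≤ n) (hd : 3 ≤ d) (hB : 2 ≤ B)
    (hN : B ^ (10 ^ 7 * n ^ 4 * d ^ 4 * d.factorial) ≤ N) : B ^ (20 * d ^ 2) ≤ N := by
  refine le_trans (Nat.pow_le_pow_right (by omega) ?_) hN
  have h6 := six_le_fac hd
  have h1 : 1 ≤ n ^ 4 := Nat.one_le_pow _ _ (by omega)
  have h2 : d ^ 2 ≤ d ^ 4 := Nat.pow_le_pow_right (by omega) (by norm_num)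
  calc 20 * d ^ 2 ≤ 10 ^ 7 * 1 * d ^ 4 * 1 := by omega
    _ ≤ 10 ^ 7 * n ^ 4 * d ^ 4 * d.factorial := by gcongr; omega

/-- the hypothesis on `M` in the core -/
theorem hRM_of {n d D B N M : ℕ} (hn : 4 ≤ n) (hd : 3 ≤ d) (hB : 2 ≤ B) (hD : D ≤ d.factorial)
    (hN : B ^ (10 ^ 7 * n ^ 4 * d ^ 4 * d.factorial) ≤ N) (hM : N ≤ M) :
    (16 * (B : ℝ) ^ (12 * d ^ 2)) ^ (10 ^ 5 * n ^ 4 * KK D (4 * d ^ 2)) ≤ (M : ℝ) := by
  have h1 : (16 * B ^ (12 * d ^ 2)) ^ (10 ^ 5 * n ^ 4 * KK D (4 * d ^ 2)) ≤ M := by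
    refine le_trans ?_ (hN.trans hM)
    have e1 : 16 * B ^ (12 * d ^ 2) ≤ B ^ (13 * d ^ 2) := by
      calc 16 * B ^ (12 * d ^ 2) ≤ B ^ 4 * B ^ (12 * d ^ 2) := by
            have : 2 ^ 4 ≤ B ^ 4 := Nat.pow_le_pow_left hB 4
            gcongr
            omega
        _ = B ^ (4 + 12 * d ^ 2) := by rw [pow_add]
        _ ≤ B ^ (13 * d ^ 2) := Nat.pow_le_pow_right (by omega) (by nlinarith)
    have e2 : KK D (4 * d ^ 2) ≤ 5 * d ^ 2 * d.factorial := (KK_le hD).trans (Kd_le hd)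
    calc (16 * B ^ (12 * d ^ 2)) ^ (10 ^ 5 * n ^ 4 * KK D (4 * d ^ 2))
        ≤ (B ^ (13 * d ^ 2)) ^ (10 ^ 5 * n ^ 4 * KK D (4 * d ^ 2)) := Nat.pow_le_pow_left e1 _
      _ = B ^ (13 * d ^ 2 * (10 ^ 5 * n ^ 4 * KK D (4 * d ^ 2))) := by rw [← pow_mul]
      _ ≤ B ^ (10 ^ 7 * n ^ 4 * d ^ 4 * d.factorial) := by
          refine Nat.pow_le_pow_right (by omega) ?_
          calc 13 * d ^ 2 * (10 ^ 5 * n ^ 4 * KK D (4 * d ^ 2))
              ≤ 13 * d ^ 2 * (10 ^ 5 * n ^ 4 * (5 * d ^ 2 * d.factorial)) := by gcongr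
            _ = 6500000 * (n ^ 4 * d ^ 4 * d.factorial) := by ring
            _ ≤ 10 ^ 7 * (n ^ 4 * d ^ 4 * d.factorial) := Nat.mul_le_mul_right _ (by norm_num)
            _ = _ := by ring
  exact_mod_cast h1

/-- the window -/
noncomputable def WW (n d M Q : ℕ) : ℝ :=
  ((M : ℝ) ^ (4 * d.factorial) * bb n Q * bb n Q) ^ (10 ^ 6 * n ^ 3 * Kd d) *
    (M : ℝ) ^ (10 ^ 6 * n ^ 6 * Kd d ^ 2)

theorem fin_num {n d N M H : ℕ} (hn : 4 ≤ n) (hd : 3 ≤ d) (hH : 2 ≤ H) (hN : 1 ≤ N)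
    (hM : M ≤ N ^ 2) : ((2 * H ^ n : ℕ) : ℝ) ^ 2 * WW n d M (2 * H ^ n) ≤
      (N : ℝ) ^ (6 * 10 ^ 7 * n ^ 6 * d ^ 4 * d.factorial ^ 2) *
      (H : ℝ) ^ (9 * 10 ^ 7 * n ^ 6 * d ^ 2 * d.factorial) := by
  set Q : ℕ := 2 * H ^ n with hQ
  have hQH : Q ≤ H ^ (n + 1) := by
    rw [hQ, pow_succ]
    calc 2 * H ^ n ≤ H * H ^ n := Nat.mul_le_mul_right _ hH
      _ = H ^ n * H := by ring
  have hK := Kd_le hd
  have h6 := six_le_fac hd
  have hQ0 : (0 : ℝ) ≤ Q := Nat.cast_nonneg _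
  have hQHR : (Q : ℝ) ≤ (H : ℝ) ^ (n + 1) := by exact_mod_cast hQH
  have hHR : (1 : ℝ) ≤ H := by exact_mod_cast (by omega : 1 ≤ H)
  have hNR : (1 : ℝ) ≤ N := by exact_mod_cast hN
  have hMR : (M : ℝ) ≤ (N : ℝ) ^ 2 := by exact_mod_cast hM
  set t := d.factorial with ht
  set s := d ^ 2 with hs
  have hs9 : 9 ≤ s := by rw [hs]; nlinarith
  have hn3 : 64 ≤ n ^ 3 := by
    calc 64 = 4 ^ 3 := by norm_num
      _ ≤ n ^ 3 := Nat.pow_le_pow_left hn 3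
  have e1 : (Q : ℝ) ^ 2 * WW n d M Q =
      (M : ℝ) ^ (4 * t * (10 ^ 6 * n ^ 3 * Kd d) + 10 ^ 6 * n ^ 6 * Kd d ^ 2) *
      (Q : ℝ) ^ (2 + (7 * n ^ 2 + 7 * n ^ 2) * (10 ^ 6 * n ^ 3 * Kd d)) := by
    unfold WW bb
    rw [mul_pow, mul_pow, ← pow_mul, pow_add, pow_add, add_mul, pow_add, ← pow_mul]
    ring
  rw [e1]
  refine mul_le_mul ?_ ?_ (by positivity) (by positivity)
  · calc (M : ℝ) ^ (4 * t * (10 ^ 6 * n ^ 3 * Kd d) + 10 ^ 6 * n ^ 6 * Kd d ^ 2)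
        ≤ ((N : ℝ) ^ 2) ^ (4 * t * (10 ^ 6 * n ^ 3 * Kd d) + 10 ^ 6 * n ^ 6 * Kd d ^ 2) :=
          pow_le_pow_left₀ (Nat.cast_nonneg _) hMR _
      _ = (N : ℝ) ^ (2 * (4 * t * (10 ^ 6 * n ^ 3 * Kd d) + 10 ^ 6 * n ^ 6 * Kd d ^ 2)) := by
          rw [← pow_mul]
      _ ≤ (N : ℝ) ^ (6 * 10 ^ 7 * n ^ 6 * d ^ 4 * t ^ 2) := by
          refine pow_le_pow_right₀ hNR ?_
          have k1 : Kd d ^ 2 ≤ (5 * s * t) ^ 2 := Nat.pow_le_pow_left hK 2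
          have k2 : d ^ 4 = s ^ 2 := by rw [hs]; ring
          rw [k2]
          calc 2 * (4 * t * (10 ^ 6 * n ^ 3 * Kd d) + 10 ^ 6 * n ^ 6 * Kd d ^ 2)
              ≤ 2 * (4 * t * (10 ^ 6 * n ^ 3 * (5 * s * t)) + 10 ^ 6 * n ^ 6 * (5 * s * t) ^ 2) := by
                gcongr
            _ = 40000000 * (n ^ 3 * (s * t ^ 2)) + 50000000 * (n ^ 6 * (s ^ 2 * t ^ 2)) := by ring
            _ ≤ 10000000 * (n ^ 6 * (s ^ 2 * t ^ 2)) + 50000000 * (n ^ 6 * (s ^ 2 * t ^ 2)) := by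
                have k3 : 4 * (n ^ 3 * (s * t ^ 2)) ≤ n ^ 6 * (s ^ 2 * t ^ 2) := by
                  calc 4 * (n ^ 3 * (s * t ^ 2)) = (4 * n ^ 3) * (s * t ^ 2) := by ring
                    _ ≤ (n ^ 3 * n ^ 3) * (s * s * t ^ 2) := by
                        refine Nat.mul_le_mul (Nat.mul_le_mul_right _ (by omega)) ?_
                        refine Nat.mul_le_mul_right _ ?_
                        nlinarith
                    _ = n ^ 6 * (s ^ 2 * t ^ 2) := by ring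
                omega
            _ = 6 * 10 ^ 7 * n ^ 6 * s ^ 2 * t ^ 2 := by ring
  · calc (Q : ℝ) ^ (2 + (7 * n ^ 2 + 7 * n ^ 2) * (10 ^ 6 * n ^ 3 * Kd d))
        ≤ ((H : ℝ) ^ (n + 1)) ^ (2 + (7 * n ^ 2 + 7 * n ^ 2) * (10 ^ 6 * n ^ 3 * Kd d)) :=
          pow_le_pow_left₀ hQ0 hQHR _
      _ = (H : ℝ) ^ ((n + 1) * (2 + (7 * n ^ 2 + 7 * n ^ 2) * (10 ^ 6 * n ^ 3 * Kd d))) := by
          rw [← pow_mul]
      _ ≤ (H : ℝ) ^ (9 * 10 ^ 7 * n ^ 6 * s * t) := by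
          refine pow_le_pow_right₀ hHR ?_
          have k1 : 1 ≤ n ^ 5 * (s * t) := by
            have : 1 ≤ n ^ 5 := Nat.one_le_pow _ _ (by omega)
            have : 1 ≤ s * t := Nat.mul_pos (by omega) (by omega)
            exact Nat.mul_pos (by omega) (by omega)
          have k2 : 4 * (n + 1) ≤ 5 * n := by omega
          have k3 : 4 * ((n + 1) * (2 + (7 * n ^ 2 + 7 * n ^ 2) * (10 ^ 6 * n ^ 3 * Kd d))) ≤
              4 * (9 * 10 ^ 7 * n ^ 6 * s * t) := by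
            calc 4 * ((n + 1) * (2 + (7 * n ^ 2 + 7 * n ^ 2) * (10 ^ 6 * n ^ 3 * Kd d)))
                = (4 * (n + 1)) * (2 + (7 * n ^ 2 + 7 * n ^ 2) * (10 ^ 6 * n ^ 3 * Kd d)) := by ring
              _ ≤ (5 * n) * (2 + (7 * n ^ 2 + 7 * n ^ 2) * (10 ^ 6 * n ^ 3 * (5 * s * t))) := by
                  gcongr
              _ = (5 * n) * (2 + 70000000 * (n ^ 5 * (s * t))) := by ring
              _ ≤ (5 * n) * (72000000 * (n ^ 5 * (s * t))) := by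
                  refine Nat.mul_le_mul_left _ ?_
                  omega
              _ = 4 * (9 * 10 ^ 7 * n ^ 6 * s * t) := by ring
          omega

end Pool.Agent.H87.SA
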