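import Pool.Agent.H87.SA.Core
import Pool.Agent.H87.SA.FinN
import Pool.Agent.H97.AN.Fin

/-! # [SA-FIN] The effective theorem for integer arrays and for polynomials -/

namespace Pool.Agent.H87.SA

open Finset Polynomial Pool.Agent.H72.ES Pool.Agent.H8.KF Pool.Agent.H8.NoPt

theorem split_array {n : ℕ} (hn : 4 ≤ n) {d : ℕ} {c : Fin d → ℤ} {h : ℤ[X]} {B N : ℕ}
    (hd3 : 3 ≤ d) (hinj : Function.Injective c) (hB : 2 ≤ B) (hcB : ∀ i, |c i| ≤ (B : ℤ))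
    (hdeg : h.degree < d) (hhB : ∀ k, |h.coeff k| ≤ (B : ℤ))
    (hN : B ^ (10 ^ 7 * n ^ 4 * d ^ 4 * d.factorial) ≤ N) (G : ℕ → ℕ → ℤ) (haG : G 0 n ≠ 0)
    (hirr : Irreducible (leadQ n G)) (γ : AdjoinRoot (leadQ n G))
    (hγ0 : ei (gpol c h N) γ = 0) (hγ3 : 3 ≤ (minpoly ℚ γ).natDegree) (H : ℕ) (hH : 2 ≤ H)
    (hG : ∀ i j, i + j ≤ n → |G i j| ≤ (H : ℤ)) (x y : ℤ) (hz : ev n G x y = 0) :
    ((max |x| |y| : ℤ) : ℝ) ≤ (N : ℝ) ^ (6 * 10 ^ 7 * n ^ 6 * d ^ 4 * d.factorial ^ 2) *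
      (H : ℝ) ^ (9 * 10 ^ 7 * n ^ 6 * d ^ 2 * d.factorial) := by
  have hyp : SHyp c h B N :=
    { d3 := hd3
      inj := hinj
      B2 := hB
      cB := hcB
      hdeg := hdeg
      hB := hhB
      big := big_of hn hd3 hB hN }
  set f := lead n (nrm n G) with hfdef
  have hf : Irreducible f := lead_nrm_irreducible (by omega) G haG hirr
  obtain ⟨hmf, hdf⟩ := lead_nrm_monic (n := n) G
  set a := G 0 n with hadef
  set M0 : ℕ := H ^ n with hM0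
  set Q : ℕ := 2 * M0 with hQ
  have hM2 : 2 ^ n ≤ M0 := Nat.pow_le_pow_left hH n
  have hfam : Fam n Q M0 f (nrm n G) :=
    { hn := hn
      hQ := by omega
      hM := le_refl _
      irr := hf
      lead_eq := rfl
      top := by simp [nrm]
      bound := fun i j hij => nrm_bound (by omega) G H (by omega) hG i j hij }
  have hNl := hfam.norml
  have hz' : ev n (nrm n G) x (a * y) = 0 := by
    rw [hadef, ev_nrm (by omega), hz, mul_zero]
  have hy' : |y| ≤ |a * y| := by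
    rw [abs_mul]
    have : 1 ≤ |a| := Int.one_le_abs haG
    nlinarith [abs_nonneg y]
  have hmax : max |x| |y| ≤ max |x| |a * y| := max_le_max le_rfl hy'
  have hQ1 := one_le_QR hfam.hn hfam.hQ
  have hb1 := one_le_bb hfam.hn hfam.hQ
  have hqq := qq_le hyp
  have hqq1 := qq_pos hyp
  have hN1 := one_le_N hyp
  set M : ℕ := qq c * N with hMdef
  have hNM : N ≤ M := by rw [hMdef]; exact Nat.le_mul_of_pos_left _ hqq1
  have hMN : M ≤ N ^ 2 := by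
    rw [hMdef, sq]
    exact Nat.mul_le_mul_right _ hqq
  have hM1 : 1 ≤ M := hN1.trans hNM
  have hM1R : (1 : ℝ) ≤ M := by exact_mod_cast hM1
  by_cases hsmall : ((max |x| |a * y| : ℤ) : ℝ) < (Q : ℝ) ^ 2 * WW n d M Q
  · have h2 : ((max |x| |y| : ℤ) : ℝ) ≤ ((max |x| |a * y| : ℤ) : ℝ) := by exact_mod_cast hmax
    exact (h2.trans hsmall.le).trans (fin_num hn hd3 hH hN1 hMN)
  · exfalso
    push Not at hsmall
    set Bb := bb n Q with hBb
    have hB0 : 0 < Bb := by linarith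
    have hMd : (1 : ℝ) ≤ (M : ℝ) ^ (4 * d.factorial) := one_le_pow₀ hM1R
    have hKd1 : 1 ≤ Kd d := by
      unfold Kd
      exact Nat.mul_pos (Nat.succ_pos _) (Nat.succ_pos _)
    have hn3 : n ≤ n ^ 3 := Nat.le_self_pow (by norm_num) n
    have hG1 : (1 : ℝ) ≤ (M : ℝ) ^ (4 * d.factorial) * Bb := one_le_mul_of_one_le_of_one_le hMd hb1
    have hGB1 : (1 : ℝ) ≤ (M : ℝ) ^ (4 * d.factorial) * Bb * Bb :=
      one_le_mul_of_one_le_of_one_le hG1 hb1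
    have hWW1 : (1 : ℝ) ≤ (M : ℝ) ^ (10 ^ 6 * n ^ 6 * Kd d ^ 2) := one_le_pow₀ hM1R
    have hWW2 : (1 : ℝ) ≤ ((M : ℝ) ^ (4 * d.factorial) * Bb * Bb) ^ (10 ^ 6 * n ^ 3 * Kd d) :=
      one_le_pow₀ hGB1
    have hBW : Bb ^ (n + 3) ≤ WW n d M Q := by
      have e1 : Bb ≤ (M : ℝ) ^ (4 * d.factorial) * Bb * Bb := by nlinarith
      have e3 : n + 3 ≤ 10 ^ 6 * n ^ 3 * Kd d := by
        calc n + 3 ≤ 10 ^ 6 * n ^ 3 * 1 := by omega
          _ ≤ 10 ^ 6 * n ^ 3 * Kd d := Nat.mul_le_mul_left _ hKd1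
      calc Bb ^ (n + 3) ≤ Bb ^ (10 ^ 6 * n ^ 3 * Kd d) := pow_le_pow_right₀ hb1 e3
        _ ≤ ((M : ℝ) ^ (4 * d.factorial) * Bb * Bb) ^ (10 ^ 6 * n ^ 3 * Kd d) :=
            pow_le_pow_left₀ hB0.le e1 _
        _ = ((M : ℝ) ^ (4 * d.factorial) * Bb * Bb) ^ (10 ^ 6 * n ^ 3 * Kd d) * 1 := by ring
        _ ≤ WW n d M Q := by
            unfold WW
            exact mul_le_mul_of_nonneg_left hWW1 (by positivity)
    obtain ⟨hxW, θ, hθ, hnear⟩ := far_pointB hNl hf x (a * y)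
      (by rw [hz', abs_zero]; exact Int.natCast_nonneg Q) (WW n d M Q) hBW hsmall
    obtain ⟨hm, hdg, hco⟩ := hNl.lead_props
    -- the anchor
    have hfact : Fact (Irreducible (leadQ n G)) := ⟨hirr⟩
    have hcR : ((a : ℤ) : ℝ) ≠ 0 := by exact_mod_cast haG
    have hcz : CharZero (AdjoinRoot (leadQ n G)) := algebraRat.charZero _
    have hroot' : eval₂ (algebraMap ℚ ℝ) (θ / ((a : ℤ) : ℝ)) (leadQ n G) = 0 := by
      have h1 := eval_nrm (n := n) (by omega) G (algebraMap ℤ ℝ) (algebraMap ℚ ℝ)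
        (θ / ((a : ℤ) : ℝ))
      have h2 : ((G 0 n : ℤ) : ℝ) * (θ / ((a : ℤ) : ℝ)) = θ := by
        rw [← hadef]
        field_simp
      rw [aeval_def] at hθ
      rw [h2, hθ] at h1
      exact (mul_eq_zero.1 h1.symm).resolve_left (pow_ne_zero _ hcR)
    let ψ : AdjoinRoot (leadQ n G) →ₐ[ℚ] ℝ :=
      AdjoinRoot.liftAlgHom (leadQ n G) (Algebra.ofId ℚ ℝ) (θ / ((a : ℤ) : ℝ)) hroot'
    have hψroot : ψ (AdjoinRoot.root (leadQ n G)) = θ / ((a : ℤ) : ℝ) :=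
      AdjoinRoot.liftAlgHom_root _ _ _ _
    have hξ0 : ei (gpol c h N) (ψ γ) = 0 := by
      have h1 := map_ei (ψ : AdjoinRoot (leadQ n G) →+* ℝ) (gpol c h N) γ
      rw [hγ0, map_zero] at h1
      exact h1.symm
    have hξ3 : 3 ≤ (minpoly ℚ (ψ γ)).natDegree := by
      rw [minpoly.algHom_eq ψ ψ.toRingHom.injective γ]
      exact hγ3
    have hξ1 : ψ γ ∈ IntermediateField.adjoin ℚ {θ} := by
      obtain ⟨P, rfl⟩ := AdjoinRoot.mk_surjective γ
      have h1 : ψ (AdjoinRoot.mk (leadQ n G) P) = aeval (θ / ((a : ℤ) : ℝ)) P := by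
        rw [← AdjoinRoot.aeval_eq, ← hψroot]
        exact (Polynomial.aeval_algHom_apply ψ (AdjoinRoot.root (leadQ n G)) P).symm
      rw [h1]
      have h2 : θ / ((a : ℤ) : ℝ) ∈ IntermediateField.adjoin ℚ {θ} := by
        refine div_mem (IntermediateField.mem_adjoin_simple_self ℚ θ) ?_
        exact intCast_mem _ _
      have h3 := (aeval (⟨_, h2⟩ : IntermediateField.adjoin ℚ {θ}) P).2
      have h4 : ((aeval (⟨_, h2⟩ : IntermediateField.adjoin ℚ {θ}) P : _) : ℝ) =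
          aeval (θ / ((a : ℤ) : ℝ)) P := by
        have := (Polynomial.aeval_algHom_apply (IntermediateField.adjoin ℚ {θ}).val
          (⟨_, h2⟩ : IntermediateField.adjoin ℚ {θ}) P).symm
        simpa using this
      rw [h4] at h3
      exact h3
    obtain ⟨O, D, m, hD1, hDd, h3m, ⟨an⟩⟩ := exists_anch hn hNl.hQ hm hdg hco hf θ hθ hyp (ψ γ)
      hξ0 hξ1 hξ3
    have hR2 : (2 : ℝ) ≤ (B : ℝ) ^ (12 * d ^ 2) := by
      have e1 : (2 : ℝ) ≤ B := by exact_mod_cast hB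
      exact e1.trans (le_self_pow₀ (by linarith) (by positivity))
    have hKK := KK_le hDd
    refine core_point hf O hNl h3m hD1 (by nlinarith) hR2 hG1 an
      (hRM_of hn hd3 hB hDd hN hNM) x (a * y) hz' hnear ?_ ?_
    · refine le_trans ?_ hxW
      calc (M : ℝ) ^ (10 ^ 6 * n ^ 6 * KK D (4 * d ^ 2) ^ 2) ≤
            (M : ℝ) ^ (10 ^ 6 * n ^ 6 * Kd d ^ 2) := pow_le_pow_right₀ hM1R (by gcongr)
        _ = 1 * (M : ℝ) ^ (10 ^ 6 * n ^ 6 * Kd d ^ 2) := by ring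
        _ ≤ WW n d M Q := by
            unfold WW
            exact mul_le_mul_of_nonneg_right hWW2 (by positivity)
    · refine le_trans ?_ hxW
      calc ((M : ℝ) ^ (4 * d.factorial) * Bb * bb n Q) ^ (10 ^ 6 * n ^ 3 * KK D (4 * d ^ 2)) ≤
            ((M : ℝ) ^ (4 * d.factorial) * Bb * Bb) ^ (10 ^ 6 * n ^ 3 * Kd d) :=
            pow_le_pow_right₀ hGB1 (by gcongr)
        _ = ((M : ℝ) ^ (4 * d.factorial) * Bb * Bb) ^ (10 ^ 6 * n ^ 3 * Kd d) * 1 := by ring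
        _ ≤ WW n d M Q := by
            unfold WW
            exact mul_le_mul_of_nonneg_left hWW1 (by positivity)

/-- **Effective Siegel theorem for curves whose root field contains a root of a split anchored
polynomial.** -/
theorem split_poly {n d : ℕ} (hn : 4 ≤ n) (hd : 3 ≤ d) {c : Fin d → ℤ} {h : ℤ[X]} {B N : ℕ}
    (hinj : Function.Injective c) (hB : 2 ≤ B) (hcB : ∀ i, |c i| ≤ (B : ℤ)) (hdeg : h.degree < d)
    (hhB : ∀ k, |h.coeff k| ≤ (B : ℤ)) (hN : B ^ (10 ^ 7 * n ^ 4 * d ^ 4 * d.factorial) ≤ N)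
    (F : MvPolynomial (Fin 2) ℤ) (hFdeg : F.totalDegree ≤ n)
    (hirr : Irreducible (MvPolynomial.map (Int.castRingHom ℚ)
        (MvPolynomial.homogeneousComponent n F)))
    (hroot : ∃ γ : AdjoinRoot (MvPolynomial.aeval ![(1 : ℚ[X]), X]
        (MvPolynomial.homogeneousComponent n F)),
      aeval γ (C (N : ℤ) * ∏ i, (X - C (c i)) + h) = 0 ∧ 3 ≤ (minpoly ℚ γ).natDegree)
    (x y : ℤ) (hz : MvPolynomial.eval ![x, y] F = 0) :
    max |x| |y| ≤ (N : ℤ) ^ (10 ^ 8 * n ^ 6 * d ^ 4 * d.factorial ^ 2) *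
      ((F.support.sup fun m => (F.coeff m).natAbs : ℕ) : ℤ) ^
        (10 ^ 8 * n ^ 6 * d ^ 2 * d.factorial) := by
  have hbd := coeff_le_sup F
  set H := F.support.sup fun m => (F.coeff m).natAbs with hH
  rw [aeval_lead] at hroot
  obtain ⟨γ, hγ0, hγ3⟩ := hroot
  obtain ⟨hG0, hirr'⟩ := leadQ_of_irreducible (by omega) hirr
  have hz' : ev n (arrM F) x y = 0 := by rw [← eval_arrM hFdeg]; exact hz
  have hγ0' : ei (gpol c h N) γ = 0 := by
    rw [ei_aeval]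
    exact hγ0
  have hH1 : 1 ≤ H := by
    by_contra hc
    have h0 : H = 0 := by omega
    have h1 := hbd (ex 0 n)
    rw [h0] at h1
    apply hG0
    have h2 : F.coeff (ex 0 n) = 0 := by
      have h3 := abs_nonneg (F.coeff (ex 0 n))
      have h4 : |F.coeff (ex 0 n)| ≤ 0 := by simpa using h1
      exact abs_eq_zero.1 (le_antisymm h4 h3)
    exact h2
  have hmain := split_array hn hd hinj hB hcB hdeg hhB hN (arrM F) hG0 hirr' γ hγ0' hγ3 (max 2 H)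
    (le_max_left _ _) (fun i j _ => (hbd _).trans (by exact_mod_cast le_max_right 2 H)) x y hz'
  have hHR : (1 : ℝ) ≤ H := by exact_mod_cast hH1
  have hN1 : 1 ≤ N := (Nat.one_le_pow _ _ (by omega)).trans hN
  have hNR : (1 : ℝ) ≤ N := by exact_mod_cast hN1
  have hBR : (2 : ℝ) ≤ B := by exact_mod_cast hB
  have hNRR : (2 : ℝ) ^ (10 ^ 7 * n ^ 4 * d ^ 4 * d.factorial) ≤ N := by
    have e1 : (B : ℝ) ^ (10 ^ 7 * n ^ 4 * d ^ 4 * d.factorial) ≤ N := by exact_mod_cast hN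
    exact (pow_le_pow_left₀ (by norm_num) hBR _).trans e1
  have h6 := six_le_fac hd
  have hfin : ((max |x| |y| : ℤ) : ℝ) ≤
      (N : ℝ) ^ (10 ^ 8 * n ^ 6 * d ^ 4 * d.factorial ^ 2) *
        (H : ℝ) ^ (10 ^ 8 * n ^ 6 * d ^ 2 * d.factorial) := by
    refine hmain.trans ?_
    set t := d.factorial with ht
    have e1 : (((max 2 H : ℕ) : ℝ)) ≤ 2 * H := by
      push_cast
      exact max_le (by linarith) (by linarith)
    have hd2 : 9 ≤ d ^ 2 := by nlinarith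
    have e2 : (((max 2 H : ℕ) : ℝ)) ^ (9 * 10 ^ 7 * n ^ 6 * d ^ 2 * t) ≤
        (N : ℝ) ^ (n ^ 2) * (H : ℝ) ^ (9 * 10 ^ 7 * n ^ 6 * d ^ 2 * t) := by
      refine (pow_le_pow_left₀ (Nat.cast_nonneg _) e1 _).trans ?_
      rw [mul_pow]
      refine mul_le_mul_of_nonneg_right ?_ (by positivity)
      calc (2 : ℝ) ^ (9 * 10 ^ 7 * n ^ 6 * d ^ 2 * t) ≤
            (2 : ℝ) ^ (10 ^ 7 * n ^ 4 * d ^ 4 * t * n ^ 2) := by
            refine pow_le_pow_right₀ (by norm_num) ?_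
            calc 9 * 10 ^ 7 * n ^ 6 * d ^ 2 * t = 10 ^ 7 * n ^ 6 * (9 * d ^ 2) * t := by ring
              _ ≤ 10 ^ 7 * n ^ 6 * (d ^ 2 * d ^ 2) * t := by gcongr
              _ = 10 ^ 7 * n ^ 4 * d ^ 4 * t * n ^ 2 := by ring
        _ = ((2 : ℝ) ^ (10 ^ 7 * n ^ 4 * d ^ 4 * t)) ^ (n ^ 2) := by rw [pow_mul]
        _ ≤ (N : ℝ) ^ (n ^ 2) := pow_le_pow_left₀ (by positivity) hNRR _
    calc (N : ℝ) ^ (6 * 10 ^ 7 * n ^ 6 * d ^ 4 * t ^ 2) *
          (((max 2 H : ℕ) : ℝ)) ^ (9 * 10 ^ 7 * n ^ 6 * d ^ 2 * t)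
        ≤ (N : ℝ) ^ (6 * 10 ^ 7 * n ^ 6 * d ^ 4 * t ^ 2) * ((N : ℝ) ^ (n ^ 2) *
          (H : ℝ) ^ (9 * 10 ^ 7 * n ^ 6 * d ^ 2 * t)) := by gcongr
      _ = (N : ℝ) ^ (6 * 10 ^ 7 * n ^ 6 * d ^ 4 * t ^ 2 + n ^ 2) *
          (H : ℝ) ^ (9 * 10 ^ 7 * n ^ 6 * d ^ 2 * t) := by
          rw [pow_add]; ring
      _ ≤ (N : ℝ) ^ (10 ^ 8 * n ^ 6 * d ^ 4 * t ^ 2) *
          (H : ℝ) ^ (10 ^ 8 * n ^ 6 * d ^ 2 * t) := by
          refine mul_le_mul (pow_le_pow_right₀ hNR ?_) (pow_le_pow_right₀ hHR ?_)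
            (by positivity) (by positivity)
          · have k1 : n ^ 2 ≤ n ^ 6 * (d ^ 4 * t ^ 2) := by
              calc n ^ 2 ≤ n ^ 6 := Nat.pow_le_pow_right (by omega) (by norm_num)
                _ = n ^ 6 * 1 := (mul_one _).symm
                _ ≤ n ^ 6 * (d ^ 4 * t ^ 2) := by
                    refine Nat.mul_le_mul_left _ ?_
                    exact Nat.mul_pos (by positivity) (by positivity)
            calc 6 * 10 ^ 7 * n ^ 6 * d ^ 4 * t ^ 2 + n ^ 2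
                ≤ 6 * 10 ^ 7 * n ^ 6 * d ^ 4 * t ^ 2 + n ^ 6 * (d ^ 4 * t ^ 2) := by omega
              _ = 60000001 * (n ^ 6 * (d ^ 4 * t ^ 2)) := by ring
              _ ≤ 100000000 * (n ^ 6 * (d ^ 4 * t ^ 2)) := Nat.mul_le_mul_right _ (by norm_num)
              _ = 10 ^ 8 * n ^ 6 * d ^ 4 * t ^ 2 := by ring
          · gcongr
            norm_num
  exact_mod_cast hfin

end Pool.Agent.H87.SA
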