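import Pool.Agent.H87.SA.Defs

/-!
# MP_821da1_nt: split anchored fields -- definitions of the number theoretic part

`g = N ∏ (X - c_i) + h`. `bi c i = ∏_{j ≠ i} (c_i - c_j)`, `qq c = ∏ |bi c i|^2`,
`gst = ∏ (X - N c_i) + hst`, `hst = ∑_{k<d} h_k N^(d-1-k) X^k`: so
`gst (N X) = N^(d-1) g (X)`, `hst (N X) = N^(d-1) h (X)`. `ei p u`: value of the integer
polynomial `p` at an element of any commutative ring.
-/

namespace Pool.Agent.H87.SA

open Finset Polynomial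

variable {d : ℕ}

/-- value of an integer polynomial -/
noncomputable def ei {S : Type*} [CommRing S] (p : ℤ[X]) (u : S) : S :=
  p.eval₂ (Int.castRingHom S) u

theorem map_ei {S S' : Type*} [CommRing S] [CommRing S'] (φ : S →+* S') (p : ℤ[X]) (u : S) :
    φ (ei p u) = ei p (φ u) := by
  unfold ei
  rw [Polynomial.hom_eval₂]
  congr 1
  exact RingHom.ext_int _ _

theorem ei_add {S : Type*} [CommRing S] (p q : ℤ[X]) (u : S) : ei (p + q) u = ei p u + ei q u :=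
  Polynomial.eval₂_add _ _

theorem ei_mul {S : Type*} [CommRing S] (p q : ℤ[X]) (u : S) : ei (p * q) u = ei p u * ei q u :=
  Polynomial.eval₂_mul _ _

theorem ei_aeval {S : Type*} [CommRing S] (p : ℤ[X]) (u : S) : ei p u = aeval u p := by
  rw [aeval_def]
  unfold ei
  congr 1

/-- the product of the differences `c_i - c_j`, `j ≠ i` -/
def bi (c : Fin d → ℤ) (i : Fin d) : ℤ := ∏ j ∈ univ.erase i, (c i - c j)

/-- the product of the squares of the `bi` -/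
def qq (c : Fin d → ℤ) : ℕ := ∏ i, (bi c i).natAbs ^ 2

/-- the anchor polynomial `N ∏ (X - c_i) + h` -/
noncomputable def gpol (c : Fin d → ℤ) (h : ℤ[X]) (N : ℕ) : ℤ[X] :=
  C (N : ℤ) * ∏ i, (X - C (c i)) + h

/-- the polynomial `N^(d-1) h (X / N)` -/
noncomputable def hst (d : ℕ) (h : ℤ[X]) (N : ℕ) : ℤ[X] :=
  ∑ k ∈ range d, C (h.coeff k * (N : ℤ) ^ (d - 1 - k)) * X ^ k

/-- the monic polynomial `N^(d-1) g (X / N)` -/
noncomputable def gst (c : Fin d → ℤ) (h : ℤ[X]) (N : ℕ) : ℤ[X] :=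
  ∏ i, (X - C ((N : ℤ) * c i)) + hst d h N

/-- the hypotheses on `c_i`, `h`, `N` -/
structure SHyp (c : Fin d → ℤ) (h : ℤ[X]) (B N : ℕ) : Prop where
  d3 : 3 ≤ d
  inj : Function.Injective c
  B2 : 2 ≤ B
  cB : ∀ i, |c i| ≤ (B : ℤ)
  hdeg : h.degree < d
  hB : ∀ k, |h.coeff k| ≤ (B : ℤ)
  big : B ^ (20 * d ^ 2) ≤ N

/-- the expansions at `0` of the roots, `T = t / qq c` -/
structure Ser (c : Fin d → ℤ) (h : ℤ[X]) (B : ℕ) where
  x : Fin d → PowerSeries ℤ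
  x0 : ∀ i, PowerSeries.constantCoeff (x i) = c i
  eq : ∀ i, ∏ j, (x i - PowerSeries.C (c j)) +
    PowerSeries.C (qq c : ℤ) * PowerSeries.X * ei h (x i) = 0
  le : ∀ i k, |(((PowerSeries.coeff k (x i) : ℤ)) : ℝ)| ≤ B * ((B : ℝ) ^ (12 * d ^ 2)) ^ k

/-- the real series `x_i` -/
noncomputable def Ser.xr {c : Fin d → ℤ} {h : ℤ[X]} {B : ℕ} (S : Ser c h B) (i : Fin d) :
    PowerSeries ℝ := (S.x i).map (Int.castRingHom ℝ)

/-- `N` times the value of `x_i` at `T = 1 / M`, `M = qq c * N`: a root of `gst` -/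
noncomputable def Ser.y {c : Fin d → ℤ} {h : ℤ[X]} {B : ℕ} (S : Ser c h B) (N : ℕ) (i : Fin d) :
    ℝ := N * evl (1 / ((qq c * N : ℕ) : ℝ)) (S.xr i)

end Pool.Agent.H87.SA
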