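import Pool.Agent.H87.SA.Defs

/-! # [SA-SERB] The formal implicit function theorem with bounds

`w` is given by `Pool.Agent.H72.ES.exists_series` (`Pool/Agent/H72/ES/Series.lean`). Bound exactly as
in `Pool.Agent.H72.ES.exists_branch` (`Pool/Agent/H72/ES/BranchEx.lean`): `b = (n+1)² C`,
`ρ = 1/b²`; by induction on `K`: `wn ν ρ K w ≤ 1/b`: the term `(i, j)` of the fixed point equation
contributes at most `C * ρ` (`wn_term_le`: `ρ^i (1/b)^j ≤ ρ` if `i ≥ 1` or `j ≥ 2`; the two others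
vanish), there are `(n+1)²` terms, `(n+1)² C ρ = b / b² = 1/b`. Then
`ν (coeff k w) ρ^k ≤ wn ν ρ k w ≤ 1/b` (single term of the sum), i.e. `ν (coeff k w) b ≤ b^(2k)`. -/

namespace Pool.Agent.H87.SA

open Finset Pool.Agent.H72.ES

theorem exists_series_bd {S : Type} [CommRing S] {ν : S → ℝ} (hν : SubMul ν) (n : ℕ)
    (c : ℕ → ℕ → S) (h00 : c 0 0 = 0) (h01 : c 0 1 = 0) {C : ℝ} (hC : 1 ≤ C)
    (hc : ∀ i j, i ≤ n → j ≤ n → ν (c i j) ≤ C) :
    ∃ w : PowerSeries S, PowerSeries.constantCoeff w = 0 ∧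
      w = ∑ i ∈ range (n + 1), ∑ j ∈ range (n + 1),
        PowerSeries.C (c i j) * PowerSeries.X ^ i * w ^ j ∧
      ∀ k, ν (PowerSeries.coeff k w) * (((n : ℝ) + 1) ^ 2 * C) ≤
        ((((n : ℝ) + 1) ^ 2 * C) ^ 2) ^ k := by
  obtain ⟨w, hw0, hw⟩ := exists_series n c h00 h01
  refine ⟨w, hw0, hw, ?_⟩
  obtain ⟨b, hbdef⟩ : ∃ b : ℝ, b = ((n : ℝ) + 1) ^ 2 * C := ⟨_, rfl⟩
  rw [← hbdef]
  have hn1 : (1 : ℝ) ≤ (n : ℝ) + 1 := by
    have : (0 : ℝ) ≤ n := Nat.cast_nonneg n
    linarith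
  have hn2 : (1 : ℝ) ≤ ((n : ℝ) + 1) ^ 2 := one_le_pow₀ hn1
  have hb1 : 1 ≤ b := by
    rw [hbdef]
    exact one_le_mul_of_one_le_of_one_le hn2 hC
  have hb : 0 < b := by linarith
  have hρ : (0 : ℝ) ≤ 1 / b ^ 2 := by positivity
  have hC0 : 0 ≤ C := by linarith
  have hterm : ∀ K i j : ℕ, i ≤ n → j ≤ n → wn ν (1 / b ^ 2) K w ≤ 1 / b →
      wn ν (1 / b ^ 2) (K + 1)
        (PowerSeries.C (c i j) * PowerSeries.X ^ i * w ^ j) ≤ C * (1 / b ^ 2) := by
    intro K i j hi hj hK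
    by_cases hij : i = 0 ∧ j ≤ 1
    · have : c i j = 0 := by
        obtain ⟨rfl, hj1⟩ := hij
        interval_cases j
        · exact h00
        · exact h01
      rw [this, map_zero, zero_mul, zero_mul, wn_zero hν]
      positivity
    · have hij' : 1 ≤ i ∨ 2 ≤ j := by omega
      rw [mul_assoc]
      refine (wn_mul_le hν hρ _ _ _).trans ?_
      rw [wn_C hν]
      refine mul_le_mul (hc i j hi hj) ?_ (wn_nonneg hν hρ _ _) hC0
      refine (wn_term_le hν hρ K i j w hw0 hij').trans ?_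
      have hr0 := wn_nonneg hν hρ K w
      have hr1 : (1 : ℝ) / b ≤ 1 := by
        rw [div_le_one hb]
        exact hb1
      have hρ1 : (1 : ℝ) / b ^ 2 ≤ 1 := by
        rw [div_le_one (by positivity)]
        exact one_le_pow₀ hb1
      rcases hij' with h | h
      · have h1 : (1 / b ^ 2) ^ i ≤ (1 / b ^ 2) ^ 1 :=
          pow_le_pow_of_le_one hρ hρ1 h
        have h2 : wn ν (1 / b ^ 2) K w ^ j ≤ 1 :=
          pow_le_one₀ hr0 (hK.trans hr1)
        rw [pow_one] at h1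
        calc (1 / b ^ 2) ^ i * wn ν (1 / b ^ 2) K w ^ j
            ≤ (1 / b ^ 2) * 1 := mul_le_mul h1 h2 (pow_nonneg hr0 _) hρ
          _ = _ := mul_one _
      · have h1 : (1 / b ^ 2) ^ i ≤ 1 := pow_le_one₀ hρ hρ1
        have h2 : wn ν (1 / b ^ 2) K w ^ j ≤ (1 / b) ^ j :=
          pow_le_pow_left₀ hr0 hK j
        have h3 : (1 / b) ^ j ≤ (1 / b) ^ 2 :=
          pow_le_pow_of_le_one (by positivity) hr1 h
        calc (1 / b ^ 2) ^ i * wn ν (1 / b ^ 2) K w ^ j
            ≤ 1 * (1 / b) ^ 2 :=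
              mul_le_mul h1 (h2.trans h3) (pow_nonneg hr0 _) zero_le_one
          _ = _ := by rw [one_mul, div_pow, one_pow]
  have hwn : ∀ K, wn ν (1 / b ^ 2) K w ≤ 1 / b := by
    intro K
    induction K with
    | zero =>
      have : wn ν (1 / b ^ 2) 0 w = 0 := by
        unfold wn
        simp [hw0, hν.zero]
      rw [this]
      positivity
    | succ K ih =>
      have h1 : wn ν (1 / b ^ 2) (K + 1) w ≤
          ∑ i ∈ range (n + 1), ∑ j ∈ range (n + 1), C * (1 / b ^ 2) := by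
        conv_lhs => rw [hw]
        refine (wn_sum_le hν hρ _ _ _).trans (sum_le_sum fun i hi => ?_)
        refine (wn_sum_le hν hρ _ _ _).trans (sum_le_sum fun j hj => ?_)
        simp only [mem_range] at hi hj
        exact hterm K i j (by omega) (by omega) ih
      refine h1.trans (le_of_eq ?_)
      simp only [sum_const, card_range, nsmul_eq_mul]
      push_cast
      have h2 : ((n : ℝ) + 1) * (((n : ℝ) + 1) * (C * (1 / b ^ 2))) = b * (1 / b ^ 2) := by
        rw [hbdef]; ring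
      rw [h2]
      field_simp
  intro k
  have h1 := (coeff_le_wn hν hρ (le_refl k) w).trans (hwn k)
  rw [div_pow, one_pow, mul_one_div, div_le_div_iff₀ (by positivity) hb, one_mul] at h1
  exact h1

end Pool.Agent.H87.SA
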