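import Pool.Agent.H87.SA.SDefs
import Pool.Agent.H87.SA.SerB

/-! # [SA-SERA] The expansions at `0` of the roots

Fix `i`, `b = bi c i ≠ 0` (`inj`), `β_j = b / (c i - c j)` for `j ≠ i` (exact division, the factor
`c i - c j` divides the product `b`), `q_i = ∏_{l ≠ i} |bi c l|^2`, so `qq c = b² q_i`.
Put `x = c_i + b v`. Then `∏_j (x - c_j) = b v ∏_{j ≠ i} ((c_i - c_j) + b v) =
b v ∏_{j≠i} (c_i - c_j)(1 + β_j v) = b² v ∏_{j≠i} (1 + β_j v)`, so the equation of `Ser.eq` is `b²` times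
`v ∏_{j≠i} (1 + β_j v) + q_i X h(c_i + b v) = 0`. With
`P = ∏_{j≠i} (1 + C β_j X) ∈ ℤ[X]` (constant coefficient 1, degree `≤ d - 1`) and
`H = h.comp (C c_i + C b X)` (degree `≤ d - 1`): the equation is
`v = - ∑_{j ≥ 2} P_(j-1) v^j - q_i X ∑_j H_j v^j`, which is the fixed point equation of
`exists_series_bd` over `ℤ`, `ν = |·|` (`Pool.Agent.H72.ES.subMul_intAbs`), `n = d`, with
`c 0 j = - P_(j-1)` for `j ≥ 2`, `c 0 0 = c 0 1 = 0`, `c 1 j = - q_i H_j`, `c i j = 0` for `i ≥ 2`.
Sizes (`B ≥ 2`, `2B ≤ B²`): `|b| ≤ (2B)^(d-1) ≤ B^(2(d-1))`, `|β_j| ≤ |b|`,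
`|P_j| ≤ ∏ (1 + |β_j|) ≤ (B^(2d-1))^(d-1)` (`L1` norm, `Pool.Agent.H72.ES` `L1`, `LN_mul_le`),
`|q_i| ≤ B^(4(d-1)²)`, `|H_j| ≤ ∑_k |h_k| (|c_i| + |b|)^k ≤ d B (2 B^(2(d-1)))^(d-1) ≤
B^(d-1) B B^(d-1) B^(2(d-1)²)`; so `C = B^(6(d-1)² + 2d - 1)` is a common bound,
`b' := (d+1)² C ≤ B^(6(d-1)²+4d-1)` (`d + 1 ≤ 2^d ≤ B^d`), `b'² ≤ B^(12 d²)` (`12(d-1)²+8d-2 ≤ 12d²`), and
`|x_0| = |c_i| ≤ B`, `|x_k| = |b| |v_k| ≤ b' |v_k| ≤ b'^(2k) ≤ (B^(12 d²))^k` for `k ≥ 1`. -/

namespace Pool.Agent.H87.SA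

open Finset Polynomial Pool.Agent.H72.ES

variable {d : ℕ} {c : Fin d → ℤ} {h : ℤ[X]} {B N : ℕ}

/-- absolute value of integers as a size function -/
theorem serA_sub : SubMul (fun a : ℤ => |(a : ℝ)|) where
  nonneg := fun _ => abs_nonneg _
  zero := by simp
  neg := fun a => by push_cast; exact abs_neg _
  add := fun a b => by push_cast; exact abs_add_le _ _
  mul := fun a b => by push_cast; exact (abs_mul _ _).le
  one := by simp

/-- partial products of the differences -/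
theorem serA_prod (H : SHyp c h B N) (i : Fin d) (s : Finset (Fin d)) {m : ℕ} (hs : s.card ≤ m) :
    |((∏ l ∈ s, (c i - c l) : ℤ) : ℝ)| ≤ (B : ℝ) ^ (2 * m) := by
  have hB : (2 : ℝ) ≤ B := by exact_mod_cast H.B2
  have h1 : ∀ l, |((c i - c l : ℤ) : ℝ)| ≤ (B : ℝ) ^ 2 := by
    intro l
    have h2 : |(c i : ℝ)| ≤ B := by exact_mod_cast H.cB i
    have h3 : |(c l : ℝ)| ≤ B := by exact_mod_cast H.cB l
    push_cast
    have := abs_sub (c i : ℝ) (c l : ℝ)
    nlinarith
  push_cast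
  rw [Finset.abs_prod]
  calc ∏ l ∈ s, |(c i : ℝ) - c l| ≤ ∏ _l ∈ s, (B : ℝ) ^ 2 := by
        refine Finset.prod_le_prod (fun _ _ => abs_nonneg _) fun l _ => ?_
        have := h1 l
        push_cast at this
        exact this
    _ = ((B : ℝ) ^ 2) ^ s.card := by rw [Finset.prod_const]
    _ ≤ ((B : ℝ) ^ 2) ^ m := pow_le_pow_right₀ (one_le_pow₀ (by linarith)) hs
    _ = _ := by rw [← pow_mul]

theorem serA_card (i : Fin d) : (univ.erase i).card = d - 1 := by
  rw [Finset.card_erase_of_mem (Finset.mem_univ i), Finset.card_univ, Fintype.card_fin]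

theorem serA_bi (H : SHyp c h B N) (i : Fin d) :
    |((bi c i : ℤ) : ℝ)| ≤ (B : ℝ) ^ (2 * (d - 1)) :=
  serA_prod H i _ (serA_card i).le

/-- the exact quotients `bi c i / (c i - c j)` -/
def serAβ (c : Fin d → ℤ) (i j : Fin d) : ℤ := ∏ l ∈ (univ.erase i).erase j, (c i - c l)

theorem serAβ_mul (i j : Fin d) (hj : j ∈ univ.erase i) :
    (c i - c j) * serAβ c i j = bi c i :=
  Finset.mul_prod_erase (univ.erase i) (fun l => c i - c l) hj

theorem serAβ_le (H : SHyp c h B N) (i j : Fin d) :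
    |((serAβ c i j : ℤ) : ℝ)| ≤ (B : ℝ) ^ (2 * (d - 1)) := by
  refine serA_prod H i _ ?_
  exact (Finset.card_le_card (Finset.erase_subset _ _)).trans (serA_card i).le

/-- the product of the squares of the other `bi` -/
def serAq (c : Fin d → ℤ) (i : Fin d) : ℤ := ∏ l ∈ univ.erase i, bi c l ^ 2

theorem serAq_eq (i : Fin d) : (qq c : ℤ) = bi c i ^ 2 * serAq c i := by
  unfold qq serAq
  push_cast
  have h1 : ∀ l, ((bi c l).natAbs : ℤ) ^ 2 = bi c l ^ 2 := fun l => Int.natAbs_sq _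
  simp only [sq_abs]
  exact (Finset.mul_prod_erase univ (fun l => bi c l ^ 2) (Finset.mem_univ i)).symm

theorem serAq_le (H : SHyp c h B N) (i : Fin d) :
    |((serAq c i : ℤ) : ℝ)| ≤ (B : ℝ) ^ (4 * (d - 1) ^ 2) := by
  unfold serAq
  push_cast
  rw [Finset.abs_prod]
  calc ∏ l ∈ univ.erase i, |(bi c l : ℝ) ^ 2| ≤ ∏ _l ∈ univ.erase i, ((B : ℝ) ^ (2 * (d - 1))) ^ 2 := by
        refine Finset.prod_le_prod (fun _ _ => abs_nonneg _) fun l _ => ?_
        rw [abs_pow]
        exact pow_le_pow_left₀ (abs_nonneg _) (serA_bi H l) 2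
    _ = _ := by
        rw [Finset.prod_const, serA_card, ← pow_mul, ← pow_mul]
        congr 1
        ring

/-- the polynomial `∏ (1 + β_j X)` -/
noncomputable def serAP (c : Fin d → ℤ) (i : Fin d) : ℤ[X] :=
  ∏ j ∈ univ.erase i, (1 + C (serAβ c i j) * X)

/-- the polynomial `h (c_i + b X)` -/
noncomputable def serAH (c : Fin d → ℤ) (h : ℤ[X]) (i : Fin d) : ℤ[X] :=
  h.comp (C (c i) + C (bi c i) * X)

theorem serAP_deg (i : Fin d) : (serAP c i).natDegree ≤ d - 1 := by
  unfold serAP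
  refine (Polynomial.natDegree_prod_le _ _).trans ?_
  calc ∑ j ∈ univ.erase i, (1 + C (serAβ c i j) * X : ℤ[X]).natDegree
      ≤ ∑ _j ∈ univ.erase i, 1 := by
        refine Finset.sum_le_sum fun j _ => ?_
        refine (Polynomial.natDegree_add_le _ _).trans (max_le (by simp) ?_)
        exact (Polynomial.natDegree_C_mul_le _ _).trans Polynomial.natDegree_X_le
    _ = d - 1 := by rw [Finset.sum_const, serA_card]; simp

theorem serAH_deg (H : SHyp c h B N) (i : Fin d) : (serAH c h i).natDegree ≤ d - 1 := by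
  unfold serAH
  refine (Polynomial.natDegree_comp_le).trans ?_
  have h1 : (C (c i) + C (bi c i) * X : ℤ[X]).natDegree ≤ 1 := by
    refine (Polynomial.natDegree_add_le _ _).trans (max_le (by simp) ?_)
    exact (Polynomial.natDegree_C_mul_le _ _).trans Polynomial.natDegree_X_le
  have h2 : h.natDegree ≤ d - 1 := by
    have h3 := H.d3
    by_cases h0 : h = 0
    · rw [h0]; simp
    · have := (Polynomial.natDegree_lt_iff_degree_lt h0).2 H.hdeg
      omega
  calc h.natDegree * (C (c i) + C (bi c i) * X : ℤ[X]).natDegree ≤ (d - 1) * 1 :=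
        Nat.mul_le_mul h2 h1
    _ = d - 1 := mul_one _

theorem serAP_zero (i : Fin d) : (serAP c i).coeff 0 = 1 := by
  rw [Polynomial.coeff_zero_eq_eval_zero]
  unfold serAP
  rw [Polynomial.eval_prod]
  exact Finset.prod_eq_one fun j _ => by simp

theorem serA_wnprod {ι : Type} (s : Finset ι) (f : ι → PowerSeries ℤ) (K : ℕ) {M : ℝ}
    (hM : ∀ j ∈ s, wn (fun a : ℤ => |(a : ℝ)|) 1 K (f j) ≤ M) :
    wn (fun a : ℤ => |(a : ℝ)|) 1 K (∏ j ∈ s, f j) ≤ M ^ s.card := by
  classical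
  induction s using Finset.induction_on with
  | empty =>
    rw [Finset.prod_empty, Finset.card_empty, pow_zero]
    have h1 : (1 : PowerSeries ℤ) = PowerSeries.C 1 := by simp
    rw [h1, wn_C serA_sub]
    simp
  | insert a s ha ih =>
    rw [Finset.prod_insert ha, Finset.card_insert_of_notMem ha, pow_succ']
    have h1 := hM a (Finset.mem_insert_self a s)
    refine (wn_mul_le serA_sub zero_le_one K _ _).trans ?_
    exact mul_le_mul h1 (ih fun j hj => hM j (Finset.mem_insert_of_mem hj))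
      (wn_nonneg serA_sub zero_le_one K _) ((wn_nonneg serA_sub zero_le_one K _).trans h1)

theorem serA_wnlin (a b : ℤ) (K : ℕ) :
    wn (fun a : ℤ => |(a : ℝ)|) 1 K (PowerSeries.C a + PowerSeries.C b * PowerSeries.X) ≤
      |(a : ℝ)| + |(b : ℝ)| := by
  refine (wn_add_le serA_sub zero_le_one K _ _).trans ?_
  rw [wn_C serA_sub]
  refine add_le_add le_rfl ((wn_mul_le serA_sub zero_le_one K _ _).trans ?_)
  rw [wn_C serA_sub]
  have h1 := wn_X_le serA_sub zero_le_one K
  calc |(b : ℝ)| * wn (fun a : ℤ => |(a : ℝ)|) 1 K PowerSeries.X ≤ |(b : ℝ)| * 1 :=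
        mul_le_mul_of_nonneg_left h1 (abs_nonneg _)
    _ = _ := mul_one _

theorem serAP_le (H : SHyp c h B N) (i : Fin d) (k : ℕ) :
    |(((serAP c i).coeff k : ℤ) : ℝ)| ≤ (B : ℝ) ^ (2 * (d - 1) ^ 2 + (d - 1)) := by
  have hB : (2 : ℝ) ≤ B := by exact_mod_cast H.B2
  have h1 := coeff_le_wn serA_sub (zero_le_one (α := ℝ)) (le_refl k) ((serAP c i : ℤ[X]) : PowerSeries ℤ)
  rw [one_pow, mul_one, Polynomial.coeff_coe] at h1
  refine h1.trans ?_
  have h2 : ((serAP c i : ℤ[X]) : PowerSeries ℤ) =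
      ∏ j ∈ univ.erase i, (PowerSeries.C 1 + PowerSeries.C (serAβ c i j) * PowerSeries.X) := by
    unfold serAP
    rw [← Polynomial.coeToPowerSeries.ringHom_apply, map_prod]
    refine Finset.prod_congr rfl fun j _ => ?_
    rw [Polynomial.coeToPowerSeries.ringHom_apply, Polynomial.coe_add, Polynomial.coe_one,
      Polynomial.coe_mul, Polynomial.coe_C, Polynomial.coe_X, map_one]
  rw [h2]
  refine (serA_wnprod _ _ k (M := (B : ℝ) ^ (2 * (d - 1) + 1)) ?_).trans (le_of_eq ?_)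
  · intro j _
    refine (serA_wnlin 1 (serAβ c i j) k).trans ?_
    have h3 := serAβ_le H i j
    have h4 : (1 : ℝ) ≤ (B : ℝ) ^ (2 * (d - 1)) := one_le_pow₀ (by linarith)
    rw [pow_succ]
    push_cast
    rw [abs_one]
    nlinarith
  · rw [serA_card, ← pow_mul]
    congr 1
    ring

theorem serAH_le (H : SHyp c h B N) (i : Fin d) (k : ℕ) :
    |(((serAH c h i).coeff k : ℤ) : ℝ)| ≤ (B : ℝ) ^ (2 * (d - 1) ^ 2 + 2 * (d - 1) + 1) := by
  have hB : (2 : ℝ) ≤ B := by exact_mod_cast H.B2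
  have hd := H.d3
  have h1 := coeff_le_wn serA_sub (zero_le_one (α := ℝ)) (le_refl k)
    ((serAH c h i : ℤ[X]) : PowerSeries ℤ)
  rw [one_pow, mul_one, Polynomial.coeff_coe] at h1
  refine h1.trans ?_
  have hdeg : h.natDegree < d := by
    by_cases h0 : h = 0
    · rw [h0]; simp; omega
    · exact (Polynomial.natDegree_lt_iff_degree_lt h0).2 H.hdeg
  have h2 : ((serAH c h i : ℤ[X]) : PowerSeries ℤ) =
      ∑ m ∈ range d, PowerSeries.C (h.coeff m) *
        (PowerSeries.C (c i) + PowerSeries.C (bi c i) * PowerSeries.X) ^ m := by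
    unfold serAH
    rw [Polynomial.comp, Polynomial.eval₂_eq_sum_range' _ hdeg,
      ← Polynomial.coeToPowerSeries.ringHom_apply, map_sum]
    refine Finset.sum_congr rfl fun j _ => ?_
    rw [Polynomial.coeToPowerSeries.ringHom_apply, Polynomial.coe_mul, Polynomial.coe_C,
      Polynomial.coe_pow, Polynomial.coe_add, Polynomial.coe_C, Polynomial.coe_mul,
      Polynomial.coe_C, Polynomial.coe_X]
  rw [h2]
  refine (wn_sum_le serA_sub zero_le_one _ _ _).trans ?_
  have h3 : ∀ m ∈ range d, wn (fun a : ℤ => |(a : ℝ)|) 1 k (PowerSeries.C (h.coeff m) *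
        (PowerSeries.C (c i) + PowerSeries.C (bi c i) * PowerSeries.X) ^ m) ≤
        B * ((B : ℝ) ^ (2 * (d - 1) + 1)) ^ (d - 1) := by
    intro m hm
    rw [Finset.mem_range] at hm
    refine (wn_mul_le serA_sub zero_le_one k _ _).trans ?_
    rw [wn_C serA_sub]
    have h4 : |((h.coeff m : ℤ) : ℝ)| ≤ B := by exact_mod_cast H.hB m
    refine mul_le_mul h4 ?_ (wn_nonneg serA_sub zero_le_one k _) (by linarith)
    refine (wn_pow_le serA_sub zero_le_one k _ m).trans ?_
    have h5 := serA_wnlin (c i) (bi c i) k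
    have h6 := serA_bi H i
    have h7 : |(c i : ℝ)| ≤ B := by exact_mod_cast H.cB i
    have h8 : (B : ℝ) ≤ (B : ℝ) ^ (2 * (d - 1)) := by
      calc (B : ℝ) = (B : ℝ) ^ 1 := (pow_one _).symm
        _ ≤ _ := pow_le_pow_right₀ (by linarith) (by omega)
    have h9 : wn (fun a : ℤ => |(a : ℝ)|) 1 k
        (PowerSeries.C (c i) + PowerSeries.C (bi c i) * PowerSeries.X) ≤
        (B : ℝ) ^ (2 * (d - 1) + 1) := by
      refine h5.trans ?_
      rw [pow_succ]
      nlinarith
    refine (pow_le_pow_left₀ (wn_nonneg serA_sub zero_le_one k _) h9 m).trans ?_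
    exact pow_le_pow_right₀ (one_le_pow₀ (by linarith)) (by omega)
  refine (Finset.sum_le_sum h3).trans ?_
  rw [Finset.sum_const, Finset.card_range, nsmul_eq_mul]
  have h10 : (d : ℝ) ≤ (B : ℝ) ^ (d - 1) := by
    have h11 : d ≤ 2 ^ (d - 1) := by
      have := Nat.lt_two_pow_self (n := d - 1)
      omega
    calc (d : ℝ) ≤ ((2 ^ (d - 1) : ℕ) : ℝ) := by exact_mod_cast h11
      _ = (2 : ℝ) ^ (d - 1) := by push_cast; ring
      _ ≤ (B : ℝ) ^ (d - 1) := pow_le_pow_left₀ (by norm_num) hB _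
  calc (d : ℝ) * (B * ((B : ℝ) ^ (2 * (d - 1) + 1)) ^ (d - 1))
      ≤ (B : ℝ) ^ (d - 1) * (B * ((B : ℝ) ^ (2 * (d - 1) + 1)) ^ (d - 1)) :=
        mul_le_mul_of_nonneg_right h10 (by positivity)
    _ = _ := by
        rw [← pow_mul, ← pow_succ', ← pow_add]
        congr 1
        ring

/-- the coefficients of the fixed point equation -/
noncomputable def serAc (c : Fin d → ℤ) (h : ℤ[X]) (i : Fin d) (a j : ℕ) : ℤ :=
  if a = 0 then (if 2 ≤ j then -(serAP c i).coeff (j - 1) else 0)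
  else if a = 1 then -(serAq c i * (serAH c h i).coeff j) else 0

theorem serAc_le (H : SHyp c h B N) (i : Fin d) (a j : ℕ) :
    |((serAc c h i a j : ℤ) : ℝ)| ≤ (B : ℝ) ^ (6 * (d - 1) ^ 2 + 2 * (d - 1) + 1) := by
  have hB : (2 : ℝ) ≤ B := by exact_mod_cast H.B2
  have hpos : (0 : ℝ) ≤ (B : ℝ) ^ (6 * (d - 1) ^ 2 + 2 * (d - 1) + 1) := by positivity
  unfold serAc
  split_ifs with h1 h2 h3
  · push_cast
    rw [abs_neg]
    refine (serAP_le H i (j - 1)).trans (pow_le_pow_right₀ (by linarith) ?_)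
    nlinarith
  · simp
  · push_cast
    rw [abs_neg, abs_mul]
    calc |((serAq c i : ℤ) : ℝ)| * |(((serAH c h i).coeff j : ℤ) : ℝ)|
        ≤ (B : ℝ) ^ (4 * (d - 1) ^ 2) * (B : ℝ) ^ (2 * (d - 1) ^ 2 + 2 * (d - 1) + 1) :=
          mul_le_mul (serAq_le H i) (serAH_le H i j) (abs_nonneg _) (by positivity)
      _ = _ := by
          rw [← pow_add]
          congr 1
          ring
  · simp

theorem serA_one (H : SHyp c h B N) (i : Fin d) : ∃ x : PowerSeries ℤ,
    PowerSeries.constantCoeff x = c i ∧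
    ∏ j, (x - PowerSeries.C (c j)) + PowerSeries.C (qq c : ℤ) * PowerSeries.X * ei h x = 0 ∧
    ∀ k, |(((PowerSeries.coeff k x : ℤ)) : ℝ)| ≤ B * ((B : ℝ) ^ (12 * d ^ 2)) ^ k := by
  have hB : (2 : ℝ) ≤ B := by exact_mod_cast H.B2
  obtain ⟨D, hD⟩ : ∃ D, d = D + 1 := ⟨d - 1, by have := H.d3; omega⟩
  have hD1 : d - 1 = D := by omega
  have hD2 : 2 ≤ D := by have := H.d3; omega
  obtain ⟨Cc, hCc⟩ : ∃ Cc : ℝ, Cc = (B : ℝ) ^ (6 * (d - 1) ^ 2 + 2 * (d - 1) + 1) := ⟨_, rfl⟩
  have hCc1 : 1 ≤ Cc := by rw [hCc]; exact one_le_pow₀ (by linarith)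
  obtain ⟨v, hv0, hv, hvb⟩ := exists_series_bd serA_sub d (serAc c h i) (by simp [serAc])
    (by simp [serAc]) hCc1 (fun a j _ _ => by rw [hCc]; exact serAc_le H i a j)
  obtain ⟨x, hx⟩ : ∃ x : PowerSeries ℤ, x = PowerSeries.C (c i) + PowerSeries.C (bi c i) * v :=
    ⟨_, rfl⟩
  have hCast : ∀ z : ℤ, Int.castRingHom (PowerSeries ℤ) z = PowerSeries.C z := fun z => by simp
  -- values of the polynomials
  have hPv : ei (serAP c i) v = ∏ j ∈ univ.erase i, (1 + PowerSeries.C (serAβ c i j) * v) := by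
    unfold ei serAP
    rw [Polynomial.eval₂_finsetProd]
    refine Finset.prod_congr rfl fun j _ => ?_
    rw [Polynomial.eval₂_add, Polynomial.eval₂_mul, Polynomial.eval₂_C, Polynomial.eval₂_X,
      Polynomial.eval₂_one, hCast]
  have hHv : ei (serAH c h i) v = ei h x := by
    unfold ei serAH
    rw [Polynomial.eval₂_comp, Polynomial.eval₂_add, Polynomial.eval₂_mul, Polynomial.eval₂_C,
      Polynomial.eval₂_C, Polynomial.eval₂_X, hCast, hCast, ← hx]
  have hPs : ei (serAP c i) v = ∑ m ∈ range (D + 1), PowerSeries.C ((serAP c i).coeff m) * v ^ m := by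
    unfold ei
    rw [Polynomial.eval₂_eq_sum_range' _ (lt_of_le_of_lt (serAP_deg i) (by omega : d - 1 < D + 1))]
    exact Finset.sum_congr rfl fun m _ => by rw [hCast]
  have hHs : ei (serAH c h i) v =
      ∑ m ∈ range (d + 1), PowerSeries.C ((serAH c h i).coeff m) * v ^ m := by
    unfold ei
    rw [Polynomial.eval₂_eq_sum_range' _ (lt_of_le_of_lt (serAH_deg H i) (by omega : d - 1 < d + 1))]
    exact Finset.sum_congr rfl fun m _ => by rw [hCast]
  -- the fixed point equation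
  have hr : (range (d + 1) : Finset ℕ) = range (D + 1 + 1) := congrArg range (by omega)
  have hfix : v * ei (serAP c i) v +
      PowerSeries.C (serAq c i) * PowerSeries.X * ei (serAH c h i) v = 0 := by
    have e0 : ∑ j ∈ range (d + 1), PowerSeries.C (serAc c h i 0 j) * PowerSeries.X ^ 0 * v ^ j =
        v - v * ei (serAP c i) v := by
      rw [hPs, hr, Finset.sum_range_succ', Finset.sum_range_succ', Finset.sum_range_succ' _ D]
      have e1 : serAc c h i 0 (0 + 1) = 0 := by simp [serAc]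
      have e2 : serAc c h i 0 0 = 0 := by simp [serAc]
      have e3 : ∀ m, serAc c h i 0 (m + 1 + 1) = -(serAP c i).coeff (m + 1) := by
        intro m; simp [serAc]
      rw [e1, e2, serAP_zero]
      simp only [e3, map_neg, map_zero, map_one, zero_mul, add_zero, pow_zero, mul_one]
      rw [mul_add, mul_one, Finset.mul_sum, sub_add_cancel_right, ← Finset.sum_neg_distrib]
      refine Finset.sum_congr rfl fun m _ => ?_
      ring
    have e1 : ∑ j ∈ range (d + 1), PowerSeries.C (serAc c h i 1 j) * PowerSeries.X ^ 1 * v ^ j =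
        -(PowerSeries.C (serAq c i) * PowerSeries.X * ei (serAH c h i) v) := by
      rw [hHs, Finset.mul_sum, ← Finset.sum_neg_distrib]
      refine Finset.sum_congr rfl fun m _ => ?_
      have e3 : serAc c h i 1 m = -(serAq c i * (serAH c h i).coeff m) := by simp [serAc]
      rw [e3, map_neg, map_mul]
      ring
    have e2 : ∀ a, ∑ j ∈ range (d + 1),
        PowerSeries.C (serAc c h i (a + 1 + 1) j) * PowerSeries.X ^ (a + 1 + 1) * v ^ j = 0 := by
      intro a
      refine Finset.sum_eq_zero fun j _ => ?_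
      have e3 : serAc c h i (a + 1 + 1) j = 0 := by simp [serAc]
      rw [e3, map_zero, zero_mul, zero_mul]
    have e4 : v = (v - v * ei (serAP c i) v) -
        PowerSeries.C (serAq c i) * PowerSeries.X * ei (serAH c h i) v := by
      conv_lhs => rw [hv]
      have e7 : ∀ g : ℕ → PowerSeries ℤ, (∀ a, g (a + 1 + 1) = 0) →
          ∑ a ∈ range (d + 1), g a = g 1 + g 0 := by
        intro g hg
        rw [hr, Finset.sum_range_succ', Finset.sum_range_succ',
          Finset.sum_eq_zero fun a _ => hg a, zero_add]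
      rw [e7 _ e2, e1, e0]
      ring
    have e6 := sub_eq_zero.2 e4
    rw [show v - (v - v * ei (serAP c i) v -
        PowerSeries.C (serAq c i) * PowerSeries.X * ei (serAH c h i) v) =
        v * ei (serAP c i) v +
          PowerSeries.C (serAq c i) * PowerSeries.X * ei (serAH c h i) v by ring] at e6
    exact e6
  refine ⟨x, ?_, ?_, ?_⟩
  · rw [hx, map_add, map_mul, hv0, mul_zero, add_zero]
    simp
  · have e1 : ∏ j, (x - PowerSeries.C (c j)) =
        (PowerSeries.C (bi c i) * v) * (PowerSeries.C (bi c i) * ei (serAP c i) v) := by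
      rw [← Finset.mul_prod_erase univ _ (Finset.mem_univ i)]
      congr 1
      · rw [hx]; ring
      · rw [hPv]
        have e2 : PowerSeries.C (bi c i) = ∏ j ∈ univ.erase i, PowerSeries.C (c i - c j) := by
          unfold bi
          rw [map_prod]
        rw [e2, ← Finset.prod_mul_distrib]
        refine Finset.prod_congr rfl fun j hj => ?_
        have e3 : PowerSeries.C (bi c i) = PowerSeries.C (c i - c j) * PowerSeries.C (serAβ c i j) := by
          rw [← map_mul, serAβ_mul i j hj]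
        rw [hx, mul_add, mul_one, ← mul_assoc, ← e3, map_sub]
        ring
    rw [e1, serAq_eq i, ← hHv, map_mul, map_pow]
    calc PowerSeries.C (bi c i) * v * (PowerSeries.C (bi c i) * ei (serAP c i) v) +
          PowerSeries.C (bi c i) ^ 2 * PowerSeries.C (serAq c i) * PowerSeries.X *
            ei (serAH c h i) v
        = PowerSeries.C (bi c i) ^ 2 * (v * ei (serAP c i) v +
          PowerSeries.C (serAq c i) * PowerSeries.X * ei (serAH c h i) v) := by ring
      _ = 0 := by rw [hfix, mul_zero]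
  · intro k
    rcases Nat.eq_zero_or_pos k with hk | hk
    · subst hk
      rw [pow_zero, mul_one, PowerSeries.coeff_zero_eq_constantCoeff_apply, hx, map_add, map_mul, hv0,
        mul_zero, add_zero, PowerSeries.constantCoeff_C]
      exact_mod_cast H.cB i
    · obtain ⟨b', hb'⟩ : ∃ b' : ℝ, b' = ((d : ℝ) + 1) ^ 2 * Cc := ⟨_, rfl⟩
      have hvk := hvb k
      rw [← hb'] at hvk
      have hd1 : (1 : ℝ) ≤ ((d : ℝ) + 1) ^ 2 := one_le_pow₀ (by
        have : (0 : ℝ) ≤ d := Nat.cast_nonneg d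
        linarith)
      have hCb : Cc ≤ b' := by
        rw [hb']
        exact le_mul_of_one_le_left (by linarith) hd1
      have hbCc : |((bi c i : ℤ) : ℝ)| ≤ Cc := by
        refine (serA_bi H i).trans ?_
        rw [hCc]
        exact pow_le_pow_right₀ (by linarith) (by nlinarith)
      have hxk : PowerSeries.coeff k x = bi c i * PowerSeries.coeff k v := by
        rw [hx, map_add, PowerSeries.coeff_C, if_neg hk.ne', zero_add, PowerSeries.coeff_C_mul]
      have hb'B : b' ≤ (B : ℝ) ^ (6 * d ^ 2) := by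
        have h1 : (d : ℝ) + 1 ≤ (B : ℝ) ^ d := by
          have h11 : d + 1 ≤ 2 ^ d := Nat.lt_two_pow_self
          calc (d : ℝ) + 1 = ((d + 1 : ℕ) : ℝ) := by push_cast; ring
            _ ≤ ((2 ^ d : ℕ) : ℝ) := by exact_mod_cast h11
            _ = (2 : ℝ) ^ d := by push_cast; ring
            _ ≤ (B : ℝ) ^ d := pow_le_pow_left₀ (by norm_num) hB _
        have h2 : ((d : ℝ) + 1) ^ 2 ≤ ((B : ℝ) ^ d) ^ 2 := pow_le_pow_left₀ (by positivity) h1 2
        rw [hb', hCc]
        calc ((d : ℝ) + 1) ^ 2 * (B : ℝ) ^ (6 * (d - 1) ^ 2 + 2 * (d - 1) + 1)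
            ≤ ((B : ℝ) ^ d) ^ 2 * (B : ℝ) ^ (6 * (d - 1) ^ 2 + 2 * (d - 1) + 1) :=
              mul_le_mul_of_nonneg_right h2 (by positivity)
          _ = (B : ℝ) ^ (d * 2 + (6 * (d - 1) ^ 2 + 2 * (d - 1) + 1)) := by
              rw [← pow_mul, ← pow_add]
          _ ≤ _ := by
              apply pow_le_pow_right₀ (by linarith)
              rw [hD1, hD]
              nlinarith
      calc |((PowerSeries.coeff k x : ℤ) : ℝ)|
          = |((bi c i : ℤ) : ℝ)| * |((PowerSeries.coeff k v : ℤ) : ℝ)| := by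
            rw [hxk]; push_cast; rw [abs_mul]
        _ ≤ b' * |((PowerSeries.coeff k v : ℤ) : ℝ)| :=
            mul_le_mul_of_nonneg_right (hbCc.trans hCb) (abs_nonneg _)
        _ = |((PowerSeries.coeff k v : ℤ) : ℝ)| * b' := mul_comm _ _
        _ ≤ (b' ^ 2) ^ k := hvk
        _ ≤ ((B : ℝ) ^ (12 * d ^ 2)) ^ k := by
            apply pow_le_pow_left₀ (by positivity)
            calc b' ^ 2 ≤ ((B : ℝ) ^ (6 * d ^ 2)) ^ 2 := by
                  apply pow_le_pow_left₀ (by linarith) hb'B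
              _ = _ := by rw [← pow_mul]; congr 1; ring
        _ ≤ B * ((B : ℝ) ^ (12 * d ^ 2)) ^ k :=
            le_mul_of_one_le_left (by positivity) (by linarith)

theorem exists_ser (H : SHyp c h B N) : Nonempty (Ser c h B) := by
  choose x h1 h2 h3 using fun i => serA_one H i
  exact ⟨⟨x, h1, h2, h3⟩⟩

end Pool.Agent.H87.SA
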