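import Pool.Agent.H87.SA.Defs
import Pool.Agent.H97.AN.St1A

/-! # [SA-ST1] The coefficients of the auxiliary series are small at the integer point

Adapt `Pool.Agent.H97.AN.st1A` (identical proof; `u s j` is now arbitrary with `|u s j| ≤ Bu`):
`c p q = ∑_{s ≤ J, j < D} A s j p q * u s j`, `|c p q| ≤ (J+1) D Z Bu`,
`L = (TT - k + la - 1) / la`, `small_real` with constant series, `sta_swap`, `sta_evt`,
`B^(4+4(6n+1)) ≤ B^(26n)`. -/

namespace Pool.Agent.H87.SA

open Finset Polynomial Pool.Agent.H72.ES Pool.Agent.H8.KF Pool.Agent.H97.AN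

variable {n Q : ℕ} {f : ℤ[X]} {θ : ℝ}

theorem st1S (O : Ord ℝ n Q f θ) {F : ℕ → ℕ → ℤ} (hF : Norml n Q f F) (br : Branch O F)
    (D la : ℕ) (hla : 8 * n ≤ la) (A : ℕ → ℕ → ℕ → ℕ → ℤ) (hA : SuppA n D (3 * n * la) A)
    (Z : ℝ) (hZ : ∀ s j p q, |((A s j p q : ℤ) : ℝ)| ≤ Z) (u : ℕ → ℕ → ℝ) (Bu : ℝ)
    (hu : ∀ s ≤ 3 * n * la, ∀ j < D, |u s j| ≤ Bu) (hBu : 0 ≤ Bu) (k : ℕ)
    (hv : ∀ l, k + la * l < TT n la →
      sa n D (3 * n * la) A u (fun p q => O.φ (bc O br (3 * n) p q l)) = 0)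
    (x y : ℤ) (h2 : ev n F x y = 0) (hy : |(y : ℝ) / x - θ| ≤ 1 / bb n Q)
    (hxb : bb n Q ^ 5 ≤ |(x : ℝ)|) (X : ℝ) (hX : 1 ≤ X) (hx : X ^ la ≤ |(x : ℝ)|) :
    |∑ s ∈ range (3 * n * la + 1), ∑ j ∈ range D, ((spec n A x y s j : ℤ) : ℝ) * u s j| *
        X ^ (TT n la - k) ≤
      |(x : ℝ)| ^ (3 * n) * ((3 * n + 1) * ((3 * n * la + 1) * (D * (Z * Bu))) *
        bb n Q ^ (26 * n)) := by
  have hn := hF.hn
  have hQ := hF.hQ
  have hb : 1 ≤ bb n Q := one_le_bb hn hQ
  have hb0 : 0 < bb n Q := by linarith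
  have hTT := st1_TT hn hla
  have hZ0 : 0 ≤ Z := (abs_nonneg _).trans (hZ 0 0 0 0)
  have hxpos : 0 < |(x : ℝ)| := lt_of_lt_of_le (by positivity) hxb
  have hx0 : (x : ℝ) ≠ 0 := abs_pos.1 hxpos
  set c : ℕ → ℕ → ℝ := fun p q => ∑ j ∈ range (3 * n * la + 1),
    ∑ i ∈ range D, ((A j i p q : ℤ) : ℝ) * u j i with hc
  -- the sum is `x^(3n)` times the homogenised value
  have hsum : ∑ j ∈ range (3 * n * la + 1), ∑ i ∈ range D,
      ((spec n A x y j i : ℤ) : ℝ) * u j i =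
      (x : ℝ) ^ (3 * n) * evt (3 * n) c (1 / (x : ℝ)) ((y : ℝ) / x) := by
    rw [hc, ← sta_evt, mul_sum]
    refine sum_congr rfl fun j _ => ?_
    rw [mul_sum]
    refine sum_congr rfl fun i _ => ?_
    have h1 : ((spec n A x y j i : ℤ) : ℝ) =
        (x : ℝ) ^ (3 * n) * evt (3 * n) (fun p q => ((A j i p q : ℤ) : ℝ)) (1 / (x : ℝ))
          ((y : ℝ) / x) := by
      have h3 := ev_map (Int.castRingHom ℝ) (3 * n) (A j i) x y
      have h4 := ev_eq_evt (3 * n) (fun p q => ((A j i p q : ℤ) : ℝ)) (x : ℝ) (y : ℝ)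
        (1 / (x : ℝ)) (by field_simp)
      rw [show (y : ℝ) / x = 1 / (x : ℝ) * y by field_simp, ← h4]
      exact h3
    rw [h1]
    ring
  rw [hsum, abs_mul, abs_pow]
  have hub : ∀ j ∈ range (3 * n * la + 1), ∀ i ∈ range D, |u j i| ≤ Bu := by
    intro j hj i hi
    rw [mem_range] at hj hi
    exact hu j (by omega) i hi
  set M : ℝ := (3 * n * la + 1) * (D * (Z * Bu)) with hM
  have hcM : ∀ p q, |c p q| ≤ M := by
    intro p q
    rw [hc]
    refine (abs_sum_le_sum_abs _ _).trans ?_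
    calc ∑ j ∈ range (3 * n * la + 1), |∑ i ∈ range D, ((A j i p q : ℤ) : ℝ) * u j i| ≤
          ∑ _j ∈ range (3 * n * la + 1), D * (Z * Bu) := by
          refine sum_le_sum fun j hj => ?_
          refine (abs_sum_le_sum_abs _ _).trans ?_
          calc ∑ i ∈ range D, |((A j i p q : ℤ) : ℝ) * u j i| ≤ ∑ _i ∈ range D, Z * Bu := by
                refine sum_le_sum fun i hi => ?_
                rw [abs_mul]
                exact mul_le_mul (hZ _ _ _ _) (hub j hj i hi) (abs_nonneg _) hZ0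
            _ = D * (Z * Bu) := by rw [sum_const, card_range, nsmul_eq_mul]
      _ = M := by
          rw [sum_const, card_range, nsmul_eq_mul, hM]
          push_cast
          ring
  have hM0 : 0 ≤ M := (abs_nonneg _).trans (hcM 0 0)
  have hcs : ∀ p q, c p q ≠ 0 → p + q ≤ 3 * n ∧ q ≤ n := by
    intro p q hne
    by_contra hcon
    apply hne
    rw [hc]
    refine sum_eq_zero fun j _ => sum_eq_zero fun i _ => ?_
    have h1 : A j i p q = 0 := by
      by_contra hne'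
      have := (hA j i p q hne').2
      omega
    rw [h1]
    simp
  set L : ℕ := (TT n la - k + la - 1) / la with hL
  have hlapos : 0 < la := by omega
  have hL1 : TT n la - k ≤ la * L := by
    have h1 : TT n la - k + la - 1 < la * (L + 1) := by
      rw [hL]
      exact Nat.lt_mul_div_succ _ hlapos
    rw [mul_add, mul_one] at h1
    omega
  have hL2 : ∀ l < L, k + la * l < TT n la := by
    intro l hl
    have h1 : la * (l + 1) ≤ la * L := Nat.mul_le_mul_left _ hl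
    have h2 : la * L ≤ TT n la - k + la - 1 := by
      rw [hL]
      exact Nat.mul_div_le _ _
    rw [mul_add, mul_one] at h1
    omega
  have hL3 : L ≤ 6 * n + 1 := by
    rw [hL]
    have h1 : TT n la - k + la - 1 < (6 * n + 2) * la := by
      have h3 : (6 * n + 2) * la = (6 * n + 1) * la + la := by ring
      omega
    have := Nat.div_lt_of_lt_mul (show TT n la - k + la - 1 < la * (6 * n + 2) by
      rw [mul_comm]; exact h1)
    omega
  have hwC : ∀ (K : ℕ) (a : ℝ), wn (fun a : ℝ => |a|) 1 K (PowerSeries.C a) = |a| :=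
    fun K a => wn_C subMul_abs K a
  have hmain := small_real O hF br (PowerSeries.C (1 / (x : ℝ)))
    (PowerSeries.C ((y : ℝ) / x)) 1 one_pos (1 / |(x : ℝ)|)
    (fun K => by rw [hwC, abs_div, abs_one])
    (by
      rw [one_div, inv_mul_le_iff₀ hxpos, mul_one]
      exact hxb)
    (fun K => by rw [← map_sub, hwC]; exact hy)
    (by
      have h1 : ev n (cst ℝ F) (x : ℝ) (y : ℝ) = 0 := by
        have h3 := congrArg (Int.castRingHom ℝ) h2
        rw [ev_map, map_zero] at h3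
        exact h3
      have h4 := evt_eq_ev n (cst ℝ F) (x : ℝ) (y : ℝ) (1 / (x : ℝ))
        (by field_simp)
      rw [h1, mul_zero] at h4
      have h5 := congrArg (PowerSeries.C : ℝ →+* PowerSeries ℝ) h4
      rw [evt_map, map_zero, cst_map] at h5
      rw [← h5]
      congr 1
      rw [div_eq_mul_one_div, mul_comm])
    (3 * n) c hcs M hcM L (fun _ => 0)
    (fun l hl => by
      have h3 := hv l (hL2 l hl)
      rw [← sta_swap] at h3
      rw [h3, abs_zero]) 0
  simp only [zero_mul, sum_const_zero, zero_add] at hmain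
  have hval : wn (fun a : ℝ => |a|) 1 0 (evt (3 * n) (fun i j => PowerSeries.C (c i j))
      (PowerSeries.C (1 / (x : ℝ))) (PowerSeries.C ((y : ℝ) / x))) =
      |evt (3 * n) c (1 / (x : ℝ)) ((y : ℝ) / x)| := by
    have h1 := evt_map (PowerSeries.C : ℝ →+* PowerSeries ℝ) (3 * n) c (1 / (x : ℝ))
      ((y : ℝ) / x)
    rw [← h1, hwC]
  rw [hval] at hmain
  -- the final estimate
  set V := |evt (3 * n) c (1 / (x : ℝ)) ((y : ℝ) / x)| with hV
  have hXp : X ^ (TT n la - k) ≤ |(x : ℝ)| ^ L := by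
    calc X ^ (TT n la - k) ≤ X ^ (la * L) := pow_le_pow_right₀ hX hL1
      _ = (X ^ la) ^ L := by rw [pow_mul]
      _ ≤ |(x : ℝ)| ^ L := pow_le_pow_left₀ (by positivity) hx L
  have hb4 : bb n Q ^ 4 * (bb n Q ^ 4) ^ L ≤ bb n Q ^ (26 * n) := by
    rw [← pow_mul, ← pow_add]
    exact pow_le_pow_right₀ hb (by omega)
  have hdiv : (1 / |(x : ℝ)| * bb n Q ^ 4) ^ L * |(x : ℝ)| ^ L = (bb n Q ^ 4) ^ L := by
    rw [← mul_pow]
    congr 1
    field_simp
  have hfin : V * X ^ (TT n la - k) ≤ (3 * n + 1) * M * bb n Q ^ (26 * n) := by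
    calc V * X ^ (TT n la - k) ≤
          ((((3 * n : ℕ) : ℝ) + 1) * M * bb n Q ^ 4 * (1 / |(x : ℝ)| * bb n Q ^ 4) ^ L) *
            |(x : ℝ)| ^ L := mul_le_mul hmain hXp (by positivity) (by positivity)
      _ = ((((3 * n : ℕ) : ℝ) + 1) * M) * (bb n Q ^ 4 *
            ((1 / |(x : ℝ)| * bb n Q ^ 4) ^ L * |(x : ℝ)| ^ L)) := by ring
      _ = ((3 * n + 1) * M) * (bb n Q ^ 4 * (bb n Q ^ 4) ^ L) := by
            rw [hdiv]
            push_cast
            ring
      _ ≤ ((3 * n + 1) * M) * bb n Q ^ (26 * n) :=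
          mul_le_mul_of_nonneg_left hb4 (by positivity)
  rw [mul_assoc]
  exact mul_le_mul_of_nonneg_left hfin (by positivity)

end Pool.Agent.H87.SA
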