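import Pool.Agent.H87.SA.Defs

/-! # [SA-TAYA] Convergent power series: closure and evaluation

`Cv h a` for `0 ≤ h`: radius of convergence larger than `h`.
(1) `Geo A R a`, `Geo B R' b` imply `|coeff k (a*b)| ≤ ∑_{i+j=k} A R^i B R'^j ≤ A B (k+1) (max R R')^k`;
choose `R''` with `max R R' < R''`, `R'' h < 1` (if `h = 0` any, e.g. `R'' = max R R' + 1`; if `h > 0`
the midpoint of `max R R'` and `1/h`), then `(k+1) (R/R'')^k` is bounded (e.g. the sequence
`(k+1) ρ^k`, `0 ≤ ρ < 1`, tends to `0`: `tendsto_self_mul_const_pow_of_lt_one` + bounded), so `a*b` is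
`Geo A'' R''`. Similarly for the derivative. Sums: `Geo (A+B) (max R R')`.
(2) for `Cv h a` the series `∑ coeff k a * h^k` is absolutely summable (geometric series of ratio
`R h < 1`). `evl_mul` is the Cauchy product: `tsum_mul_tsum_eq_tsum_sum_antidiagonal_of_summable_norm`.
-/

namespace Pool.Agent.H87.SA

open Finset Pool.Agent.H72.ES

theorem Geo.cv {h A R : ℝ} {a : PowerSeries ℝ} (ha : Geo A R a) (hR : 0 ≤ R) (hh : R * h < 1) :
    Cv h a := ⟨A, R, hR, hh, ha⟩

theorem Geo.nonneg {A R : ℝ} {a : PowerSeries ℝ} (ha : Geo A R a) : 0 ≤ A := by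
  have := ha 0
  rw [pow_zero, mul_one] at this
  exact (abs_nonneg _).trans this

theorem Geo.mono {A R R' : ℝ} {a : PowerSeries ℝ} (ha : Geo A R a) (hR : 0 ≤ R) (hRR : R ≤ R') :
    Geo A R' a := fun k =>
  (ha k).trans (mul_le_mul_of_nonneg_left (pow_le_pow_left₀ hR hRR k) ha.nonneg)

/-- a slightly larger rate -/
theorem tayA_gap {h R : ℝ} (hh : 0 ≤ h) (hR : 0 ≤ R) (hRh : R * h < 1) :
    ∃ R', R < R' ∧ 0 < R' ∧ R' * h < 1 := by
  rcases hh.eq_or_lt with h0 | h0
  · refine ⟨R + 1, by linarith, by linarith, ?_⟩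
    rw [← h0, mul_zero]; exact one_pos
  · have h1 : R < 1 / h := by rw [lt_div_iff₀ h0]; exact hRh
    obtain ⟨R', h2, h3⟩ := exists_between h1
    refine ⟨R', h2, lt_of_le_of_lt hR h2, ?_⟩
    rwa [lt_div_iff₀ h0] at h3

/-- a linear factor is absorbed by a slightly larger rate -/
theorem tayA_lin {R R' : ℝ} (hR : 0 ≤ R) (hR' : 0 < R') (h : R < R') :
    ∃ C : ℝ, 0 ≤ C ∧ ∀ k : ℕ, ((k : ℝ) + 1) * R ^ k ≤ C * R' ^ k := by
  have h0 : 0 ≤ R / R' := div_nonneg hR hR'.le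
  have h1 : R / R' < 1 := by rw [div_lt_one hR']; exact h
  obtain ⟨C, hC⟩ := (tendsto_self_mul_const_pow_of_lt_one h0 h1).bddAbove_range
  have hC' : ∀ k : ℕ, (k : ℝ) * (R / R') ^ k ≤ C := fun k => hC ⟨k, rfl⟩
  have hC0 : 0 ≤ C := by have := hC' 0; simpa using this
  refine ⟨C + 1, by linarith, fun k => ?_⟩
  have h2 : ((k : ℝ) + 1) * (R / R') ^ k ≤ C + 1 := by
    have h3 : (R / R') ^ k ≤ 1 := pow_le_one₀ h0 h1.le
    have := hC' k
    linarith
  have h4 : R ^ k = (R / R') ^ k * R' ^ k := by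
    rw [div_pow]; field_simp
  rw [h4, ← mul_assoc]
  exact mul_le_mul_of_nonneg_right h2 (pow_nonneg hR'.le k)

theorem Cv.add {h : ℝ} (hh : 0 ≤ h) {a b : PowerSeries ℝ} (ha : Cv h a) (hb : Cv h b) :
    Cv h (a + b) := by
  obtain ⟨A, R, hR, hRh, ha⟩ := ha
  obtain ⟨B, R', hR', hRh', hb⟩ := hb
  have h1 := ha.mono hR (le_max_left R R')
  have h2 := hb.mono hR' (le_max_right R R')
  refine ⟨A + B, max R R', hR.trans (le_max_left _ _), ?_, fun k => ?_⟩
  · rcases max_choice R R' with h3 | h3 <;> rw [h3] <;> assumption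
  · rw [map_add, add_mul]
    exact (abs_add_le _ _).trans (add_le_add (h1 k) (h2 k))

theorem Cv.neg {h : ℝ} {a : PowerSeries ℝ} (ha : Cv h a) : Cv h (-a) := by
  obtain ⟨A, R, hR, hRh, ha⟩ := ha
  refine ⟨A, R, hR, hRh, fun k => ?_⟩
  rw [map_neg, abs_neg]
  exact ha k

theorem Cv.mul {h : ℝ} (hh : 0 ≤ h) {a b : PowerSeries ℝ} (ha : Cv h a) (hb : Cv h b) :
    Cv h (a * b) := by
  obtain ⟨A, R, hR, hRh, ha⟩ := ha
  obtain ⟨B, R', hR', hRh', hb⟩ := hb
  set S := max R R' with hS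
  have hS0 : 0 ≤ S := hR.trans (le_max_left _ _)
  have hSh : S * h < 1 := by
    rw [hS]; rcases max_choice R R' with h3 | h3 <;> rw [h3] <;> assumption
  have h1 := ha.mono hR (le_max_left R R')
  have h2 := hb.mono hR' (le_max_right R R')
  obtain ⟨S', hS1, hS2, hS3⟩ := tayA_gap hh hS0 hSh
  obtain ⟨C, hC0, hC⟩ := tayA_lin hS0 hS2 hS1
  refine ⟨A * B * C, S', hS2.le, hS3, fun k => ?_⟩
  rw [PowerSeries.coeff_mul]
  calc |∑ p ∈ antidiagonal k, PowerSeries.coeff p.1 a * PowerSeries.coeff p.2 b|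
      ≤ ∑ p ∈ antidiagonal k, |PowerSeries.coeff p.1 a * PowerSeries.coeff p.2 b| :=
        Finset.abs_sum_le_sum_abs _ _
    _ ≤ ∑ p ∈ antidiagonal k, A * B * S ^ k := by
        refine Finset.sum_le_sum fun p hp => ?_
        have hp' := Finset.HasAntidiagonal.mem_antidiagonal.1 hp
        rw [abs_mul]
        calc |PowerSeries.coeff p.1 a| * |PowerSeries.coeff p.2 b|
            ≤ (A * S ^ p.1) * (B * S ^ p.2) :=
              mul_le_mul (h1 _) (h2 _) (abs_nonneg _) ((abs_nonneg _).trans (h1 _))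
          _ = A * B * S ^ k := by rw [← hp', pow_add]; ring
    _ = A * B * (((k : ℝ) + 1) * S ^ k) := by
        rw [Finset.sum_const, Finset.Nat.card_antidiagonal, nsmul_eq_mul]
        push_cast
        ring
    _ ≤ A * B * (C * S' ^ k) :=
        mul_le_mul_of_nonneg_left (hC k) (mul_nonneg ha.nonneg hb.nonneg)
    _ = A * B * C * S' ^ k := by ring

theorem Cv.deriv {h : ℝ} (hh : 0 ≤ h) {a : PowerSeries ℝ} (ha : Cv h a) :
    Cv h (PowerSeries.derivative ℝ a) := by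
  obtain ⟨A, R, hR, hRh, ha⟩ := ha
  obtain ⟨S', hS1, hS2, hS3⟩ := tayA_gap hh hR hRh
  obtain ⟨C, hC0, hC⟩ := tayA_lin hR hS2 hS1
  refine ⟨A * R * C, S', hS2.le, hS3, fun k => ?_⟩
  rw [PowerSeries.coeff_derivative, abs_mul]
  have hk : |((k : ℝ) + 1)| = (k : ℝ) + 1 := abs_of_nonneg (by positivity)
  rw [hk]
  calc |PowerSeries.coeff (k + 1) a| * ((k : ℝ) + 1) ≤ (A * R ^ (k + 1)) * ((k : ℝ) + 1) :=
        mul_le_mul_of_nonneg_right (ha _) (by positivity)
    _ = A * R * (((k : ℝ) + 1) * R ^ k) := by ring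
    _ ≤ A * R * (C * S' ^ k) := mul_le_mul_of_nonneg_left (hC k) (mul_nonneg ha.nonneg hR)
    _ = A * R * C * S' ^ k := by ring

theorem Cv.C (h c : ℝ) : Cv h (PowerSeries.C c) := by
  refine ⟨|c|, 0, le_rfl, by rw [zero_mul]; exact one_pos, fun k => ?_⟩
  rw [PowerSeries.coeff_C]
  split_ifs with hk
  · rw [hk, pow_zero, mul_one]
  · rw [abs_zero, zero_pow hk, mul_zero]

theorem Cv.X (h : ℝ) : Cv h PowerSeries.X := by
  obtain ⟨R, hR0, hR⟩ : ∃ R : ℝ, 0 < R ∧ R * h < 1 := by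
    refine ⟨1 / (|h| + 1), by positivity, ?_⟩
    rw [one_div_mul_eq_div, div_lt_one (by positivity)]
    linarith [le_abs_self h]
  refine ⟨1 / R, R, hR0.le, hR, fun k => ?_⟩
  rw [PowerSeries.coeff_X]
  split_ifs with hk
  · rw [hk, abs_one, pow_one, one_div_mul_cancel hR0.ne']
  · rw [abs_zero]; positivity

/-- the subring of convergent series -/
def cvs (h : ℝ) (hh : 0 ≤ h) : Subring (PowerSeries ℝ) where
  carrier := {a | Cv h a}
  mul_mem' := fun ha hb => Cv.mul hh ha hb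
  one_mem' := by
    have := Cv.C h 1
    rwa [map_one] at this
  add_mem' := fun ha hb => Cv.add hh ha hb
  zero_mem' := by
    have := Cv.C h 0
    rwa [map_zero] at this
  neg_mem' := fun ha => Cv.neg ha

theorem mem_cvs {h : ℝ} {hh : 0 ≤ h} {a : PowerSeries ℝ} : a ∈ cvs h hh ↔ Cv h a := Iff.rfl

/-- absolute summability with polynomial weights (used for `tay`) -/
theorem Cv.summable_choose {h : ℝ} (hh : 0 ≤ h) {a : PowerSeries ℝ} (ha : Cv h a) (i : ℕ) :
    Summable fun m => ‖((i + m).choose i : ℝ) * PowerSeries.coeff (i + m) a * h ^ m‖ := by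
  obtain ⟨A, R, hR, hRh, ha⟩ := ha
  have hr : ‖R * h‖ < 1 := by
    rw [Real.norm_of_nonneg (mul_nonneg hR hh)]; exact hRh
  have h1 := (summable_choose_mul_geometric_of_norm_lt_one i hr).mul_left (A * R ^ i)
  refine Summable.of_nonneg_of_le (fun m => norm_nonneg _) (fun m => ?_) h1
  rw [norm_mul, norm_mul, norm_pow, Real.norm_of_nonneg hh,
    Real.norm_of_nonneg (Nat.cast_nonneg _), Real.norm_eq_abs]
  calc ((i + m).choose i : ℝ) * |PowerSeries.coeff (i + m) a| * h ^ m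
      ≤ ((i + m).choose i : ℝ) * (A * R ^ (i + m)) * h ^ m := by
        apply mul_le_mul_of_nonneg_right _ (pow_nonneg hh m)
        exact mul_le_mul_of_nonneg_left (ha _) (Nat.cast_nonneg _)
    _ = A * R ^ i * (((m + i).choose i : ℝ) * (R * h) ^ m) := by
        rw [mul_pow, pow_add, add_comm m i]; ring

theorem Cv.summable {h : ℝ} (hh : 0 ≤ h) {a : PowerSeries ℝ} (ha : Cv h a) :
    Summable fun k => ‖PowerSeries.coeff k a * h ^ k‖ := by
  have := Cv.summable_choose hh ha 0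
  simpa using this

theorem evl_add {h : ℝ} (hh : 0 ≤ h) {a b : PowerSeries ℝ} (ha : Cv h a) (hb : Cv h b) :
    evl h (a + b) = evl h a + evl h b := by
  unfold evl
  rw [← (Cv.summable hh ha).of_norm.tsum_add (Cv.summable hh hb).of_norm]
  refine tsum_congr fun k => ?_
  rw [map_add, add_mul]

theorem evl_mul {h : ℝ} (hh : 0 ≤ h) {a b : PowerSeries ℝ} (ha : Cv h a) (hb : Cv h b) :
    evl h (a * b) = evl h a * evl h b := by
  unfold evl
  rw [tsum_mul_tsum_eq_tsum_sum_antidiagonal_of_summable_norm (Cv.summable hh ha)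
    (Cv.summable hh hb)]
  refine tsum_congr fun k => ?_
  rw [PowerSeries.coeff_mul, Finset.sum_mul]
  refine Finset.sum_congr rfl fun p hp => ?_
  rw [← Finset.HasAntidiagonal.mem_antidiagonal.1 hp, pow_add]
  ring

theorem evl_C (h c : ℝ) : evl h (PowerSeries.C c) = c := by
  unfold evl
  rw [tsum_eq_single 0]
  · simp
  · intro k hk
    rw [PowerSeries.coeff_C, if_neg hk, zero_mul]

theorem evl_X (h : ℝ) : evl h PowerSeries.X = h := by
  unfold evl
  rw [tsum_eq_single 1]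
  · simp
  · intro k hk
    rw [PowerSeries.coeff_X, if_neg hk, zero_mul]

theorem Geo.evl_le {h A R : ℝ} {a : PowerSeries ℝ} (hh : 0 ≤ h) (hR : 0 ≤ R) (ha : Geo A R a)
    (hRh : R * h ≤ 1 / 2) : |evl h a| ≤ 2 * A := by
  have h0 : 0 ≤ R * h := mul_nonneg hR hh
  have h1 : R * h < 1 := by linarith
  have hs := (summable_geometric_of_lt_one h0 h1).mul_left A
  have h2 : ∀ k, ‖PowerSeries.coeff k a * h ^ k‖ ≤ A * (R * h) ^ k := by
    intro k
    rw [norm_mul, norm_pow, Real.norm_of_nonneg hh, Real.norm_eq_abs, mul_pow, ← mul_assoc]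
    exact mul_le_mul_of_nonneg_right (ha k) (pow_nonneg hh k)
  have h3 := tsum_of_norm_bounded hs.hasSum h2
  rw [tsum_mul_left, tsum_geometric_of_lt_one h0 h1, Real.norm_eq_abs] at h3
  refine h3.trans ?_
  have h4 : (1 - R * h)⁻¹ ≤ 2 := by
    rw [inv_le_comm₀ (by linarith) (by norm_num)]
    linarith
  have := mul_le_mul_of_nonneg_left h4 ha.nonneg
  linarith

end Pool.Agent.H87.SA
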