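import Pool.Agent.H87.SA.TayA

/-! # [SA-TAYB] Division by `X - h`

`dvh h a` has coefficients `b_k = ∑_i a_{k+1+i} h^i`. `b_{k-1} - h b_k = a_k` for `k ≥ 1`
(`tsum_eq_zero_add`: `b_{k-1} = a_k + ∑_i a_{k+1+i} h^{i+1}`), and `- h b_0 = a_0 - evl h a`: this is
`dvh_spec`. Growth: `|b_k| ≤ ∑_i A R^(k+1+i) h^i = A R^(k+1) / (1 - R h)`; if `R h ≤ 1/2` it is
`≤ 2 A R R^k` (`geo_dvh`).
`dvh_unique`: if `a = C c + (X - C h) V`, `Cv h V`, then `c = evl h a` (`evl` is a ring homomorphism on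
`Cv`, `evl h (X - C h) = 0`) and `V = dvh h a` (cancel `X - C h ≠ 0` in the domain `ℝ⟦X⟧`).
`tay_coeff_succ`: `∑_m binom(i+m, i) ∑_j a_{i+m+1+j} h^(j+m) = ∑_t a_{i+1+t} h^t ∑_{m ≤ t} binom(i+m,i)`
and `∑_{m ≤ t} binom(i+m, i) = binom(i+1+t, i+1)` (`Nat.sum_range_choose...`/hockey stick by
induction); reorder the absolutely convergent double sum over antidiagonals (e.g.
`Summable.tsum_mul...`; or `(summable on ℕ × ℕ).tsum_comm'`/`tsum_sigma'` with
`sigmaAntidiagonalEquivProd`; absolute summability from the growth bound `A R^(..)`, `R h < 1`: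
`∑ binom(i+m,i) (R h)^(m+j)` converges). Alternatively prove it through the uniqueness of the
expansion. -/

namespace Pool.Agent.H87.SA

open Finset Pool.Agent.H72.ES

theorem tayB_bd {h A R : ℝ} {a : PowerSeries ℝ} (hh : 0 ≤ h) (ha : Geo A R a) (k i : ℕ) :
    ‖PowerSeries.coeff (k + i) a * h ^ i‖ ≤ A * R ^ k * (R * h) ^ i := by
  rw [norm_mul, norm_pow, Real.norm_of_nonneg hh, Real.norm_eq_abs]
  calc |PowerSeries.coeff (k + i) a| * h ^ i ≤ (A * R ^ (k + i)) * h ^ i :=
        mul_le_mul_of_nonneg_right (ha _) (pow_nonneg hh i)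
    _ = A * R ^ k * (R * h) ^ i := by rw [pow_add, mul_pow]; ring

theorem tayB_sum {h : ℝ} (hh : 0 ≤ h) {a : PowerSeries ℝ} (ha : Cv h a) (k : ℕ) :
    Summable fun i => PowerSeries.coeff (k + i) a * h ^ i := by
  obtain ⟨A, R, hR, hRh, ha⟩ := ha
  exact Summable.of_norm_bounded
    ((summable_geometric_of_lt_one (mul_nonneg hR hh) hRh).mul_left (A * R ^ k))
    (fun i => tayB_bd hh ha k i)

theorem tayB_geo {h A R : ℝ} {a : PowerSeries ℝ} (hh : 0 ≤ h) (hR : 0 ≤ R) (ha : Geo A R a)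
    (hRh : R * h < 1) : Geo (A * R * (1 - R * h)⁻¹) R (dvh h a) := by
  intro k
  have h0 : 0 ≤ R * h := mul_nonneg hR hh
  have hs := (summable_geometric_of_lt_one h0 hRh).mul_left (A * R ^ (k + 1))
  have h3 := tsum_of_norm_bounded hs.hasSum (fun i => tayB_bd hh ha (k + 1) i)
  rw [tsum_mul_left, tsum_geometric_of_lt_one h0 hRh, Real.norm_eq_abs] at h3
  unfold dvh
  rw [PowerSeries.coeff_mk]
  refine h3.trans (le_of_eq ?_)
  rw [pow_succ]; ring

theorem cv_dvh {h : ℝ} (hh : 0 ≤ h) {a : PowerSeries ℝ} (ha : Cv h a) : Cv h (dvh h a) := by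
  obtain ⟨A, R, hR, hRh, ha⟩ := ha
  exact (tayB_geo hh hR ha hRh).cv hR hRh

theorem tayB_rec {h : ℝ} (hh : 0 ≤ h) {a : PowerSeries ℝ} (ha : Cv h a) (k : ℕ) :
    ∑' i, PowerSeries.coeff (k + i) a * h ^ i =
      PowerSeries.coeff k a + h * PowerSeries.coeff k (dvh h a) := by
  rw [(tayB_sum hh ha k).tsum_eq_zero_add]
  unfold dvh
  rw [PowerSeries.coeff_mk, ← tsum_mul_left, add_zero, pow_zero, mul_one]
  congr 1
  refine tsum_congr fun i => ?_
  rw [show k + (i + 1) = k + 1 + i by ring, pow_succ]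
  ring

theorem dvh_spec {h : ℝ} (hh : 0 ≤ h) {a : PowerSeries ℝ} (ha : Cv h a) :
    a = PowerSeries.C (evl h a) + (PowerSeries.X - PowerSeries.C h) * dvh h a := by
  ext k
  rw [sub_mul, map_add, map_sub, PowerSeries.coeff_C_mul]
  rcases k with _ | k
  · have h1 := tayB_rec hh ha 0
    have h2 : evl h a = ∑' i, PowerSeries.coeff (0 + i) a * h ^ i := by
      unfold evl
      exact tsum_congr fun i => by rw [zero_add]
    rw [PowerSeries.coeff_zero_X_mul, PowerSeries.coeff_zero_C, h2, h1]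
    ring
  · have h1 := tayB_rec hh ha (k + 1)
    have h2 : PowerSeries.coeff k (dvh h a) =
        ∑' i, PowerSeries.coeff (k + 1 + i) a * h ^ i := by
      unfold dvh
      rw [PowerSeries.coeff_mk]
    rw [PowerSeries.coeff_succ_X_mul, PowerSeries.coeff_C, if_neg (Nat.succ_ne_zero k), h2, h1]
    ring

theorem dvh_unique {h : ℝ} (hh : 0 ≤ h) {a V : PowerSeries ℝ} {c : ℝ} (hV : Cv h V)
    (ha : a = PowerSeries.C c + (PowerSeries.X - PowerSeries.C h) * V) :
    c = evl h a ∧ V = dvh h a := by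
  have hX : PowerSeries.X - PowerSeries.C h = PowerSeries.X + PowerSeries.C (-h) := by
    rw [map_neg, sub_eq_add_neg]
  have hXc : Cv h (PowerSeries.X + PowerSeries.C (-h)) := Cv.add hh (Cv.X h) (Cv.C h (-h))
  have hac : Cv h a := by
    rw [ha, hX]
    exact Cv.add hh (Cv.C h c) (Cv.mul hh hXc hV)
  have hc : evl h a = c := by
    rw [ha, hX, evl_add hh (Cv.C h c) (Cv.mul hh hXc hV), evl_mul hh hXc hV,
      evl_add hh (Cv.X h) (Cv.C h (-h)), evl_C, evl_C, evl_X]
    ring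
  refine ⟨hc.symm, ?_⟩
  have h1 := dvh_spec hh hac
  rw [hc] at h1
  have h2 : (PowerSeries.X - PowerSeries.C h) * V = (PowerSeries.X - PowerSeries.C h) * dvh h a := by
    have h3 : PowerSeries.C c + (PowerSeries.X - PowerSeries.C h) * V =
        PowerSeries.C c + (PowerSeries.X - PowerSeries.C h) * dvh h a := by rw [← ha, ← h1]
    exact add_left_cancel h3
  have h0 : (PowerSeries.X - PowerSeries.C h : PowerSeries ℝ) ≠ 0 := by
    intro h3
    have h4 := congrArg (PowerSeries.coeff 1) h3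
    rw [map_sub, PowerSeries.coeff_one_X, PowerSeries.coeff_C, if_neg one_ne_zero, map_zero,
      sub_zero] at h4
    exact one_ne_zero h4
  exact mul_left_cancel₀ h0 h2

theorem geo_dvh {h A R : ℝ} {a : PowerSeries ℝ} (hh : 0 ≤ h) (hR : 0 ≤ R) (ha : Geo A R a)
    (hRh : R * h ≤ 1 / 2) : Geo (2 * R * A) R (dvh h a) := by
  intro k
  refine (tayB_geo hh hR ha (by linarith) k).trans ?_
  apply mul_le_mul_of_nonneg_right _ (pow_nonneg hR k)
  have h4 : (1 - R * h)⁻¹ ≤ 2 := by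
    rw [inv_le_comm₀ (by linarith) (by norm_num)]
    linarith
  have := mul_le_mul_of_nonneg_left h4 (mul_nonneg ha.nonneg hR)
  linarith

theorem tay_coeff_zero (h : ℝ) (a : PowerSeries ℝ) : PowerSeries.coeff 0 (tay h a) = evl h a := by
  unfold tay evl
  rw [PowerSeries.coeff_mk]
  refine tsum_congr fun m => ?_
  simp

theorem tayB_hockey (i t : ℕ) :
    ∑ m ∈ range (t + 1), (i + m).choose i = (i + 1 + t).choose (i + 1) := by
  induction t with
  | zero => simp
  | succ t ih =>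
    rw [Finset.sum_range_succ, ih, show i + 1 + (t + 1) = (i + 1 + t) + 1 by ring,
      Nat.choose_succ_succ (i + 1 + t) i, show i + (t + 1) = i + 1 + t by ring, add_comm]

theorem tayB_antidiag (g : ℕ × ℕ → ℝ) (hg : Summable g) :
    ∑' m, ∑' j, g (m, j) = ∑' t, ∑ p ∈ antidiagonal t, g p := by
  have h1 : ∑' p, g p = ∑' m, ∑' j, g (m, j) := hg.tsum_prod
  have h2 : ∑' x : (Σ n : ℕ, antidiagonal n), g (Finset.HasAntidiagonal.sigmaAntidiagonalEquivProd x) = ∑' p, g p :=
    Finset.HasAntidiagonal.sigmaAntidiagonalEquivProd.tsum_eq g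
  have h3 : Summable fun x : (Σ n : ℕ, antidiagonal n) => g (Finset.HasAntidiagonal.sigmaAntidiagonalEquivProd x) :=
    (Finset.HasAntidiagonal.sigmaAntidiagonalEquivProd.summable_iff (f := g)).2 hg
  rw [← h1, ← h2, h3.tsum_sigma]
  refine tsum_congr fun t => ?_
  rw [tsum_fintype]
  exact Finset.sum_coe_sort (antidiagonal t) g

theorem tay_coeff_succ {h : ℝ} (hh : 0 ≤ h) {a : PowerSeries ℝ} (ha : Cv h a) (i : ℕ) :
    PowerSeries.coeff (i + 1) (tay h a) = PowerSeries.coeff i (tay h (dvh h a)) := by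
  set g : ℕ × ℕ → ℝ := fun p => ((i + p.1).choose i : ℝ) *
    PowerSeries.coeff (i + 1 + (p.1 + p.2)) a * h ^ (p.1 + p.2) with hg
  have hgs : Summable g := by
    obtain ⟨A, R, hR, hRh, ha'⟩ := ha
    have h0 : 0 ≤ R * h := mul_nonneg hR hh
    have hr : ‖R * h‖ < 1 := by rw [Real.norm_of_nonneg h0]; exact hRh
    have s1 := (summable_choose_mul_geometric_of_norm_lt_one i hr).mul_left (A * R ^ (i + 1))
    have s2 := summable_geometric_of_lt_one h0 hRh
    have s3 := s1.mul_of_nonneg s2 (fun m => by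
      have := ha'.nonneg
      positivity) (fun m => by positivity)
    refine Summable.of_norm_bounded s3 (fun p => ?_)
    simp only [hg]
    rw [norm_mul, norm_mul, norm_pow, Real.norm_of_nonneg hh,
      Real.norm_of_nonneg (Nat.cast_nonneg _), Real.norm_eq_abs]
    calc ((i + p.1).choose i : ℝ) * |PowerSeries.coeff (i + 1 + (p.1 + p.2)) a| * h ^ (p.1 + p.2)
        ≤ ((i + p.1).choose i : ℝ) * (A * R ^ (i + 1 + (p.1 + p.2))) * h ^ (p.1 + p.2) := by
          apply mul_le_mul_of_nonneg_right _ (pow_nonneg hh _)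
          exact mul_le_mul_of_nonneg_left (ha' _) (Nat.cast_nonneg _)
      _ = A * R ^ (i + 1) * (((p.1 + i).choose i : ℝ) * (R * h) ^ p.1) * (R * h) ^ p.2 := by
          rw [add_comm p.1 i, mul_pow, mul_pow, pow_add R (i + 1), pow_add R p.1, pow_add h]
          ring
  have h1 : PowerSeries.coeff i (tay h (dvh h a)) = ∑' m, ∑' j, g (m, j) := by
    unfold tay
    rw [PowerSeries.coeff_mk]
    refine tsum_congr fun m => ?_
    unfold dvh
    rw [PowerSeries.coeff_mk, ← tsum_mul_left, ← tsum_mul_right]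
    refine tsum_congr fun j => ?_
    simp only [hg]
    rw [show i + m + 1 + j = i + 1 + (m + j) by ring, pow_add]
    ring
  rw [h1, tayB_antidiag g hgs]
  unfold tay
  rw [PowerSeries.coeff_mk]
  refine tsum_congr fun t => ?_
  have h2 : ∀ p ∈ antidiagonal t, g p =
      ((i + p.1).choose i : ℝ) * (PowerSeries.coeff (i + 1 + t) a * h ^ t) := by
    intro p hp
    simp only [hg]
    rw [Finset.HasAntidiagonal.mem_antidiagonal.1 hp]
    ring
  rw [Finset.sum_congr rfl h2, ← Finset.sum_mul,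
    Finset.Nat.sum_antidiagonal_eq_sum_range_succ (fun m _ => ((i + m).choose i : ℝ)) t]
  have h3 : ∑ m ∈ range (t + 1), ((i + m).choose i : ℝ) = ((i + 1 + t).choose (i + 1) : ℝ) := by
    exact_mod_cast tayB_hockey i t
  rw [h3]
  ring

end Pool.Agent.H87.SA
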