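import Pool.Agent.H87.SA.SDefs
import Pool.Agent.H87.SA.TayA

/-! # [SA-VAL] The real roots

`M = qq c * N`, `qq c ≥ 1` (all `bi c i ≠ 0` by `inj`), `R = B^(12 d²)`, `h1 = 1/M`. All `S.xr i` are
`Geo B R`, `16 d B² R ≤ M`: `16 d B² R ≤ B^(4 + d + 2 + 12 d²) ≤ B^(20 d²) ≤ N`.
`cv_xr`: `Geo.cv`. `val_near`: `|evl h1 (S.xr i) - c_i| = |∑_{k ≥ 1} x_k h1^k| ≤ B (R h1)/(1 - R h1) ≤
2 B R / M ≤ 1/(8 d B)` (write `S.xr i = C c_i + X * a`, `Geo (B R) R a`,
`evl = c_i + h1 evl a`, `Geo.evl_le`).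
`gst_split`: `evl` is a ring homomorphism on `Cv` (`evl_mul`, `evl_add`, `evl_C`, `evl_X`), applied to
`Ser.eq`: with `X' = evl h1 (S.xr i)`, `∏ (X' - c_j) + qq c * h1 * h(X') = 0`, `qq c * h1 = 1/N`.
Multiply by `N^d`: `∏ (N X' - N c_j) + N^(d-1) h(X') = 0`, and
`N^(d-1) h(X') = hst (N X')` (`h = ∑_{k<d} h_k X^k`, `N^(d-1-k) N^k = N^(d-1)`). So `S.y N i` is a root
of `gst`, which is monic of degree `d` (`hst` has degree `< d`), and the `d` numbers `S.y N i` are
distinct (`y_inj`: `|y_i - N c_i| ≤ N/(8dB) < N/2`, `|N c_i - N c_j| ≥ N`). So `gst = ∏ (X - C y_i)` over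
`ℝ` (e.g. both sides are monic of degree `d`, the difference has degree `< d` and `d` roots:
`Polynomial.eq_of_degree_sub_lt_of_eval_finset_eq` or `Multiset` of roots).
`root_eq`: `gst (N ξ) = N^(d-1) g(ξ) = 0`, so `N ξ` is one of the `y_i` (`eval` of the product).
`dlt_le`: derivative of `∏ (X - C y_i)` at `y_i` is `∏_{j≠i} (y_i - y_j)`, of absolute value
`≤ (4 B N)^(d-1)`, `4 B ≤ N`, product over `i` of the squares: `≤ (N²)^(2 d (d-1)) ≤ N^(4 d²)`. -/

namespace Pool.Agent.H87.SA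

open Finset Polynomial Pool.Agent.H72.ES

variable {d : ℕ} {c : Fin d → ℤ} {h : ℤ[X]} {B N : ℕ}

theorem val_bi_ne (H : SHyp c h B N) (i : Fin d) : bi c i ≠ 0 := by
  unfold bi
  rw [Finset.prod_ne_zero_iff]
  intro j hj h0
  rw [Finset.mem_erase] at hj
  exact hj.1 (H.inj (sub_eq_zero.1 h0)).symm

theorem qq_pos (H : SHyp c h B N) : 1 ≤ qq c := by
  unfold qq
  refine Nat.one_le_iff_ne_zero.2 (Finset.prod_ne_zero_iff.2 fun i _ => ?_)
  exact pow_ne_zero 2 (Int.natAbs_ne_zero.2 (val_bi_ne H i))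

theorem Ser.geo (S : Ser c h B) (i : Fin d) : Geo B ((B : ℝ) ^ (12 * d ^ 2)) (S.xr i) := by
  intro k
  unfold Ser.xr
  rw [PowerSeries.coeff_map]
  exact S.le i k

theorem val_B (H : SHyp c h B N) : (2 : ℝ) ≤ B := by exact_mod_cast H.B2

theorem val_N (H : SHyp c h B N) : (B : ℝ) ^ (20 * d ^ 2) ≤ N := by exact_mod_cast H.big

theorem val_NM (H : SHyp c h B N) : (N : ℝ) ≤ ((qq c * N : ℕ) : ℝ) := by
  have := qq_pos H
  have h1 : N ≤ qq c * N := Nat.le_mul_of_pos_left N (by omega)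
  exact_mod_cast h1

theorem big16 (H : SHyp c h B N) :
    16 * d * (B : ℝ) ^ 2 * (B : ℝ) ^ (12 * d ^ 2) ≤ ((qq c * N : ℕ) : ℝ) := by
  have hB := val_B H
  have hd := H.d3
  refine le_trans ?_ ((val_N H).trans (val_NM H))
  have h1 : (16 : ℝ) ≤ (B : ℝ) ^ 4 := by
    calc (16 : ℝ) = 2 ^ 4 := by norm_num
      _ ≤ (B : ℝ) ^ 4 := pow_le_pow_left₀ (by norm_num) hB 4
  have h2 : (d : ℝ) ≤ (B : ℝ) ^ d := by
    calc (d : ℝ) ≤ ((2 ^ d : ℕ) : ℝ) := by exact_mod_cast Nat.lt_two_pow_self.le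
      _ = (2 : ℝ) ^ d := by push_cast; ring
      _ ≤ (B : ℝ) ^ d := pow_le_pow_left₀ (by norm_num) hB _
  calc 16 * d * (B : ℝ) ^ 2 * (B : ℝ) ^ (12 * d ^ 2)
      ≤ (B : ℝ) ^ 4 * (B : ℝ) ^ d * (B : ℝ) ^ 2 * (B : ℝ) ^ (12 * d ^ 2) := by
        gcongr
    _ = (B : ℝ) ^ (4 + d + 2 + 12 * d ^ 2) := by rw [← pow_add, ← pow_add, ← pow_add]
    _ ≤ _ := pow_le_pow_right₀ (by linarith) (by nlinarith)

theorem val_R1 (H : SHyp c h B N) : (1 : ℝ) ≤ (B : ℝ) ^ (12 * d ^ 2) :=
  one_le_pow₀ (by linarith [val_B H])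

theorem val_2R (H : SHyp c h B N) :
    2 * (B : ℝ) ^ (12 * d ^ 2) ≤ ((qq c * N : ℕ) : ℝ) := by
  refine le_trans ?_ (big16 H)
  have hB := val_B H
  have hd : (3 : ℝ) ≤ d := by exact_mod_cast H.d3
  apply mul_le_mul_of_nonneg_right _ (by linarith [val_R1 H])
  nlinarith [sq_nonneg ((B : ℝ) - 1)]

theorem val_Mpos (H : SHyp c h B N) : (0 : ℝ) < ((qq c * N : ℕ) : ℝ) := by
  have := val_2R H
  have := val_R1 H
  linarith

theorem val_Npos (H : SHyp c h B N) : (0 : ℝ) < (N : ℝ) := by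
  have := val_N H
  have h1 : (1 : ℝ) ≤ (B : ℝ) ^ (20 * d ^ 2) := one_le_pow₀ (by linarith [val_B H])
  linarith

theorem val_h (H : SHyp c h B N) : 0 ≤ 1 / ((qq c * N : ℕ) : ℝ) :=
  (one_div_pos.2 (val_Mpos H)).le

theorem val_Rh (H : SHyp c h B N) :
    (B : ℝ) ^ (12 * d ^ 2) * (1 / ((qq c * N : ℕ) : ℝ)) ≤ 1 / 2 := by
  rw [mul_one_div, div_le_iff₀ (val_Mpos H)]
  linarith [val_2R H]

theorem cv_xr (H : SHyp c h B N) (S : Ser c h B) (i : Fin d) :
    Cv (1 / ((qq c * N : ℕ) : ℝ)) (S.xr i) :=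
  (S.geo i).cv (by linarith [val_R1 H]) (by linarith [val_Rh H])

theorem val_evl (H : SHyp c h B N) (S : Ser c h B) (i : Fin d) :
    |evl (1 / ((qq c * N : ℕ) : ℝ)) (S.xr i) - c i| ≤
      1 / ((qq c * N : ℕ) : ℝ) * (2 * (B * (B : ℝ) ^ (12 * d ^ 2))) := by
  obtain ⟨a, ha⟩ : ∃ a : PowerSeries ℝ,
      a = PowerSeries.mk fun k => PowerSeries.coeff (k + 1) (S.xr i) := ⟨_, rfl⟩
  have hgeo : Geo (B * (B : ℝ) ^ (12 * d ^ 2)) ((B : ℝ) ^ (12 * d ^ 2)) a := by
    intro k
    rw [ha, PowerSeries.coeff_mk]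
    refine (S.geo i (k + 1)).trans (le_of_eq ?_)
    rw [pow_succ]; ring
  have hx : S.xr i = PowerSeries.C (c i : ℝ) + PowerSeries.X * a := by
    ext k
    rcases k with _ | k
    · rw [map_add, PowerSeries.coeff_zero_X_mul, add_zero, PowerSeries.coeff_zero_C]
      unfold Ser.xr
      rw [PowerSeries.coeff_map, PowerSeries.coeff_zero_eq_constantCoeff_apply, S.x0 i]
      rfl
    · rw [map_add, PowerSeries.coeff_succ_X_mul, PowerSeries.coeff_C, if_neg (Nat.succ_ne_zero k),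
        zero_add, ha, PowerSeries.coeff_mk]
  have hac : Cv (1 / ((qq c * N : ℕ) : ℝ)) a :=
    hgeo.cv (by linarith [val_R1 H]) (by linarith [val_Rh H])
  have hh := val_h H
  rw [hx, evl_add hh (Cv.C _ _) (Cv.mul hh (Cv.X _) hac), evl_mul hh (Cv.X _) hac, evl_C, evl_X,
    add_sub_cancel_left, abs_mul, abs_of_nonneg hh]
  exact mul_le_mul_of_nonneg_left
    (hgeo.evl_le hh (by linarith [val_R1 H]) (val_Rh H)) hh

theorem val_near (H : SHyp c h B N) (S : Ser c h B) (i : Fin d) :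
    |S.y N i - N * c i| * (8 * d * B) ≤ N := by
  have h1 := val_evl H S i
  have hM := val_Mpos H
  have hN := val_Npos H
  have hB := val_B H
  have e1 : S.y N i - N * c i = N * (evl (1 / ((qq c * N : ℕ) : ℝ)) (S.xr i) - c i) := by
    unfold Ser.y; ring
  rw [e1, abs_mul, abs_of_pos hN]
  calc (N : ℝ) * |evl (1 / ((qq c * N : ℕ) : ℝ)) (S.xr i) - c i| * (8 * d * B)
      ≤ (N : ℝ) * (1 / ((qq c * N : ℕ) : ℝ) * (2 * (B * (B : ℝ) ^ (12 * d ^ 2)))) * (8 * d * B) := by
        gcongr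
    _ = N * ((16 * d * (B : ℝ) ^ 2 * (B : ℝ) ^ (12 * d ^ 2)) / ((qq c * N : ℕ) : ℝ)) := by
        ring
    _ ≤ N * 1 := by
        apply mul_le_mul_of_nonneg_left _ hN.le
        rw [div_le_one hM]
        exact big16 H
    _ = N := mul_one _

theorem val_near' (H : SHyp c h B N) (S : Ser c h B) (i : Fin d) :
    |S.y N i - N * c i| * 48 ≤ N := by
  refine le_trans ?_ (val_near H S i)
  have hB := val_B H
  have hd : (3 : ℝ) ≤ d := by exact_mod_cast H.d3
  apply mul_le_mul_of_nonneg_left _ (abs_nonneg _)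
  nlinarith

theorem y_inj (H : SHyp c h B N) (S : Ser c h B) : Function.Injective (S.y N) := by
  intro i j hij
  by_contra hne
  have h1 := val_near' H S i
  have h2 := val_near' H S j
  have hN := val_Npos H
  have h3 : (1 : ℝ) ≤ |(c i : ℝ) - c j| := by
    have h4 : c i - c j ≠ 0 := fun h5 => hne (H.inj (sub_eq_zero.1 h5))
    have h6 : (1 : ℤ) ≤ |c i - c j| := Int.one_le_abs h4
    exact_mod_cast h6
  have h4 : (N : ℝ) * |(c i : ℝ) - c j| ≤ |S.y N i - N * c i| + |S.y N j - N * c j| := by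
    have e1 : (N : ℝ) * |(c i : ℝ) - c j| = |(S.y N j - N * c j) - (S.y N i - N * c i)| := by
      rw [← abs_of_pos hN, ← abs_mul, abs_of_pos hN]
      congr 1
      rw [hij]; ring
    rw [e1]
    refine (abs_sub _ _).trans (le_of_eq (add_comm _ _))
  have h5 : (N : ℝ) * 1 ≤ N * |(c i : ℝ) - c j| := mul_le_mul_of_nonneg_left h3 hN.le
  linarith

theorem y_le (H : SHyp c h B N) (S : Ser c h B) (i : Fin d) : |S.y N i| ≤ 2 * B * N := by
  have h1 := val_near' H S i
  have hN := val_Npos H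
  have hB := val_B H
  have h2 : |(c i : ℝ)| ≤ B := by exact_mod_cast H.cB i
  have h3 : |S.y N i| ≤ |S.y N i - N * c i| + |(N : ℝ) * c i| := by
    have := abs_add_le (S.y N i - N * c i) (N * c i)
    rwa [sub_add_cancel] at this
  rw [abs_mul, abs_of_pos hN] at h3
  have h4 : (N : ℝ) * |(c i : ℝ)| ≤ N * B := mul_le_mul_of_nonneg_left h2 hN.le
  have h5 : (N : ℝ) * 2 ≤ N * B := mul_le_mul_of_nonneg_left hB hN.le
  have h6 := abs_nonneg (S.y N i - N * c i)
  linarith

/-- evaluation on the ring of convergent series -/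
noncomputable def evlHom (t : ℝ) (ht : 0 ≤ t) : cvs t ht →+* ℝ where
  toFun a := evl t a.1
  map_one' := by
    have := evl_C t 1
    rwa [map_one] at this
  map_mul' a b := evl_mul ht a.2 b.2
  map_zero' := by
    have := evl_C t 0
    rwa [map_zero] at this
  map_add' a b := evl_add ht a.2 b.2

theorem val_root (H : SHyp c h B N) (S : Ser c h B) (i : Fin d) :
    ∏ j, (evl (1 / ((qq c * N : ℕ) : ℝ)) (S.xr i) - c j) +
      (qq c : ℝ) * (1 / ((qq c * N : ℕ) : ℝ)) *
        ei h (evl (1 / ((qq c * N : ℕ) : ℝ)) (S.xr i)) = 0 := by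
  obtain ⟨t, ht⟩ : ∃ t : ℝ, t = 1 / ((qq c * N : ℕ) : ℝ) := ⟨_, rfl⟩
  have ht0 : 0 ≤ t := by rw [ht]; exact val_h H
  have hc : Cv t (S.xr i) := by rw [ht]; exact cv_xr H S i
  rw [← ht]
  obtain ⟨x', hx'⟩ : ∃ x' : cvs t ht0, x' = ⟨S.xr i, hc⟩ := ⟨_, rfl⟩
  obtain ⟨X', hX'⟩ : ∃ X' : cvs t ht0, X' = ⟨PowerSeries.X, Cv.X t⟩ := ⟨_, rfl⟩
  have hcoe : (x' : PowerSeries ℝ) = S.xr i := by rw [hx']
  have hcoeX : (X' : PowerSeries ℝ) = PowerSeries.X := by rw [hX']
  have heq : ∏ j, (x' - (c j : cvs t ht0)) + (qq c : cvs t ht0) * X' * ei h x' = 0 := by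
    apply Subtype.ext
    have h1 := congrArg (PowerSeries.map (Int.castRingHom ℝ)) (S.eq i)
    rw [map_add, map_prod, map_mul, map_mul, map_ei, map_zero, PowerSeries.map_X] at h1
    have h2 : ((ei h x' : cvs t ht0) : PowerSeries ℝ) = ei h (S.xr i) := by
      have := map_ei (cvs t ht0).subtype h x'
      rw [← hcoe]
      exact this
    have h3 : ((∏ j, (x' - (c j : cvs t ht0)) : cvs t ht0) : PowerSeries ℝ) =
        ∏ j, (S.xr i - (c j : PowerSeries ℝ)) := by
      have := map_prod (cvs t ht0).subtype (fun j => x' - (c j : cvs t ht0)) univ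
      rw [show ((∏ j, (x' - (c j : cvs t ht0)) : cvs t ht0) : PowerSeries ℝ) =
        (cvs t ht0).subtype (∏ j, (x' - (c j : cvs t ht0))) from rfl, this]
      refine Finset.prod_congr rfl fun j _ => ?_
      rw [map_sub, map_intCast, ← hcoe]
      rfl
    push_cast
    have h4 : ∀ j, PowerSeries.map (Int.castRingHom ℝ) (S.x i - PowerSeries.C (c j)) =
        S.xr i - (c j : PowerSeries ℝ) := by
      intro j
      rw [map_sub, PowerSeries.map_C]
      unfold Ser.xr
      congr 1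
      simp
    rw [Finset.prod_congr rfl fun j _ => h4 j] at h1
    have h5 : PowerSeries.map (Int.castRingHom ℝ) (PowerSeries.C (qq c : ℤ)) =
        (qq c : PowerSeries ℝ) := by
      rw [PowerSeries.map_C]
      simp
    rw [h5] at h1
    rw [h2, hcoeX] at *
    have h6 : ∏ j, ((x' : PowerSeries ℝ) - (c j : PowerSeries ℝ)) =
        ∏ j, (S.xr i - (c j : PowerSeries ℝ)) := by rw [hcoe]
    rw [h6]
    exact h1
  have h7 := congrArg (evlHom t ht0) heq
  rw [map_add, map_prod, map_mul, map_mul, map_ei, map_zero, map_natCast] at h7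
  have h8 : evlHom t ht0 x' = evl t (S.xr i) := by rw [hx']; rfl
  have h9 : evlHom t ht0 X' = t := by rw [hX']; exact evl_X t
  rw [h9, h8] at h7
  have h10 : ∀ j, evlHom t ht0 (x' - (c j : cvs t ht0)) = evl t (S.xr i) - c j := by
    intro j
    rw [map_sub, map_intCast, h8]
  rw [Finset.prod_congr rfl fun j _ => h10 j] at h7
  exact h7

theorem val_hst (H : SHyp c h B N) (ξ : ℝ) :
    ((hst d h N).map (Int.castRingHom ℝ)).eval ((N : ℝ) * ξ) = (N : ℝ) ^ (d - 1) * ei h ξ := by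
  have hd := H.d3
  have hdeg : h.natDegree < d := by
    by_cases h0 : h = 0
    · rw [h0]; simp; omega
    · exact (Polynomial.natDegree_lt_iff_degree_lt h0).2 H.hdeg
  unfold ei hst
  rw [Polynomial.eval₂_eq_sum_range' _ hdeg, Polynomial.map_sum, Polynomial.eval_finsetSum,
    Finset.mul_sum]
  refine Finset.sum_congr rfl fun k hk => ?_
  rw [Finset.mem_range] at hk
  rw [Polynomial.map_mul, Polynomial.map_pow, Polynomial.map_X, Polynomial.map_C,
    Polynomial.eval_mul, Polynomial.eval_pow, Polynomial.eval_X, Polynomial.eval_C]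
  have e1 : (N : ℝ) ^ (d - 1) = (N : ℝ) ^ (d - 1 - k) * (N : ℝ) ^ k := by
    rw [← pow_add]; congr 1; omega
  rw [e1, mul_pow]
  simp only [eq_intCast]
  push_cast
  ring

theorem val_gst (H : SHyp c h B N) (ξ : ℝ) :
    ((gst c h N).map (Int.castRingHom ℝ)).eval ((N : ℝ) * ξ) =
      (N : ℝ) ^ d * ∏ j, (ξ - c j) + (N : ℝ) ^ (d - 1) * ei h ξ := by
  unfold gst
  rw [Polynomial.map_add, Polynomial.eval_add, val_hst H, Polynomial.map_prod,
    Polynomial.eval_prod]
  congr 1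
  have e1 : (N : ℝ) ^ d = ∏ _j : Fin d, (N : ℝ) := by
    rw [Finset.prod_const, Finset.card_univ, Fintype.card_fin]
  rw [e1, ← Finset.prod_mul_distrib]
  refine Finset.prod_congr rfl fun j _ => ?_
  rw [Polynomial.map_sub, Polynomial.map_X, Polynomial.map_C, Polynomial.eval_sub,
    Polynomial.eval_X, Polynomial.eval_C]
  simp only [eq_intCast]
  push_cast
  ring

theorem val_y_root (H : SHyp c h B N) (S : Ser c h B) (i : Fin d) :
    ((gst c h N).map (Int.castRingHom ℝ)).eval (S.y N i) = 0 := by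
  have h1 := val_root H S i
  have hN := val_Npos H
  have hM := val_Mpos H
  have hd := H.d3
  unfold Ser.y
  rw [val_gst H]
  obtain ⟨t, ht⟩ : ∃ t : ℝ, t = evl (1 / ((qq c * N : ℕ) : ℝ)) (S.xr i) := ⟨_, rfl⟩
  rw [← ht] at h1 ⊢
  have hq : (0 : ℝ) < qq c := by
    have := qq_pos H
    exact_mod_cast this
  have e1 : (qq c : ℝ) * (1 / ((qq c * N : ℕ) : ℝ)) = 1 / N := by
    push_cast
    field_simp
  rw [e1] at h1
  have e2 : (N : ℝ) ^ d = (N : ℝ) ^ (d - 1) * N := by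
    rw [← pow_succ]; congr 1; omega
  calc (N : ℝ) ^ d * ∏ j, (t - c j) + (N : ℝ) ^ (d - 1) * ei h t
      = (N : ℝ) ^ d * (∏ j, (t - c j) + 1 / N * ei h t) := by
        rw [mul_add, e2]
        field_simp
    _ = 0 := by rw [h1, mul_zero]

theorem val_hst_deg (d : ℕ) (h : ℤ[X]) (N : ℕ) : (hst d h N).degree < d := by
  unfold hst
  refine (Polynomial.degree_sum_le _ _).trans_lt ?_
  rw [Finset.sup_lt_iff (by exact_mod_cast WithBot.bot_lt_coe d)]
  intro k hk
  rw [Finset.mem_range] at hk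
  refine (Polynomial.degree_C_mul_X_pow_le _ _).trans_lt ?_
  exact_mod_cast hk

theorem val_prod_deg (u : Fin d → ℝ) : (∏ i, (X - C (u i)) : ℝ[X]).degree = d := by
  rw [Polynomial.degree_prod]
  simp

theorem gst_split (H : SHyp c h B N) (S : Ser c h B) :
    (gst c h N).map (Int.castRingHom ℝ) = ∏ i, (X - C (S.y N i)) := by
  classical
  have hd := H.d3
  have hcard : (univ.image (S.y N)).card = d := by
    rw [Finset.card_image_of_injective _ (y_inj H S), Finset.card_univ, Fintype.card_fin]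
  refine Polynomial.eq_of_degree_sub_lt_of_eval_finset_eq (univ.image (S.y N)) ?_ ?_
  · rw [hcard]
    have e1 : (gst c h N).map (Int.castRingHom ℝ) =
        ∏ i, (X - C ((N : ℝ) * c i)) + (hst d h N).map (Int.castRingHom ℝ) := by
      unfold gst
      rw [Polynomial.map_add, Polynomial.map_prod]
      congr 1
      refine Finset.prod_congr rfl fun j _ => ?_
      rw [Polynomial.map_sub, Polynomial.map_X, Polynomial.map_C]
      simp only [eq_intCast]
      push_cast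
      rfl
    rw [e1, add_sub_right_comm]
    have h1 : (∏ i, (X - C ((N : ℝ) * c i)) - ∏ i, (X - C (S.y N i)) : ℝ[X]).degree < d := by
      have h2 := Polynomial.degree_sub_lt_left (p := ∏ i, (X - C ((N : ℝ) * c i)))
        (q := ∏ i, (X - C (S.y N i))) (by rw [val_prod_deg, val_prod_deg]) (by
          intro h0
          have := val_prod_deg (fun i => (N : ℝ) * c i)
          rw [h0, Polynomial.degree_zero] at this
          exact absurd this (by simp)) (by
          rw [(Polynomial.monic_prod_X_sub_C _ _).leadingCoeff,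
            (Polynomial.monic_prod_X_sub_C _ _).leadingCoeff])
      rwa [val_prod_deg] at h2
    have h3 : ((hst d h N).map (Int.castRingHom ℝ)).degree < d :=
      Polynomial.degree_map_le.trans_lt (val_hst_deg d h N)
    exact (Polynomial.degree_add_le _ _).trans_lt (max_lt h1 h3)
  · intro x hx
    obtain ⟨i, -, rfl⟩ := Finset.mem_image.1 hx
    rw [val_y_root H S i, Polynomial.eval_prod]
    symm
    apply Finset.prod_eq_zero (Finset.mem_univ i)
    simp

theorem root_eq (H : SHyp c h B N) (S : Ser c h B) {ξ : ℝ} (hξ : ei (gpol c h N) ξ = 0) :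
    ∃ i, (N : ℝ) * ξ = S.y N i := by
  have hN := val_Npos H
  have hd := H.d3
  have h1 := val_gst H ξ
  have h2 : ei (gpol c h N) ξ = N * ∏ j, (ξ - c j) + ei h ξ := by
    unfold gpol
    rw [ei_add, ei_mul]
    unfold ei
    rw [Polynomial.eval₂_C, Polynomial.eval₂_finsetProd]
    have e3 : ∏ j, eval₂ (Int.castRingHom ℝ) ξ (X - C (c j)) = ∏ j, (ξ - (c j : ℝ)) := by
      refine Finset.prod_congr rfl fun j _ => ?_
      rw [Polynomial.eval₂_sub, Polynomial.eval₂_X, Polynomial.eval₂_C]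
      simp
    rw [e3]
    simp
  have e2 : (N : ℝ) ^ d = (N : ℝ) ^ (d - 1) * N := by
    rw [← pow_succ]; congr 1; omega
  have h3 : ((gst c h N).map (Int.castRingHom ℝ)).eval ((N : ℝ) * ξ) = 0 := by
    rw [h1, e2]
    calc (N : ℝ) ^ (d - 1) * N * ∏ j, (ξ - c j) + (N : ℝ) ^ (d - 1) * ei h ξ
        = (N : ℝ) ^ (d - 1) * (N * ∏ j, (ξ - c j) + ei h ξ) := by ring
      _ = 0 := by rw [← h2, hξ, mul_zero]
  rw [gst_split H S, Polynomial.eval_prod, Finset.prod_eq_zero_iff] at h3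
  obtain ⟨i, -, hi⟩ := h3
  refine ⟨i, ?_⟩
  rw [Polynomial.eval_sub, Polynomial.eval_X, Polynomial.eval_C] at hi
  exact sub_eq_zero.1 hi

theorem dlt_le (H : SHyp c h B N) (S : Ser c h B) :
    ∏ i, (ei (derivative (gst c h N)) (S.y N i)) ^ 2 ≤ ((qq c * N : ℕ) : ℝ) ^ (4 * d ^ 2) := by
  classical
  have hN := val_Npos H
  have hB := val_B H
  have hd := H.d3
  have hN1 : (1 : ℝ) ≤ N := by
    have : (1 : ℝ) ≤ (B : ℝ) ^ (20 * d ^ 2) := one_le_pow₀ (by linarith)
    linarith [val_N H]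
  have h4B : 4 * (B : ℝ) ≤ N := by
    refine le_trans ?_ (val_N H)
    calc 4 * (B : ℝ) ≤ (B : ℝ) ^ 2 * B := by nlinarith
      _ = (B : ℝ) ^ 3 := by ring
      _ ≤ _ := pow_le_pow_right₀ (by linarith) (by nlinarith)
  have h1 : ∀ i, ei (derivative (gst c h N)) (S.y N i) =
      ∏ j ∈ univ.erase i, (S.y N i - S.y N j) := by
    intro i
    have e1 : ei (derivative (gst c h N)) (S.y N i) =
        (derivative ((gst c h N).map (Int.castRingHom ℝ))).eval (S.y N i) := by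
      unfold ei
      rw [Polynomial.derivative_map, Polynomial.eval_map]
    rw [e1, gst_split H S]
    have e2 : (∏ i, (X - C (S.y N i)) : ℝ[X]) = Lagrange.nodal univ (S.y N) := rfl
    rw [e2, Lagrange.eval_nodal_derivative_eval_node_eq (Finset.mem_univ i), Lagrange.eval_nodal]
  have h2 : ∀ i, |ei (derivative (gst c h N)) (S.y N i)| ≤ (N : ℝ) ^ (2 * d) := by
    intro i
    rw [h1 i, Finset.abs_prod]
    calc ∏ j ∈ univ.erase i, |S.y N i - S.y N j| ≤ ∏ _j ∈ univ.erase i, (N : ℝ) ^ 2 := by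
          refine Finset.prod_le_prod (fun _ _ => abs_nonneg _) fun j _ => ?_
          refine (abs_sub _ _).trans ?_
          have e1 := y_le H S i
          have e2 := y_le H S j
          nlinarith
      _ = ((N : ℝ) ^ 2) ^ (univ.erase i).card := by rw [Finset.prod_const]
      _ ≤ ((N : ℝ) ^ 2) ^ d := by
          apply pow_le_pow_right₀ (one_le_pow₀ hN1)
          refine (Finset.card_le_card (Finset.erase_subset _ _)).trans ?_
          rw [Finset.card_univ, Fintype.card_fin]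
      _ = _ := by rw [← pow_mul]
  calc ∏ i, (ei (derivative (gst c h N)) (S.y N i)) ^ 2 ≤ ∏ _i : Fin d, ((N : ℝ) ^ (2 * d)) ^ 2 := by
        refine Finset.prod_le_prod (fun _ _ => sq_nonneg _) fun i _ => ?_
        rw [← sq_abs]
        exact pow_le_pow_left₀ (abs_nonneg _) (h2 i) 2
    _ = (N : ℝ) ^ (4 * d ^ 2) := by
        rw [Finset.prod_const, Finset.card_univ, Fintype.card_fin, ← pow_mul, ← pow_mul]
        congr 1
        ring
    _ ≤ _ := pow_le_pow_left₀ hN.le (val_NM H) _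

end Pool.Agent.H87.SA
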