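import Pool.Agent.H87.SA.DnA
import Pool.Agent.H87.SA.TayW
import Pool.Agent.H87.SA.St1S
import Pool.Agent.H87.SA.Coef
import Pool.Agent.H87.SA.Num
import Pool.Agent.H97.AN.Pt

/-! # [SA-VAN] Vanishing of the Taylor coefficients at the anchor -/

namespace Pool.Agent.H87.SA

open Finset Polynomial Pool.Agent.H72.ES Pool.Agent.H8.KF Pool.Agent.H97.AN

variable {n Q : ℕ} {f : ℤ[X]} {θ : ℝ}

/-- the anchor series converges at `1/M` -/
theorem Anch.cv {O : Ord ℝ n Q f θ} {D m κ M : ℕ} {R G : ℝ} (an : Anch O D m κ M R G)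
    (hR : 0 ≤ R) (hRM : R < M) : Cv (1 / (M : ℝ)) (an.Z.map an.ψ) := by
  refine Geo.cv (A := (M : ℝ) ^ κ) (R := R) ?_ hR ?_
  · intro k
    rw [PowerSeries.coeff_map]
    exact (an.ψ_le _).trans (an.Z_le k)
  · rw [mul_one_div]
    exact (div_lt_one (lt_of_le_of_lt hR hRM)).2 hRM

theorem vanS (O : Ord ℝ n Q f θ) {F : ℕ → ℕ → ℤ} (hF : Norml n Q f F) (br : Branch O F)
    {D m κ M : ℕ} {R G : ℝ} (hD : 1 ≤ D) (hκ : 1 ≤ κ) (hR : 2 ≤ R) (hG : 1 ≤ G)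
    (an : Anch O D m κ M R G) (la : ℕ)
    (hRM : (16 * R) ^ (10 ^ 5 * n ^ 4 * KK D κ) ≤ (M : ℝ))
    (hla : 10 ^ 6 * n ^ 6 * KK D κ ^ 2 ≤ la)
    (hGB : (G * bb n Q) ^ (10 ^ 6 * n ^ 3 * KK D κ) ≤ (M : ℝ) ^ (la + 1))
    (A : ℕ → ℕ → ℕ → ℕ → ℤ) (hA : SuppA n D (3 * n * la) A)
    (hZ : ∀ s j p q, |((A s j p q : ℤ) : ℝ)| ≤ ZS n D κ M R G (bb n Q) la)
    (hv : ∀ k l, k + la * l < TT n la →
        sa n D (3 * n * la) A (fun s j => an.JE (zc an.Z k s j))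
          (fun p q => an.JO (bc O br (3 * n) p q l)) = 0)
    (x y : ℤ) (h2 : ev n F x y = 0) (hy : |(y : ℝ) / x - θ| ≤ 1 / bb n Q)
    (hxb : bb n Q ^ 5 ≤ |(x : ℝ)|) (hx1 : (M : ℝ) ^ la ≤ |(x : ℝ)|)
    (hx2 : |(x : ℝ)| ≤ (M : ℝ) ^ (la + 1)) (i : ℕ) (hi : 8 * (κ + 1) * i ≤ la) :
    PowerSeries.coeff i (tay (1 / (M : ℝ))
      ((us (3 * n * la) D (spec n A x y) an.Z).map an.ψ)) = 0 := by
  have hn := hF.hn
  have hB1 := one_le_bb hn hF.hQ
  have hR1 : (1 : ℝ) ≤ R := by linarith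
  have h16 : (1 : ℝ) ≤ 16 * R := by linarith
  have hKK : 1 ≤ KK D κ := by unfold KK; nlinarith
  have hn4 : 1 ≤ n ^ 4 := Nat.one_le_pow _ _ (by omega)
  have hMR : 16 * R ≤ (M : ℝ) := by
    refine le_trans ?_ hRM
    refine le_self_pow₀ h16 ?_
    have : 1 ≤ 10 ^ 5 * n ^ 4 * KK D κ := by nlinarith
    omega
  have hM1 : (1 : ℝ) ≤ M := by linarith
  have hMN : 1 ≤ M := by exact_mod_cast hM1
  have hM0 : (0 : ℝ) < M := by linarith
  have hla8 : 8 * n ≤ la := by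
    have h6 : n ≤ n ^ 6 := Nat.le_self_pow (by norm_num) n
    have h7 : 1 ≤ KK D κ ^ 2 := Nat.one_le_pow _ _ hKK
    calc 8 * n ≤ 10 ^ 6 * n ^ 6 := by omega
      _ = 10 ^ 6 * n ^ 6 * 1 := (mul_one _).symm
      _ ≤ 10 ^ 6 * n ^ 6 * KK D κ ^ 2 := Nat.mul_le_mul_left _ h7
      _ ≤ la := hla
  set Zr := an.Z.map an.ψ with hZr
  have hcv : Cv (1 / (M : ℝ)) Zr := an.cv (by linarith) (by linarith)
  rw [us_map]
  set ZB := ZS n D κ M R G (bb n Q) la with hZB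
  have hZB0 : 0 ≤ ZB := by unfold ZB ZS; positivity
  set U := us (3 * n * la) D (spec n A x y) Zr with hU
  set Y : ℝ := |(x : ℝ)| ^ (3 * n) * ((3 * n + 1) * ((3 * n * la + 1) * (D * (ZB *
    ((M : ℝ) ^ (κ * D) * 2 ^ D)))) * bb n Q ^ (26 * n)) with hY
  have hY0 : 0 ≤ Y := by positivity
  -- the coefficients
  have hzc : ∀ k s j, j < D → |zc Zr k s j| ≤ ((M : ℝ) ^ (κ * D) * 2 ^ D) * (2 * R) ^ k := by
    intro k s j hj
    rw [hZr, ← zc_map]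
    refine (an.ψ_le _).trans ?_
    have h := zc_le an.sub (A := (M : ℝ) ^ κ) (R := R) (one_le_pow₀ hM1) hR1 an.Z_le k s j hj
    rw [← pow_mul] at h
    exact h
  have hcoef : ∀ k, |PowerSeries.coeff k U| * (M : ℝ) ^ (TT n la - k) ≤ Y * (2 * R) ^ k := by
    intro k
    have h := st1S O hF br D la hla8 A hA ZB hZ (fun s j => zc Zr k s j)
      (((M : ℝ) ^ (κ * D) * 2 ^ D) * (2 * R) ^ k) (fun s _ j hj => hzc k s j hj) (by positivity) k
      (fun l hl => by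
        have h3 := congrArg an.φ (hv k l hl)
        rw [sa_map, map_zero] at h3
        rw [← h3]
        congr 1
        · funext s j
          rw [an.φ_JE, hZr, ← zc_map]
        · funext p q
          rw [an.φ_JO]) x y h2 hy hxb M hM1 hx1
    have h4 : PowerSeries.coeff k U = ∑ s ∈ range (3 * n * la + 1), ∑ j ∈ range D,
        ((spec n A x y s j : ℤ) : ℝ) * zc Zr k s j := by
      rw [hU, coeff_us]
    rw [h4]
    refine h.trans (le_of_eq ?_)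
    rw [hY]
    ring
  have hiT : i ≤ TT n la := by
    have h1 : i ≤ la := by
      have : i ≤ 8 * (κ + 1) * i := Nat.le_mul_of_pos_left _ (by positivity)
      omega
    unfold TT
    have : la ≤ 6 * n * la := Nat.le_mul_of_pos_left _ (by omega)
    omega
  have hw := tay_coeff_le (M := M) (T := TT n la) (r := 2 * R) (by linarith) (by linarith) hY0 U
    hcoef i hiT
  obtain ⟨z, hz⟩ := dn_us hMN (3 * n * la) D (spec n A x y) hcv an.dn i
  rw [← hU] at hz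
  set w := PowerSeries.coeff i (tay (1 / (M : ℝ)) U) with hwd
  have heR : (1 : ℝ) ≤ an.e := by exact_mod_cast an.e_pos
  have hΔR : (1 : ℝ) ≤ an.Δ := by exact_mod_cast an.Δ_pos
  have hz1 : |(z : ℝ)| < 1 := by
    have h5 : |(z : ℝ)| = (M : ℝ) ^ (3 * n * la) * (an.e : ℝ) ^ D * (an.Δ : ℝ) ^ i * |w| := by
      rw [hz, abs_mul, abs_of_nonneg (by push_cast; positivity)]
      push_cast
      ring
    have h6 : (M : ℝ) ^ (3 * n * la) * (an.e : ℝ) ^ D * (an.Δ : ℝ) ^ i ≤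
        (M : ℝ) ^ (3 * n * la) * (M : ℝ) ^ (κ * D) * (M : ℝ) ^ (κ * i) := by
      rw [pow_mul (M : ℝ) κ D, pow_mul (M : ℝ) κ i]
      have e1 : (an.e : ℝ) ^ D ≤ ((M : ℝ) ^ κ) ^ D := pow_le_pow_left₀ (by linarith) an.e_le D
      have e2 : (an.Δ : ℝ) ^ i ≤ ((M : ℝ) ^ κ) ^ i := pow_le_pow_left₀ (by linarith) an.Δ_le i
      gcongr
    have h7 := num_van (i := i) hn hD hκ hR hG hB1 hRM hla hGB hi
    rw [← hZB] at h7
    have hxp : |(x : ℝ)| ^ (3 * n) ≤ (M : ℝ) ^ (3 * n * (la + 1)) := by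
      calc |(x : ℝ)| ^ (3 * n) ≤ ((M : ℝ) ^ (la + 1)) ^ (3 * n) :=
            pow_le_pow_left₀ (abs_nonneg _) hx2 _
        _ = (M : ℝ) ^ (3 * n * (la + 1)) := by rw [← pow_mul]; congr 1; ring
    have h8 : |w| * (M : ℝ) ^ TT n la ≤ (M : ℝ) ^ (3 * n * (la + 1)) *
        (4 * ((3 * n + 1) * ((3 * n * la + 1) * (D * (ZB * ((M : ℝ) ^ (κ * D) * 2 ^ D)))) *
        bb n Q ^ (26 * n)) * (4 * R) ^ (TT n la) * (M : ℝ) ^ i) := by
      refine hw.trans ?_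
      rw [hY, show 2 * (2 * R) = 4 * R by ring]
      calc 4 * (|(x : ℝ)| ^ (3 * n) * ((3 * n + 1) * ((3 * n * la + 1) * (D * (ZB *
            ((M : ℝ) ^ (κ * D) * 2 ^ D)))) * bb n Q ^ (26 * n))) * (4 * R) ^ TT n la * (M : ℝ) ^ i
          = |(x : ℝ)| ^ (3 * n) * (4 * ((3 * n + 1) * ((3 * n * la + 1) * (D * (ZB *
            ((M : ℝ) ^ (κ * D) * 2 ^ D)))) * bb n Q ^ (26 * n)) * (4 * R) ^ TT n la *
            (M : ℝ) ^ i) := by ring
        _ ≤ _ := mul_le_mul_of_nonneg_right hxp (by positivity)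
    have h9 : |(z : ℝ)| * (M : ℝ) ^ TT n la < (M : ℝ) ^ TT n la := by
      calc |(z : ℝ)| * (M : ℝ) ^ TT n la
          = (M : ℝ) ^ (3 * n * la) * (an.e : ℝ) ^ D * (an.Δ : ℝ) ^ i * (|w| * (M : ℝ) ^ TT n la) := by
            rw [h5]; ring
        _ ≤ ((M : ℝ) ^ (3 * n * la) * (M : ℝ) ^ (κ * D) * (M : ℝ) ^ (κ * i)) *
            ((M : ℝ) ^ (3 * n * (la + 1)) *
        (4 * ((3 * n + 1) * ((3 * n * la + 1) * (D * (ZB * ((M : ℝ) ^ (κ * D) * 2 ^ D)))) *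
        bb n Q ^ (26 * n)) * (4 * R) ^ (TT n la) * (M : ℝ) ^ i)) := by gcongr
        _ = (M : ℝ) ^ (3 * n * la + 3 * n * (la + 1)) *
          (4 * ((3 * n + 1) * ((3 * n * la + 1) * (D * (ZB * ((M : ℝ) ^ (κ * D) * 2 ^ D)))) *
            bb n Q ^ (26 * n)) * (4 * R) ^ (TT n la) * (M : ℝ) ^ (κ * D + κ * i + i)) := by
            rw [pow_add, pow_add, pow_add]; ring
        _ < (M : ℝ) ^ (3 * n * la + 3 * n * (la + 1)) * (M : ℝ) ^ ee la :=
            mul_lt_mul_of_pos_left h7 (by positivity)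
        _ = (M : ℝ) ^ TT n la := by
            rw [← pow_add]
            congr 1
            unfold TT
            ring
    have hpos : (0 : ℝ) < (M : ℝ) ^ TT n la := by positivity
    by_contra hcon
    push Not at hcon
    nlinarith
  have hz0 : z = 0 := by
    have : |z| < 1 := by exact_mod_cast hz1
    exact Int.abs_lt_one_iff.1 this
  rw [hz0, Int.cast_zero] at hz
  have hne : (((M : ℤ) ^ (3 * n * la) * an.e ^ D : ℤ) : ℝ) * (an.Δ : ℝ) ^ i ≠ 0 := by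
    push_cast
    positivity
  exact (mul_eq_zero.1 hz.symm).resolve_left hne

end Pool.Agent.H87.SA
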