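import Pool.Agent.H87.SA.Defs
import Pool.Agent.H8.KF.OrdG
import Pool.Agent.H72.ES.BivNorm

/-! # [SA-ZEA] Sizes of iterated derivatives and of Wronskian determinants

`ν` is submultiplicative and subadditive (`SubMul`, `Pool.Agent.H8.KF.SubMul_nat`,
`Pool.Agent.H8.KF.SubMul_sum`, `Pool.Agent.H72.ES.SubMul.mul_natCast`).
`deriv_iter_le`: `coeff k (derivative^[i] g) = (k+i)(k+i-1)...(k+1) coeff (k+i) g` and
`(k+i)!/k! = i! binom(k+i, i) ≤ i! 2^(k+i)`; so `ν ≤ i! 2^(k+i) A R^(k+i) ≤ (r0! (2R)^r0 A) (2R)^k`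
for `i ≤ r0` (`1 ≤ R`, `1 ≤ A`). Induction alternative: if `ν (coeff k g) ≤ A' (k+1)...(k+i) ..`.
`prod_le`: the product of `r` series with `ν (coeff k) ≤ A R^k` satisfies
`ν (coeff k) ≤ A^r 2^(r+k) R^k` (induction on `r`; `r = 0`: `ν 1 ≤ 1`, `ν 0 = 0`; step:
`∑_{a+b=k} A^r 2^(r+a) R^a A R^b = A^(r+1) R^k ∑_{a ≤ k} 2^(r+a) ≤ A^(r+1) 2^(r+1+k) R^k`;
`PowerSeries.coeff_mul`).
`det_le`: `Matrix.det_apply`: sum over `r!` permutations of signed products
(`Finset.prod_univ` over `Fin r`), `r ≤ r0`, `1 ≤ 2 A`: `ν (coeff k det) ≤ r0! (2 A)^r0 (2 R)^k`. -/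

namespace Pool.Agent.H87.SA

open Finset Pool.Agent.H72.ES Pool.Agent.H8.KF

theorem deriv_iter_aux {E : Type} [CommRing E] {ν : E → ℝ} (hν : SubMul ν) {A R : ℝ}
    {g : PowerSeries E} (hg : ∀ k, ν (PowerSeries.coeff k g) ≤ A * R ^ k)
    (i : ℕ) : ∀ k : ℕ, ν (PowerSeries.coeff k ((⇑(PowerSeries.derivative E))^[i] g)) ≤
      ((k + 1).ascFactorial i : ℝ) * (A * R ^ (k + i)) := by
  induction i with
  | zero =>
    intro k
    simpa using hg k
  | succ i ih =>
    intro k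
    rw [Function.iterate_succ_apply', PowerSeries.coeff_derivative]
    have h1 := SubMul.mul_natCast hν (PowerSeries.coeff (k + 1) ((⇑(PowerSeries.derivative E))^[i] g))
      (k + 1)
    push_cast at h1
    refine h1.trans ?_
    have h2 := ih (k + 1)
    have h3 : ((k + 1).ascFactorial (i + 1) : ℝ) = ((k : ℝ) + 1) * ((k + 1 + 1).ascFactorial i : ℝ) := by
      have h4 : (k + 1).ascFactorial (i + 1) = (k + 1) * (k + 1 + 1).ascFactorial i := by
        rw [Nat.ascFactorial_succ, ← Nat.succ_ascFactorial]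
      rw [h4]
      push_cast
      ring
    have h5 : k + 1 + i = k + (i + 1) := by ring
    rw [h3, ← h5, mul_assoc]
    exact mul_le_mul_of_nonneg_left h2 (by positivity)

theorem deriv_iter_le {E : Type} [CommRing E] {ν : E → ℝ} (hν : SubMul ν) {A R : ℝ} (hA : 1 ≤ A)
    (hR : 1 ≤ R) {g : PowerSeries E} (hg : ∀ k, ν (PowerSeries.coeff k g) ≤ A * R ^ k)
    {r0 i : ℕ} (hi : i ≤ r0) (k : ℕ) :
    ν (PowerSeries.coeff k ((⇑(PowerSeries.derivative E))^[i] g)) ≤
      (r0.factorial * (2 * R) ^ r0 * A) * (2 * R) ^ k := by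
  refine (deriv_iter_aux hν hg i k).trans ?_
  have h1 : ((k + 1).ascFactorial i : ℝ) ≤ r0.factorial * 2 ^ (k + i) := by
    rw [Nat.ascFactorial_eq_factorial_mul_choose]
    have h2 : i.factorial ≤ r0.factorial := Nat.factorial_le hi
    have h3 : (k + i).choose i ≤ 2 ^ (k + i) := Nat.choose_le_two_pow _ _
    have h4 := Nat.mul_le_mul h2 h3
    exact_mod_cast h4
  have hR0 : (0 : ℝ) ≤ R := by linarith
  have h5 : 0 ≤ A * R ^ (k + i) := by positivity
  refine (mul_le_mul_of_nonneg_right h1 h5).trans ?_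
  have h6 : (r0.factorial : ℝ) * 2 ^ (k + i) * (A * R ^ (k + i)) =
      (r0.factorial * (2 * R) ^ i * A) * (2 * R) ^ k := by
    rw [mul_pow, mul_pow, pow_add, pow_add]
    ring
  rw [h6]
  have h7 : (2 * R) ^ i ≤ (2 * R) ^ r0 := pow_le_pow_right₀ (by linarith) hi
  have h8 : (0 : ℝ) ≤ (2 * R) ^ k := by positivity
  refine mul_le_mul_of_nonneg_right ?_ h8
  refine mul_le_mul_of_nonneg_right ?_ (by linarith)
  exact mul_le_mul_of_nonneg_left h7 (by positivity)

theorem prod_le {E : Type} [CommRing E] {ν : E → ℝ} (hν : SubMul ν) {A R : ℝ} (hA : 0 ≤ A)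
    (hR : 0 ≤ R) (r : ℕ) (g : Fin r → PowerSeries E)
    (hg : ∀ i k, ν (PowerSeries.coeff k (g i)) ≤ A * R ^ k) (k : ℕ) :
    ν (PowerSeries.coeff k (∏ i, g i)) ≤ A ^ r * 2 ^ (r + k) * R ^ k := by
  induction r generalizing k with
  | zero =>
    simp only [univ_eq_empty, prod_empty, pow_zero, one_mul, zero_add]
    rw [PowerSeries.coeff_one]
    split_ifs with h
    · subst h
      simpa using hν.one
    · rw [hν.zero]
      positivity
  | succ r ih =>
    rw [Fin.prod_univ_castSucc, PowerSeries.coeff_mul]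
    refine (SubMul_sum hν _ _).trans ?_
    have h1 : ∀ p ∈ antidiagonal k, ν (PowerSeries.coeff p.1 (∏ i : Fin r, g i.castSucc) *
        PowerSeries.coeff p.2 (g (Fin.last r))) ≤ A ^ (r + 1) * R ^ k * 2 ^ r * 2 ^ p.1 := by
      intro p hp
      have hp' : p.1 + p.2 = k := mem_antidiagonal.1 hp
      refine (hν.mul _ _).trans ?_
      have h2 := ih (fun i => g i.castSucc) (fun i k => hg i.castSucc k) p.1
      have h3 := hg (Fin.last r) p.2
      refine (mul_le_mul h2 h3 (hν.nonneg _) (by positivity)).trans (le_of_eq ?_)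
      rw [← hp', pow_add R, pow_add 2, pow_succ A]
      ring
    refine (Finset.sum_le_sum h1).trans ?_
    rw [← Finset.mul_sum, Finset.Nat.sum_antidiagonal_eq_sum_range_succ (fun a _ => (2 : ℝ) ^ a)]
    have h4 : ∑ a ∈ range k.succ, (2 : ℝ) ^ a ≤ 2 ^ (k + 1) := by
      have h5 : ∀ k : ℕ, ∑ a ∈ range k.succ, (2 : ℝ) ^ a = 2 ^ (k + 1) - 1 := by
        intro k
        induction k with
        | zero => norm_num
        | succ k ih =>
          rw [Finset.sum_range_succ, ih, pow_succ 2 (k + 1)]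
          ring
      rw [h5]
      linarith
    refine (mul_le_mul_of_nonneg_left h4 (by positivity)).trans (le_of_eq ?_)
    rw [pow_add 2 (r + 1) k, pow_succ 2 r, pow_succ 2 k]
    ring

theorem det_le {E : Type} [CommRing E] {ν : E → ℝ} (hν : SubMul ν) {A R : ℝ} (hA : 1 ≤ A)
    (hR : 0 ≤ R) {r r0 : ℕ} (hr : r ≤ r0) (a : Matrix (Fin r) (Fin r) (PowerSeries E))
    (ha : ∀ i l k, ν (PowerSeries.coeff k (a i l)) ≤ A * R ^ k) (k : ℕ) :
    ν (PowerSeries.coeff k a.det) ≤ (r0.factorial * (2 * A) ^ r0) * (2 * R) ^ k := by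
  rw [Matrix.det_apply, map_sum]
  refine (SubMul_sum hν _ _).trans ?_
  have h1 : ∀ σ ∈ (univ : Finset (Equiv.Perm (Fin r))),
      ν (PowerSeries.coeff k (Equiv.Perm.sign σ • ∏ i, a (σ i) i)) ≤ (2 * A) ^ r0 * (2 * R) ^ k := by
    intro σ _
    have h2 : ν (PowerSeries.coeff k (Equiv.Perm.sign σ • ∏ i, a (σ i) i)) =
        ν (PowerSeries.coeff k (∏ i, a (σ i) i)) := by
      rcases Int.units_eq_one_or (Equiv.Perm.sign σ) with h | h
      · rw [h, one_smul]
      · rw [h, Units.neg_smul, one_smul, map_neg, hν.neg]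
    rw [h2]
    refine (prod_le hν (by linarith) hR r (fun i => a (σ i) i) (fun i k => ha _ _ k) k).trans ?_
    have h3 : A ^ r * 2 ^ (r + k) * R ^ k = (2 * A) ^ r * (2 * R) ^ k := by
      rw [mul_pow, mul_pow, pow_add]
      ring
    rw [h3]
    exact mul_le_mul_of_nonneg_right (pow_le_pow_right₀ (by linarith) hr) (by positivity)
  refine (Finset.sum_le_card_nsmul _ _ _ h1).trans ?_
  rw [card_univ, Fintype.card_perm, Fintype.card_fin, nsmul_eq_mul, ← mul_assoc]
  have h4 : (r.factorial : ℝ) ≤ r0.factorial := by exact_mod_cast Nat.factorial_le hr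
  have hA0 : (0 : ℝ) ≤ 2 * A := by linarith
  exact mul_le_mul_of_nonneg_right (mul_le_mul_of_nonneg_right h4 (by positivity)) (by positivity)

end Pool.Agent.H87.SA
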